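import Mathlib

/-!
# MP_db1ca7_gt: fixed flats of finite groups of isometries of a Euclidean space
-/

set_option autoImplicit false
set_option linter.unusedSectionVars false

namespace Pool.MP_db1ca7_gt

open scoped RealInnerProductSpace

section Grp

variable {X : Type} [Group X]

/-- the conjugate of a subgroup -/
def cj (γ : X) (F : Subgroup X) : Subgroup X := F.map (MulAut.conj γ).toMonoidHom

theorem mem_cj {γ g : X} {F : Subgroup X} : g ∈ cj γ F ↔ γ⁻¹ * g * γ ∈ F := by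
  constructor
  · rintro ⟨f, hf, rfl⟩
    have : γ⁻¹ * (MulAut.conj γ).toMonoidHom f * γ = f := by
      simp [MulAut.conj_apply, mul_assoc]
    rw [this]; exact hf
  · intro h
    refine ⟨_, h, ?_⟩
    simp [MulAut.conj_apply, mul_assoc]

theorem conj_mem_cj {γ g : X} {F : Subgroup X} (hg : g ∈ F) : γ * g * γ⁻¹ ∈ cj γ F := by
  rw [mem_cj]
  have : γ⁻¹ * (γ * g * γ⁻¹) * γ = g := by group
  rw [this]; exact hg

theorem cj_mul (γ δ : X) (F : Subgroup X) : cj (γ * δ) F = cj γ (cj δ F) := by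
  ext g
  rw [mem_cj, mem_cj, mem_cj]
  have : (γ * δ)⁻¹ * g * (γ * δ) = δ⁻¹ * (γ⁻¹ * g * γ) * δ := by group
  rw [this]

theorem cj_one (F : Subgroup X) : cj 1 F = F := by
  ext g
  rw [mem_cj]; simp

theorem cj_inv_cj (γ : X) (F : Subgroup X) : cj γ⁻¹ (cj γ F) = F := by
  rw [← cj_mul, inv_mul_cancel, cj_one]

theorem cj_cj_inv (γ : X) (F : Subgroup X) : cj γ (cj γ⁻¹ F) = F := by
  rw [← cj_mul, mul_inv_cancel, cj_one]

theorem cj_mono {γ : X} {F F' : Subgroup X} (h : F ≤ F') : cj γ F ≤ cj γ F' :=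
  Subgroup.map_mono h

theorem cj_finite (γ : X) (F : Subgroup X) (hF : Finite F) : Finite (cj γ F) := by
  have : (F : Set X).Finite := Set.toFinite _
  have h2 : ((cj γ F : Subgroup X) : Set X).Finite := by
    rw [cj, Subgroup.coe_map]
    exact this.image _
  exact h2

/-- `F` is a maximal finite subgroup of `G` -/
structure MF (G F : Subgroup X) : Prop where
  le : F ≤ G
  fin : Finite F
  max : ∀ F' : Subgroup X, F' ≤ G → Finite F' → F ≤ F' → F' = F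

theorem MF.cj {G F : Subgroup X} (h : MF G F) {γ : X} (hγ : γ ∈ G) : MF G (cj γ F) := by
  refine ⟨?_, cj_finite γ F h.fin, ?_⟩
  · intro g hg
    rw [mem_cj] at hg
    have h1 := h.le hg
    have h2 : g = γ * (γ⁻¹ * g * γ) * γ⁻¹ := by group
    rw [h2]
    exact G.mul_mem (G.mul_mem hγ h1) (G.inv_mem hγ)
  · intro F' hF' hfin hle
    have h1 : Pool.MP_db1ca7_gt.cj γ⁻¹ F' = F := by
      apply h.max
      · intro g hg
        rw [mem_cj] at hg
        have h2 : g = γ⁻¹ * (γ⁻¹⁻¹ * g * γ⁻¹) * γ := by group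
        rw [h2]
        exact G.mul_mem (G.mul_mem (G.inv_mem hγ) (hF' hg)) hγ
      · exact cj_finite _ _ hfin
      · have := cj_mono (γ := γ⁻¹) hle
        rwa [cj_inv_cj] at this
    rw [← h1, cj_cj_inv]

end Grp

variable {E : Type} [NormedAddCommGroup E] [InnerProductSpace ℝ E]

/-- the linear part of an isometry -/
noncomputable def lin (e : E ≃ᵢ E) : E ≃ₗᵢ[ℝ] E := e.toRealLinearIsometryEquiv

theorem lin_apply (e : E ≃ᵢ E) (v : E) : lin e v = e v - e 0 :=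
  IsometryEquiv.toRealLinearIsometryEquiv_apply e v

theorem lin_sub (e : E ≃ᵢ E) (x y : E) : lin e (x - y) = e x - e y := by
  rw [map_sub, lin_apply, lin_apply]; abel

theorem iso_add (e : E ≃ᵢ E) (x v : E) : e (x + v) = e x + lin e v := by
  have := lin_sub e (x + v) x
  rw [add_sub_cancel_left] at this
  rw [this]; abel

theorem lin_mul (e f : E ≃ᵢ E) (v : E) : lin (e * f) v = lin e (lin f v) := by
  rw [lin_apply f, lin_sub, lin_apply]; rfl

theorem lin_one (v : E) : lin (1 : E ≃ᵢ E) v = v := by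
  rw [lin_apply]; simp

theorem lin_inv_lin (e : E ≃ᵢ E) (v : E) : lin e⁻¹ (lin e v) = v := by
  rw [← lin_mul, inv_mul_cancel, lin_one]

theorem lin_lin_inv (e : E ≃ᵢ E) (v : E) : lin e (lin e⁻¹ v) = v := by
  rw [← lin_mul, mul_inv_cancel, lin_one]

/-- the fixed points of a group of isometries -/
def Fx (F : Subgroup (E ≃ᵢ E)) : Set E := {x | ∀ g ∈ F, g x = x}

/-- the fixed directions of a group of isometries -/
def Dr (F : Subgroup (E ≃ᵢ E)) : Submodule ℝ E where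
  carrier := {v | ∀ g ∈ F, lin g v = v}
  add_mem' := by
    intro a b ha hb g hg
    rw [map_add, ha g hg, hb g hg]
  zero_mem' := by
    intro g _
    rw [map_zero]
  smul_mem' := by
    intro c x hx g hg
    rw [map_smul, hx g hg]

theorem mem_Fx {F : Subgroup (E ≃ᵢ E)} {x : E} : x ∈ Fx F ↔ ∀ g ∈ F, g x = x := Iff.rfl

theorem mem_Dr {F : Subgroup (E ≃ᵢ E)} {v : E} : v ∈ Dr F ↔ ∀ g ∈ F, lin g v = v := Iff.rfl

theorem Fx_anti {F F' : Subgroup (E ≃ᵢ E)} (h : F ≤ F') : Fx F' ⊆ Fx F := fun _ hx g hg => hx g (h hg)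

theorem add_mem_Fx {F : Subgroup (E ≃ᵢ E)} {a v : E} (ha : a ∈ Fx F) (hv : v ∈ Dr F) : a + v ∈ Fx F := by
  intro g hg
  rw [iso_add, ha g hg, hv g hg]

theorem sub_mem_Dr {F : Subgroup (E ≃ᵢ E)} {a b : E} (ha : a ∈ Fx F) (hb : b ∈ Fx F) : a - b ∈ Dr F := by
  intro g hg
  rw [lin_sub, ha g hg, hb g hg]

/-- a finite group of isometries has a fixed point -/
theorem Fx_nonempty (F : Subgroup (E ≃ᵢ E)) (hF : Finite F) : (Fx F).Nonempty := by
  classical
  have := Fintype.ofFinite F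
  have hN : (Fintype.card F : ℝ) ≠ 0 := by
    have : 0 < Fintype.card F := Fintype.card_pos
    exact_mod_cast this.ne'
  refine ⟨(Fintype.card F : ℝ)⁻¹ • ∑ g : F, (g : E ≃ᵢ E) 0, ?_⟩
  intro h hh
  set c : E := ∑ g : F, (g : E ≃ᵢ E) 0 with hc
  have h1 : lin h c = c - (Fintype.card F : ℝ) • h 0 := by
    rw [hc, map_sum]
    have h2 : ∀ g : F, lin h ((g : E ≃ᵢ E) 0) = ((⟨h, hh⟩ * g : F) : E ≃ᵢ E) 0 - h 0 := by
      intro g
      rw [lin_apply]; rfl
    rw [Finset.sum_congr rfl fun g _ => h2 g, Finset.sum_sub_distrib, Finset.sum_const, Finset.card_univ,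
      ← Nat.cast_smul_eq_nsmul ℝ]
    congr 1
    exact Fintype.sum_equiv (Equiv.mulLeft (⟨h, hh⟩ : F)) _ _ fun g => rfl
  have h3 := iso_add h 0 ((Fintype.card F : ℝ)⁻¹ • c)
  rw [zero_add, (lin h).map_smul, h1, smul_sub, smul_smul, inv_mul_cancel₀ hN, one_smul] at h3
  rw [h3]; abel

theorem map_mem_Fx_cj {γ : E ≃ᵢ E} {F : Subgroup (E ≃ᵢ E)} {a : E} (ha : a ∈ Fx F) : γ a ∈ Fx (cj γ F) := by
  intro g hg
  rw [mem_cj] at hg
  have h := ha _ hg
  have h2 : γ ((γ⁻¹ * g * γ) a) = g (γ a) := by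
    change γ (γ⁻¹ (g (γ a))) = g (γ a)
    exact IsometryEquiv.apply_symm_apply γ _
  rw [← h2, h]

theorem mem_Dr_cj {γ : E ≃ᵢ E} {F : Subgroup (E ≃ᵢ E)} {v : E} : v ∈ Dr (cj γ F) ↔ lin γ⁻¹ v ∈ Dr F := by
  constructor
  · intro h g hg
    have h1 := h _ (conj_mem_cj (γ := γ) hg)
    rw [lin_mul, lin_mul] at h1
    have h2 := congrArg (lin γ⁻¹) h1
    rw [lin_inv_lin] at h2
    exact h2
  · intro h g hg
    rw [mem_cj] at hg
    have h1 := h _ hg
    rw [lin_mul, lin_mul, lin_lin_inv] at h1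
    have h2 := congrArg (lin γ) h1
    rw [lin_lin_inv, lin_lin_inv] at h2
    exact h2

/-- discreteness of a group of isometries -/
def PD (G : Subgroup (E ≃ᵢ E)) : Prop := ∀ R : ℝ, {g : E ≃ᵢ E | g ∈ G ∧ ‖g 0‖ ≤ R}.Finite

/-- cocompactness of a group of isometries -/
def CC (G : Subgroup (E ≃ᵢ E)) : Prop := ∃ D : ℝ, ∀ z : E, ∃ g ∈ G, ‖g 0 - z‖ ≤ D

theorem iso_norm (e : E ≃ᵢ E) (x y : E) : ‖e x - e y‖ = ‖x - y‖ := by
  rw [← dist_eq_norm, ← dist_eq_norm, e.dist_eq]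

/-- the stabilizer of a point -/
def St (G : Subgroup (E ≃ᵢ E)) (x : E) : Subgroup (E ≃ᵢ E) where
  carrier := {g | g ∈ G ∧ g x = x}
  mul_mem' := by
    rintro a b ⟨ha, ha'⟩ ⟨hb, hb'⟩
    refine ⟨G.mul_mem ha hb, ?_⟩
    change a (b x) = x
    rw [hb', ha']
  one_mem' := ⟨G.one_mem, rfl⟩
  inv_mem' := by
    rintro a ⟨ha, ha'⟩
    refine ⟨G.inv_mem ha, ?_⟩
    have : a⁻¹ (a x) = x := IsometryEquiv.symm_apply_apply a x
    rw [ha'] at this
    exact this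

theorem mem_St {G : Subgroup (E ≃ᵢ E)} {x : E} {g : E ≃ᵢ E} : g ∈ St G x ↔ g ∈ G ∧ g x = x := Iff.rfl

theorem St_finite {G : Subgroup (E ≃ᵢ E)} (hG : PD G) (x : E) : Finite (St G x) := by
  have h : ((St G x : Subgroup (E ≃ᵢ E)) : Set (E ≃ᵢ E)).Finite := by
    apply (hG (2 * ‖x‖)).subset
    rintro g ⟨hg, hg'⟩
    refine ⟨hg, ?_⟩
    have h1 : ‖g 0 - g x‖ = ‖x‖ := by rw [iso_norm, zero_sub, norm_neg]
    rw [hg'] at h1
    calc ‖g 0‖ = ‖(g 0 - x) + x‖ := by rw [sub_add_cancel]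
      _ ≤ ‖g 0 - x‖ + ‖x‖ := norm_add_le _ _
      _ = 2 * ‖x‖ := by rw [h1]; ring
  exact h

theorem MF.St_eq {G F : Subgroup (E ≃ᵢ E)} (hG : PD G) (h : MF G F) {x : E} (hx : x ∈ Fx F) : St G x = F :=
  h.max _ (fun _ hg => hg.1) (St_finite hG x) fun g hg => ⟨h.le hg, hx g hg⟩

/-- distinct maximal finite subgroups have disjoint fixed flats -/
theorem MF.eq_of_mem {G F F' : Subgroup (E ≃ᵢ E)} (hG : PD G) (h : MF G F) (h' : MF G F') {x : E}
    (hx : x ∈ Fx F) (hx' : x ∈ Fx F') : F = F' := by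
  rw [← h.St_eq hG hx, h'.St_eq hG hx']

end Pool.MP_db1ca7_gt
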