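import Pool.Agent.Lib_MP_db1ca7_fl.Basic

/-!
# MP_db1ca7_gt: elements of a discrete group with small rotational part have commuting rotational parts
-/

set_option autoImplicit false
set_option linter.unusedSectionVars false

namespace Pool.MP_db1ca7_gt

variable {E : Type} [NormedAddCommGroup E] [InnerProductSpace ℝ E]

theorem lin_mul' (e f : E ≃ᵢ E) : lin (e * f) = lin e * lin f := by
  ext v
  exact lin_mul e f v

theorem lin_one' : lin (1 : E ≃ᵢ E) = 1 := by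
  ext v
  exact lin_one v

theorem lin_inv' (e : E ≃ᵢ E) : lin e⁻¹ = (lin e)⁻¹ := by
  apply eq_inv_of_mul_eq_one_left
  rw [← lin_mul', inv_mul_cancel, lin_one']

/-- `A` is within `c` of the identity -/
def Nr (c : ℝ) (A : E ≃ₗᵢ[ℝ] E) : Prop := ∀ v, ‖A v - v‖ ≤ c * ‖v‖

theorem Nr.eq_one_of_powers {C : E ≃ₗᵢ[ℝ] E} (h : ∀ m : ℕ, Nr (1 / 2) (C ^ m)) : C = 1 := by
  have key : ∀ k : ℕ, ∀ m : ℕ, Nr ((1 / 2) * (2 / 3) ^ k) (C ^ m) := by
    intro k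
    induction k with
    | zero => intro m; simpa using h m
    | succ k ih =>
      intro m v
      set D := C ^ m with hD
      have h1 : ‖D (D v) - v‖ ≤ (1 / 2) * (2 / 3) ^ k * ‖v‖ := by
        have := ih (m + m) v
        rw [pow_add] at this
        exact this
      have h2 : ‖D (D v - v) - (D v - v)‖ ≤ (1 / 2) * ‖D v - v‖ := h m (D v - v)
      have h3 : (2 : ℝ) • (D v - v) = (D (D v) - v) - (D (D v - v) - (D v - v)) := by
        rw [map_sub, two_smul]; abel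
      have h4 : 2 * ‖D v - v‖ ≤ (1 / 2) * (2 / 3) ^ k * ‖v‖ + (1 / 2) * ‖D v - v‖ := by
        calc 2 * ‖D v - v‖ = ‖(2 : ℝ) • (D v - v)‖ := by rw [norm_smul]; norm_num
          _ = ‖(D (D v) - v) - (D (D v - v) - (D v - v))‖ := by rw [h3]
          _ ≤ ‖D (D v) - v‖ + ‖D (D v - v) - (D v - v)‖ := norm_sub_le _ _
          _ ≤ _ := add_le_add h1 h2
      rw [pow_succ]
      linarith
  ext v
  change C v = v
  have h1 : ∀ k : ℕ, ‖C v - v‖ ≤ (1 / 2) * (2 / 3) ^ k * ‖v‖ := by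
    intro k
    have := key k 1 v
    rwa [pow_one] at this
  have h2 : Filter.Tendsto (fun k : ℕ => (1 / 2 : ℝ) * (2 / 3) ^ k * ‖v‖) Filter.atTop (nhds ((1 / 2) * 0 * ‖v‖)) :=
    ((tendsto_pow_atTop_nhds_zero_of_lt_one (by norm_num) (by norm_num)).const_mul _).mul_const _
  have h3 : ‖C v - v‖ ≤ (1 / 2) * 0 * ‖v‖ := ge_of_tendsto' h2 h1
  have h4 : ‖C v - v‖ = 0 := le_antisymm (by simpa using h3) (norm_nonneg _)
  exact sub_eq_zero.1 (norm_eq_zero.1 h4)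

/-- the Frobenius lemma -/
theorem Nr.comm_of_comm {A B : E ≃ₗᵢ[ℝ] E} (hB : Nr (1 / 4) B) (hc : A * (A * B * A⁻¹ * B⁻¹) = (A * B * A⁻¹ * B⁻¹) * A) :
    A * B * A⁻¹ * B⁻¹ = 1 := by
  set C := A * B * A⁻¹ * B⁻¹ with hC
  have h1 : ∀ m : ℕ, A ^ m * B * (A ^ m)⁻¹ = C ^ m * B := by
    intro m
    induction m with
    | zero => simp
    | succ m ih =>
      have hcm : A * C ^ m = C ^ m * A := (Commute.pow_right (hc : Commute A C) m)
      calc A ^ (m + 1) * B * (A ^ (m + 1))⁻¹ = A * (A ^ m * B * (A ^ m)⁻¹) * A⁻¹ := by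
            rw [pow_succ']; group
        _ = (A * C ^ m) * B * A⁻¹ := by rw [ih]; group
        _ = C ^ m * (A * B * A⁻¹ * B⁻¹) * B := by rw [hcm]; group
        _ = C ^ (m + 1) * B := by rw [← hC, pow_succ]
  apply Nr.eq_one_of_powers
  intro m v
  set w := B⁻¹ v with hw
  have hwv : B w = v := by
    rw [hw]
    change (B * B⁻¹) v = v
    rw [mul_inv_cancel]; rfl
  have hwn : ‖w‖ = ‖v‖ := by rw [← LinearIsometryEquiv.norm_map B w, hwv]
  have h2 : (C ^ m) v = (A ^ m) (B ((A ^ m)⁻¹ w)) := by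
    have := congrArg (fun D : E ≃ₗᵢ[ℝ] E => D w) (h1 m)
    change (A ^ m) (B ((A ^ m)⁻¹ w)) = (C ^ m) (B w) at this
    rw [this, hwv]
  have h3 : (A ^ m) ((A ^ m)⁻¹ w) = w := by
    change (A ^ m * (A ^ m)⁻¹) w = w
    rw [mul_inv_cancel]; rfl
  have h4 : (C ^ m) v - v = (A ^ m) (B ((A ^ m)⁻¹ w) - (A ^ m)⁻¹ w) - (B w - w) := by
    rw [h2, map_sub, h3, hwv]; abel
  rw [h4]
  calc ‖(A ^ m) (B ((A ^ m)⁻¹ w) - (A ^ m)⁻¹ w) - (B w - w)‖
      ≤ ‖(A ^ m) (B ((A ^ m)⁻¹ w) - (A ^ m)⁻¹ w)‖ + ‖B w - w‖ := norm_sub_le _ _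
    _ ≤ (1 / 4) * ‖(A ^ m)⁻¹ w‖ + (1 / 4) * ‖w‖ := by
        rw [LinearIsometryEquiv.norm_map]
        exact add_le_add (hB _) (hB _)
    _ = (1 / 2) * ‖v‖ := by
        rw [LinearIsometryEquiv.norm_map, hwn]; ring

/-- commutator estimate, rotational part -/
theorem Nr.commutator {c d : ℝ} (hc : 0 ≤ c) (hd : 0 ≤ d) {A B : E ≃ₗᵢ[ℝ] E} (hA : Nr c A) (hB : Nr d B) :
    Nr (2 * c * d) (A * B * A⁻¹ * B⁻¹) := by
  intro v
  set w := A⁻¹ (B⁻¹ v) with hw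
  have hBA : B (A w) = v := by
    rw [hw]
    change (B * A * A⁻¹ * B⁻¹) v = v
    have : B * A * A⁻¹ * B⁻¹ = 1 := by group
    rw [this]; rfl
  have hwn : ‖w‖ = ‖v‖ := by
    rw [← LinearIsometryEquiv.norm_map A w, ← LinearIsometryEquiv.norm_map B (A w), hBA]
  have h1 : (A * B * A⁻¹ * B⁻¹) v = A (B w) := rfl
  have h2 : A (B w) - v = (A (B w - w) - (B w - w)) - (B (A w - w) - (A w - w)) := by
    conv_lhs => rw [← hBA]
    rw [map_sub, map_sub]; abel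
  rw [h1, h2]
  calc ‖(A (B w - w) - (B w - w)) - (B (A w - w) - (A w - w))‖
      ≤ ‖A (B w - w) - (B w - w)‖ + ‖B (A w - w) - (A w - w)‖ := norm_sub_le _ _
    _ ≤ c * (d * ‖w‖) + d * (c * ‖w‖) := by
        apply add_le_add
        · exact (hA _).trans (mul_le_mul_of_nonneg_left (hB w) hc)
        · exact (hB _).trans (mul_le_mul_of_nonneg_left (hA w) hd)
    _ = 2 * c * d * ‖v‖ := by rw [hwn]; ring

theorem iso_apply (g : E ≃ᵢ E) (x : E) : g x = lin g x + g 0 := by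
  rw [lin_apply]; abel

/-- commutator estimate, translational part -/
theorem commutator_zero {c d : ℝ} (hc : 0 ≤ c) (hd : 0 ≤ d) {g h : E ≃ᵢ E} (hA : Nr c (lin g)) (hB : Nr d (lin h)) :
    ‖(g * h * g⁻¹ * h⁻¹) 0‖ ≤ 2 * c * d * (‖g 0‖ + ‖h 0‖) + c * ‖h 0‖ + d * ‖g 0‖ := by
  set x := g⁻¹ (h⁻¹ 0) with hx
  have hhg : h (g x) = 0 := by
    rw [hx]
    change (h * g * g⁻¹ * h⁻¹) 0 = 0
    have : h * g * g⁻¹ * h⁻¹ = 1 := by group
    rw [this]; rfl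
  have hxn : ‖x‖ ≤ ‖g 0‖ + ‖h 0‖ := by
    have h1 : ‖h (g x) - h (g 0)‖ = ‖x‖ := by rw [iso_norm, iso_norm, sub_zero]
    rw [hhg, zero_sub, norm_neg] at h1
    rw [← h1]
    calc ‖h (g 0)‖ = ‖(h (g 0) - h 0) + h 0‖ := by rw [sub_add_cancel]
      _ ≤ ‖h (g 0) - h 0‖ + ‖h 0‖ := norm_add_le _ _
      _ = ‖g 0‖ + ‖h 0‖ := by rw [iso_norm, sub_zero]
  have h1 : (g * h * g⁻¹ * h⁻¹) 0 = g (h x) := rfl
  have h2 : g (h x) = ((lin g (lin h x - x) - (lin h x - x)) - (lin h (lin g x - x) - (lin g x - x))) +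
      (lin g (h 0) - h 0) - (lin h (g 0) - g 0) := by
    have e1 : g (h x) = g (h x) - h (g x) := by rw [hhg, sub_zero]
    rw [e1, iso_apply g (h x), iso_apply h x, iso_apply h (g x), iso_apply g x, map_add, map_add, map_sub, map_sub]
    abel
  rw [h1, h2]
  calc ‖((lin g (lin h x - x) - (lin h x - x)) - (lin h (lin g x - x) - (lin g x - x))) +
      (lin g (h 0) - h 0) - (lin h (g 0) - g 0)‖
      ≤ ‖(lin g (lin h x - x) - (lin h x - x)) - (lin h (lin g x - x) - (lin g x - x))‖ +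
        ‖lin g (h 0) - h 0‖ + ‖lin h (g 0) - g 0‖ := by
        refine (norm_sub_le _ _).trans ?_
        gcongr
        exact norm_add_le _ _
    _ ≤ 2 * c * d * (‖g 0‖ + ‖h 0‖) + c * ‖h 0‖ + d * ‖g 0‖ := by
        apply add_le_add (add_le_add _ (hA _)) (hB _)
        calc ‖(lin g (lin h x - x) - (lin h x - x)) - (lin h (lin g x - x) - (lin g x - x))‖
            ≤ ‖lin g (lin h x - x) - (lin h x - x)‖ + ‖lin h (lin g x - x) - (lin g x - x)‖ := norm_sub_le _ _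
          _ ≤ c * (d * ‖x‖) + d * (c * ‖x‖) := by
              apply add_le_add
              · exact (hA _).trans (mul_le_mul_of_nonneg_left (hB x) hc)
              · exact (hB _).trans (mul_le_mul_of_nonneg_left (hA x) hd)
          _ = 2 * c * d * ‖x‖ := by ring
          _ ≤ 2 * c * d * (‖g 0‖ + ‖h 0‖) := by gcongr

/-- iterated commutators -/
def ic (g h : E ≃ᵢ E) : ℕ → E ≃ᵢ E
  | 0 => h
  | k + 1 => g * ic g h k * g⁻¹ * (ic g h k)⁻¹

theorem ic_mem {G : Subgroup (E ≃ᵢ E)} {g h : E ≃ᵢ E} (hg : g ∈ G) (hh : h ∈ G) (k : ℕ) : ic g h k ∈ G := by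
  induction k with
  | zero => exact hh
  | succ k ih => exact G.mul_mem (G.mul_mem (G.mul_mem hg ih) (G.inv_mem hg)) (G.inv_mem ih)

theorem ic_Nr {g h : E ≃ᵢ E} (hg : Nr (1 / 4) (lin g)) (hh : Nr (1 / 4) (lin h)) (k : ℕ) :
    Nr (1 / 4 * (1 / 2) ^ k) (lin (ic g h k)) := by
  induction k with
  | zero =>
    rw [pow_zero, mul_one]
    exact hh
  | succ k ih =>
    have h1 := Nr.commutator (by norm_num : (0 : ℝ) ≤ 1 / 4) (by positivity) hg ih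
    have h2 : lin (ic g h (k + 1)) = lin g * lin (ic g h k) * (lin g)⁻¹ * (lin (ic g h k))⁻¹ := by
      change lin (g * ic g h k * g⁻¹ * (ic g h k)⁻¹) = _
      rw [lin_mul', lin_mul', lin_mul', lin_inv', lin_inv']
    rw [h2]
    intro v
    refine (h1 v).trans (le_of_eq ?_)
    rw [pow_succ]; ring

theorem ic_zero {g h : E ≃ᵢ E} (hg : Nr (1 / 4) (lin g)) (hh : Nr (1 / 4) (lin h)) (k : ℕ) :
    ‖ic g h k 0‖ ≤ (1 / 2) ^ k * (‖h 0‖ + k * ‖g 0‖) := by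
  induction k with
  | zero => simp [ic]
  | succ k ih =>
    have h1 := commutator_zero (by norm_num : (0 : ℝ) ≤ 1 / 4) (by positivity) hg (ic_Nr hg hh k)
    have hp : (1 / 2 : ℝ) ^ k ≤ 1 := pow_le_one₀ (by norm_num) (by norm_num)
    have hp0 : (0 : ℝ) ≤ (1 / 2) ^ k := by positivity
    have hb : 0 ≤ ‖ic g h k 0‖ := norm_nonneg _
    have ha : 0 ≤ ‖g 0‖ := norm_nonneg _
    have h2 : ‖ic g h (k + 1) 0‖ ≤ (1 / 2) * ‖ic g h k 0‖ + (1 / 2) * ((1 / 2) ^ k * ‖g 0‖) := by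
      refine h1.trans ?_
      have e1 : (1 / 2 : ℝ) ^ k * ‖ic g h k 0‖ ≤ 1 * ‖ic g h k 0‖ := by gcongr
      have e2 : 0 ≤ (1 / 2 : ℝ) ^ k * ‖g 0‖ := by positivity
      nlinarith
    calc ‖ic g h (k + 1) 0‖ ≤ (1 / 2) * ‖ic g h k 0‖ + (1 / 2) * ((1 / 2) ^ k * ‖g 0‖) := h2
      _ ≤ (1 / 2) * ((1 / 2) ^ k * (‖h 0‖ + k * ‖g 0‖)) + (1 / 2) * ((1 / 2) ^ k * ‖g 0‖) := by gcongr
      _ = (1 / 2) ^ (k + 1) * (‖h 0‖ + (k + 1 : ℕ) * ‖g 0‖) := by
          rw [pow_succ]; push_cast; ring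

theorem ic_eq_one {G : Subgroup (E ≃ᵢ E)} (hG : PD G) {g h : E ≃ᵢ E} (hg : g ∈ G) (hh : h ∈ G)
    (hgn : Nr (1 / 4) (lin g)) (hhn : Nr (1 / 4) (lin h)) : ∃ k, ic g h k = 1 := by
  classical
  have hk2 : ∀ k : ℕ, (1 / 2 : ℝ) ^ k * k ≤ 1 := by
    intro k
    have h1 : (k : ℝ) ≤ 2 ^ k := by exact_mod_cast (Nat.lt_two_pow_self (n := k)).le
    rw [one_div, inv_pow, inv_mul_le_iff₀ (by positivity), mul_one]
    exact h1
  have hbd : ∀ k, ‖ic g h k 0‖ ≤ ‖h 0‖ + ‖g 0‖ := by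
    intro k
    refine (ic_zero hgn hhn k).trans ?_
    have hp : (1 / 2 : ℝ) ^ k ≤ 1 := pow_le_one₀ (by norm_num) (by norm_num)
    calc (1 / 2 : ℝ) ^ k * (‖h 0‖ + k * ‖g 0‖) = (1 / 2 : ℝ) ^ k * ‖h 0‖ + ((1 / 2 : ℝ) ^ k * k) * ‖g 0‖ := by ring
      _ ≤ 1 * ‖h 0‖ + 1 * ‖g 0‖ := by gcongr; exact hk2 k
      _ = ‖h 0‖ + ‖g 0‖ := by ring
  have hfin := hG (‖h 0‖ + ‖g 0‖)
  have hmaps : ∀ k, ic g h k ∈ {e : E ≃ᵢ E | e ∈ G ∧ ‖e 0‖ ≤ ‖h 0‖ + ‖g 0‖} := fun k => ⟨ic_mem hg hh k, hbd k⟩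
  obtain ⟨e, -, he⟩ : ∃ e ∈ {e : E ≃ᵢ E | e ∈ G ∧ ‖e 0‖ ≤ ‖h 0‖ + ‖g 0‖}, Set.Infinite {k | ic g h k = e} := by
    by_contra hcon
    push Not at hcon
    have : (Set.univ : Set ℕ) ⊆ ⋃ e ∈ {e : E ≃ᵢ E | e ∈ G ∧ ‖e 0‖ ≤ ‖h 0‖ + ‖g 0‖}, {k | ic g h k = e} := by
      intro k _
      exact Set.mem_biUnion (hmaps k) rfl
    exact Set.infinite_univ ((Set.Finite.biUnion hfin fun e he => hcon e he).subset this)
  have hfr : ∃ᶠ k in Filter.atTop, ic g h k = e := Nat.frequently_atTop_iff_infinite.2 he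
  have hp : Filter.Tendsto (fun k : ℕ => (1 / 2 : ℝ) ^ k) Filter.atTop (nhds 0) :=
    tendsto_pow_atTop_nhds_zero_of_lt_one (by norm_num) (by norm_num)
  have he1 : e = 1 := by
    have hlin : ∀ v, lin e v = v := by
      intro v
      have h2 : Filter.Tendsto (fun k : ℕ => (1 / 4 : ℝ) * (1 / 2) ^ k * ‖v‖) Filter.atTop (nhds ((1 / 4) * 0 * ‖v‖)) :=
        (hp.const_mul _).mul_const _
      have h3 : ‖lin e v - v‖ ≤ (1 / 4) * 0 * ‖v‖ := by
        refine ge_of_tendsto_of_frequently h2 (hfr.mono fun k hk => ?_)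
        rw [← hk]
        exact ic_Nr hgn hhn k v
      have h4 : ‖lin e v - v‖ = 0 := le_antisymm (by simpa using h3) (norm_nonneg _)
      exact sub_eq_zero.1 (norm_eq_zero.1 h4)
    have he0 : e 0 = 0 := by
      have h1 : Filter.Tendsto (fun k : ℕ => (k : ℝ) * (1 / 2) ^ k) Filter.atTop (nhds 0) :=
        tendsto_self_mul_const_pow_of_lt_one (by norm_num) (by norm_num)
      have h2 : Filter.Tendsto (fun k : ℕ => (1 / 2 : ℝ) ^ k * ‖h 0‖ + (k : ℝ) * (1 / 2) ^ k * ‖g 0‖) Filter.atTop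
          (nhds (0 * ‖h 0‖ + 0 * ‖g 0‖)) := (hp.mul_const _).add (h1.mul_const _)
      have h3 : ‖e 0‖ ≤ 0 * ‖h 0‖ + 0 * ‖g 0‖ := by
        refine ge_of_tendsto_of_frequently h2 (hfr.mono fun k hk => ?_)
        rw [← hk]
        refine (ic_zero hgn hhn k).trans (le_of_eq ?_)
        ring
      have h4 : ‖e 0‖ = 0 := le_antisymm (by simpa using h3) (norm_nonneg _)
      exact norm_eq_zero.1 h4
    apply IsometryEquiv.ext
    intro x
    rw [iso_apply, hlin, he0, add_zero]; rfl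
  obtain ⟨k, hk⟩ := hfr.exists
  exact ⟨k, by rw [hk, he1]⟩

/-- elements with small rotational part have commuting rotational parts -/
theorem lin_comm_of_Nr {G : Subgroup (E ≃ᵢ E)} (hG : PD G) {g h : E ≃ᵢ E} (hg : g ∈ G) (hh : h ∈ G)
    (hgn : Nr (1 / 4) (lin g)) (hhn : Nr (1 / 4) (lin h)) : lin g * lin h = lin h * lin g := by
  obtain ⟨K, hK⟩ := ic_eq_one hG hg hh hgn hhn
  have hs : ∀ k, lin (ic g h (k + 1)) = lin g * lin (ic g h k) * (lin g)⁻¹ * (lin (ic g h k))⁻¹ := by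
    intro k
    change lin (g * ic g h k * g⁻¹ * (ic g h k)⁻¹) = _
    rw [lin_mul', lin_mul', lin_mul', lin_inv', lin_inv']
  have hNr : ∀ k, Nr (1 / 4) (lin (ic g h k)) := by
    intro k v
    refine (ic_Nr hgn hhn k v).trans ?_
    have hp : (1 / 2 : ℝ) ^ k ≤ 1 := pow_le_one₀ (by norm_num) (by norm_num)
    calc 1 / 4 * (1 / 2 : ℝ) ^ k * ‖v‖ ≤ 1 / 4 * 1 * ‖v‖ := by gcongr
      _ = 1 / 4 * ‖v‖ := by ring
  have hdown : ∀ j k, k + j = K → lin (ic g h (k + 1)) = 1 := by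
    intro j
    induction j with
    | zero =>
      intro k hk
      rw [hs]
      have : ic g h k = 1 := by
        have : k = K := by omega
        rw [this, hK]
      rw [this, lin_one']
      group
    | succ j ih =>
      intro k hk
      have h1 := ih (k + 1) (by omega)
      rw [hs (k + 1)] at h1
      rw [hs k]
      apply Nr.comm_of_comm (hNr k)
      rw [← hs k]
      have h2 : lin g * lin (ic g h (k + 1)) * (lin g)⁻¹ = lin (ic g h (k + 1)) := mul_inv_eq_one.1 h1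
      exact mul_inv_eq_iff_eq_mul.1 h2
  have h1 := hdown K 0 (by omega)
  rw [hs 0] at h1
  have h2 : lin g * lin h * (lin g)⁻¹ = lin h := mul_inv_eq_one.1 h1
  exact mul_inv_eq_iff_eq_mul.1 h2

end Pool.MP_db1ca7_gt
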