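import Pool.Agent.Lib_MP_db1ca7_fl.Bie1

/-!
# MP_db1ca7_gt: a normal subgroup of finite index with commuting rotational parts
-/

set_option autoImplicit false
set_option linter.unusedSectionVars false

namespace Pool.MP_db1ca7_gt

variable {E : Type} [NormedAddCommGroup E] [InnerProductSpace ℝ E]

/-- the elements with small rotational part -/
def S1 (G : Subgroup (E ≃ᵢ E)) : Set (E ≃ᵢ E) := {g | g ∈ G ∧ Nr (1 / 4) (lin g)}

/-- the subgroup generated by them -/
def G1 (G : Subgroup (E ≃ᵢ E)) : Subgroup (E ≃ᵢ E) := Subgroup.closure (S1 G)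

theorem G1_le (G : Subgroup (E ≃ᵢ E)) : G1 G ≤ G := (Subgroup.closure_le G).2 fun _ hg => hg.1

theorem G1_comm {G : Subgroup (E ≃ᵢ E)} (hG : PD G) :
    ∀ g ∈ G1 G, ∀ h ∈ G1 G, lin g * lin h = lin h * lin g := by
  have h1 : ∀ h ∈ S1 G, ∀ g ∈ G1 G, Commute (lin g) (lin h) := by
    intro h hh g hg
    induction hg using Subgroup.closure_induction with
    | mem g hg => exact lin_comm_of_Nr hG hg.1 hh.1 hg.2 hh.2
    | one => rw [lin_one']; exact Commute.one_left _
    | mul a b _ _ ha hb => rw [lin_mul']; exact ha.mul_left hb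
    | inv a _ ha => rw [lin_inv']; exact ha.inv_left
  intro g hg h hh
  have h2 : Commute (lin g) (lin h) := by
    induction hh using Subgroup.closure_induction with
    | mem h hh => exact h1 h hh g hg
    | one => rw [lin_one']; exact Commute.one_right _
    | mul a b _ _ ha hb => rw [lin_mul']; exact ha.mul_right hb
    | inv a _ ha => rw [lin_inv']; exact ha.inv_right
  exact h2

theorem G1_conj {G : Subgroup (E ≃ᵢ E)} {γ : E ≃ᵢ E} (hγ : γ ∈ G) {g : E ≃ᵢ E} (hg : g ∈ G1 G) :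
    γ * g * γ⁻¹ ∈ G1 G := by
  induction hg using Subgroup.closure_induction with
  | mem g hg =>
    apply Subgroup.subset_closure
    refine ⟨G.mul_mem (G.mul_mem hγ hg.1) (G.inv_mem hγ), fun v => ?_⟩
    have h1 : lin (γ * g * γ⁻¹) v - v = lin γ (lin g (lin γ⁻¹ v) - lin γ⁻¹ v) := by
      rw [map_sub, lin_lin_inv, lin_mul, lin_mul]
    rw [h1, LinearIsometryEquiv.norm_map]
    refine (hg.2 _).trans ?_
    rw [LinearIsometryEquiv.norm_map]
  | one =>
    rw [mul_one, mul_inv_cancel]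
    exact Subgroup.one_mem _
  | mul a b _ _ ha hb =>
    have : γ * (a * b) * γ⁻¹ = (γ * a * γ⁻¹) * (γ * b * γ⁻¹) := by group
    rw [this]
    exact Subgroup.mul_mem _ ha hb
  | inv a _ ha =>
    have : γ * a⁻¹ * γ⁻¹ = (γ * a * γ⁻¹)⁻¹ := by group
    rw [this]
    exact Subgroup.inv_mem _ ha

theorem G1_cover [FiniteDimensional ℝ E] (G : Subgroup (E ≃ᵢ E)) :
    ∃ T : Set (E ≃ᵢ E), T.Finite ∧ (∀ t ∈ T, t ∈ G) ∧ ∀ γ ∈ G, ∃ t ∈ T, t⁻¹ * γ ∈ G1 G := by
  classical
  let L : (E ≃ᵢ E) → (E →L[ℝ] E) := fun g => (lin g).toLinearIsometry.toContinuousLinearMap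
  have hL : ∀ g v, L g v = lin g v := fun _ _ => rfl
  have hs : TotallyBounded (L '' (G : Set (E ≃ᵢ E))) := by
    apply (isCompact_closedBall (0 : E →L[ℝ] E) 1).totallyBounded.subset
    rintro _ ⟨g, _, rfl⟩
    rw [mem_closedBall_zero_iff]
    apply ContinuousLinearMap.opNorm_le_bound _ zero_le_one
    intro v
    rw [hL, LinearIsometryEquiv.norm_map, one_mul]
  obtain ⟨t, hts, htf, hcov⟩ := Metric.finite_approx_of_totallyBounded hs (1 / 4) (by norm_num)
  have hch : ∀ y ∈ t, ∃ g ∈ G, L g = y := fun y hy => hts hy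
  choose! φ hφG hφL using hch
  refine ⟨φ '' t, htf.image φ, ?_, ?_⟩
  · rintro _ ⟨y, hy, rfl⟩
    exact hφG y hy
  · intro γ hγ
    obtain ⟨y, hy, hγy⟩ := Set.mem_iUnion₂.1 (hcov ⟨γ, hγ, rfl⟩)
    refine ⟨φ y, ⟨y, hy, rfl⟩, Subgroup.subset_closure ⟨G.mul_mem (G.inv_mem (hφG y hy)) hγ, fun v => ?_⟩⟩
    have h1 : lin ((φ y)⁻¹ * γ) v - v = lin (φ y)⁻¹ (lin γ v - lin (φ y) v) := by
      rw [map_sub, lin_inv_lin, lin_mul]
    rw [h1, LinearIsometryEquiv.norm_map]
    have hyv : y v = lin (φ y) v := by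
      conv_lhs => rw [← hφL y hy]
      exact hL _ v
    have h2 : lin γ v - lin (φ y) v = (L γ - y) v := by
      rw [ContinuousLinearMap.sub_apply, hyv, hL]
    rw [h2]
    refine (ContinuousLinearMap.le_opNorm _ _).trans ?_
    rw [Metric.mem_ball, dist_eq_norm] at hγy
    gcongr

end Pool.MP_db1ca7_gt
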