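import Pool.Agent.Lib_MP_db1ca7_fl.Suff

/-!
# MP_db1ca7_gt: restriction to an invariant flat
-/

set_option autoImplicit false
set_option linter.unusedSectionVars false

namespace Pool.MP_db1ca7_gt

open scoped RealInnerProductSpace

section ker

variable {X Y : Type} [Group X] [Group Y]

theorem comap_finite (ρ : X →* Y) (hker : ((ρ.ker : Subgroup X) : Set X).Finite) (F : Subgroup Y) (hF : Finite F) :
    Finite (F.comap ρ) := by
  have h1 : ((F : Subgroup Y) : Set Y).Finite := Set.toFinite _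
  have h2 : ((F.comap ρ : Subgroup X) : Set X).Finite := by
    rw [Subgroup.coe_comap]
    apply h1.preimage'
    intro b _
    by_cases hb : ∃ x, ρ x = b
    · obtain ⟨x, rfl⟩ := hb
      apply (hker.image (fun k => x * k)).subset
      intro y hy
      refine ⟨x⁻¹ * y, ?_, by simp⟩
      rw [Set.mem_preimage, Set.mem_singleton_iff] at hy
      rw [SetLike.mem_coe, MonoidHom.mem_ker, map_mul, hy, map_inv, inv_mul_cancel]
    · apply Set.finite_empty.subset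
      intro y hy
      exact hb ⟨y, hy⟩
  exact h2

theorem map_finite (ρ : X →* Y) (F : Subgroup X) (hF : Finite F) : Finite (F.map ρ) := by
  have h2 : ((F : Subgroup X) : Set X).Finite := Set.toFinite _
  have h3 : ((F.map ρ : Subgroup Y) : Set Y).Finite := by
    rw [Subgroup.coe_map]; exact h2.image _
  exact h3

theorem MF.comap_map {ρ : X →* Y} (hker : ((ρ.ker : Subgroup X) : Set X).Finite) {F : Subgroup X}
    (hF : MF ⊤ F) : (F.map ρ).comap ρ = F :=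
  hF.max _ le_top (comap_finite ρ hker _ (map_finite ρ F hF.fin)) (Subgroup.le_comap_map ρ F)

theorem MF.map {ρ : X →* Y} (hker : ((ρ.ker : Subgroup X) : Set X).Finite) {F : Subgroup X}
    (hF : MF ⊤ F) : MF ((⊤ : Subgroup X).map ρ) (F.map ρ) := by
  refine ⟨Subgroup.map_mono le_top, map_finite ρ F hF.fin, ?_⟩
  intro F' hF' hfin hle
  have h1 : F'.comap ρ = F := by
    apply hF.max _ le_top (comap_finite ρ hker _ hfin)
    rw [← Subgroup.map_le_iff_le_comap]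
    exact hle
  rw [← h1, Subgroup.map_comap_eq_self]
  rw [MonoidHom.range_eq_map]
  exact hF'

theorem not_conj {ρ : X →* Y} (hker : ((ρ.ker : Subgroup X) : Set X).Finite) {F F' : Subgroup X}
    (hF : MF ⊤ F) (hF' : MF ⊤ F') (h : ∀ γ : X, cj γ F ≠ F') :
    ∀ g ∈ (⊤ : Subgroup X).map ρ, cj g (F.map ρ) ≠ F'.map ρ := by
  rintro _ ⟨γ, -, rfl⟩ hc
  apply h γ
  rw [← map_cj] at hc
  have h1 := congrArg (Subgroup.comap ρ) hc
  rwa [(hF.cj (Subgroup.mem_top γ)).comap_map hker, hF'.comap_map hker] at h1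

theorem NB_ker {ρ : X →* Y} (hker : ((ρ.ker : Subgroup X) : Set X).Finite) {N : ℕ}
    (h : NB ((⊤ : Subgroup X).map ρ) N) : NB (⊤ : Subgroup X) N := by
  intro m F hF hnc
  refine h m (fun i => (F i).map ρ) (fun i => (hF i).map hker) ?_
  intro i j hij
  exact not_conj hker (hF i) (hF j) fun γ => hnc i j hij γ (Subgroup.mem_top γ)

/-- the conjugacy classes of maximal finite subgroups of `G` -/
def Classes (G : Subgroup X) : Set (Set (Subgroup X)) :=
  {C | ∃ F, MF G F ∧ C = {F' | ∃ γ ∈ G, F' = cj γ F}}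

theorem NB.encard_le {G : Subgroup X} {N : ℕ} (h : NB G N) : (Classes G).encard ≤ N := by
  by_contra hc
  rw [not_le] at hc
  have h1 : ((N + 1 : ℕ) : ℕ∞) ≤ (Classes G).encard := by
    rw [Nat.cast_add, Nat.cast_one]
    exact Order.add_one_le_of_lt hc
  obtain ⟨t, ht, htc⟩ := Set.exists_subset_encard_eq h1
  have htf : t.Finite := Set.finite_of_encard_eq_coe htc
  have htn : Nat.card t = N + 1 := by
    have h2 : t.ncard = N + 1 := by
      rw [Set.ncard, htc]; rfl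
    rw [← h2, Nat.card_coe_set_eq]
  have : Finite t := htf
  obtain ⟨e⟩ : Nonempty (t ≃ Fin (N + 1)) := ⟨Finite.equivFinOfCardEq htn⟩
  have hF : ∀ i : Fin (N + 1), ∃ F, MF G F ∧ ((e.symm i : t) : Set (Subgroup X)) = {F' | ∃ γ ∈ G, F' = cj γ F} :=
    fun i => ht (e.symm i).2
  choose F hF1 hF2 using hF
  have := h (N + 1) F hF1 (by
    intro i j hij γ hγ hcon
    apply hij
    apply e.symm.injective
    apply Subtype.ext
    rw [hF2, hF2]
    ext F'
    constructor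
    · rintro ⟨δ, hδ, rfl⟩
      refine ⟨δ * γ⁻¹, G.mul_mem hδ (G.inv_mem hγ), ?_⟩
      rw [← hcon, cj_mul, cj_inv_cj]
    · rintro ⟨δ, hδ, rfl⟩
      refine ⟨δ * γ, G.mul_mem hδ hγ, ?_⟩
      rw [← hcon, cj_mul])
  omega

end ker

variable {E : Type} [NormedAddCommGroup E] [InnerProductSpace ℝ E] [FiniteDimensional ℝ E]

/-- `a + U` is invariant under `G` -/
def IF (G : Subgroup (E ≃ᵢ E)) (a : E) (U : Submodule ℝ E) : Prop := ∀ g ∈ G, ∀ u ∈ U, g (a + u) - a ∈ U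

theorem IF.lin_mem {G : Subgroup (E ≃ᵢ E)} {a : E} {U : Submodule ℝ E} (h : IF G a U) {g : E ≃ᵢ E} (hg : g ∈ G)
    {u : E} (hu : u ∈ U) : lin g u ∈ U := by
  have h1 := h g hg u hu
  have h2 := h g hg 0 U.zero_mem
  have h3 : lin g u = (g (a + u) - a) - (g (a + 0) - a) := by
    rw [add_zero, iso_add]; abel
  rw [h3]
  exact U.sub_mem h1 h2

/-- the action on an invariant flat -/
noncomputable def fa (G : Subgroup (E ≃ᵢ E)) (a : E) (U : Submodule ℝ E) (h : IF G a U) : G →* (U ≃ᵢ U) where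
  toFun g := IsometryEquiv.mk' (fun u => ⟨(g : E ≃ᵢ E) (a + u) - a, h g g.2 u u.2⟩)
    (fun u => ⟨((g⁻¹ : G) : E ≃ᵢ E) (a + u) - a, h _ (g⁻¹ : G).2 u u.2⟩)
    (fun u => by
      apply Subtype.ext
      change (g : E ≃ᵢ E) (a + (((g⁻¹ : G) : E ≃ᵢ E) (a + u) - a)) - a = u
      rw [add_sub_cancel]
      have : (g : E ≃ᵢ E) (((g⁻¹ : G) : E ≃ᵢ E) (a + u)) = a + u :=
        IsometryEquiv.apply_symm_apply (g : E ≃ᵢ E) _
      rw [this, add_sub_cancel_left])
    (by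
      apply Isometry.of_dist_eq
      intro u v
      rw [dist_eq_norm, dist_eq_norm]
      change ‖((g : E ≃ᵢ E) (a + u) - a) - ((g : E ≃ᵢ E) (a + v) - a)‖ = ‖((u : E) - v)‖
      rw [sub_sub_sub_cancel_right, iso_norm, add_sub_add_left_eq_sub])
  map_one' := by
    apply IsometryEquiv.ext
    intro u
    apply Subtype.ext
    change (1 : E ≃ᵢ E) (a + u) - a = u
    have : (1 : E ≃ᵢ E) (a + u) = a + u := rfl
    rw [this, add_sub_cancel_left]
  map_mul' := by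
    intro g k
    apply IsometryEquiv.ext
    intro u
    apply Subtype.ext
    change (g : E ≃ᵢ E) ((k : E ≃ᵢ E) (a + u)) - a = (g : E ≃ᵢ E) (a + ((k : E ≃ᵢ E) (a + u) - a)) - a
    rw [add_sub_cancel]

theorem fa_apply {G : Subgroup (E ≃ᵢ E)} {a : E} {U : Submodule ℝ E} (h : IF G a U) (g : G) (u : U) :
    ((fa G a U h g u : U) : E) = (g : E ≃ᵢ E) (a + u) - a := rfl

theorem lin_fa {G : Subgroup (E ≃ᵢ E)} {a : E} {U : Submodule ℝ E} (h : IF G a U) (g : G) (u : U) :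
    ((lin (fa G a U h g) u : U) : E) = lin (g : E ≃ᵢ E) (u : E) := by
  rw [lin_apply, Submodule.coe_sub, fa_apply, fa_apply]
  simp only [Submodule.coe_zero, add_zero]
  rw [iso_add]; abel

theorem PD_fa {G : Subgroup (E ≃ᵢ E)} {a : E} {U : Submodule ℝ E} (h : IF G a U) (hG : PD G) :
    PD ((⊤ : Subgroup G).map (fa G a U h)) := by
  intro R
  have hfin : {g : G | ‖(g : E ≃ᵢ E) 0‖ ≤ R + 2 * ‖a‖}.Finite := by
    have := hG (R + 2 * ‖a‖)
    refine Set.Finite.of_finite_image (f := fun g : G => (g : E ≃ᵢ E)) (this.subset ?_)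
      Subtype.val_injective.injOn
    rintro _ ⟨g, hg, rfl⟩
    exact ⟨g.2, hg⟩
  refine (hfin.image (fa G a U h)).subset ?_
  rintro k ⟨⟨γ, -, rfl⟩, hR⟩
  refine ⟨γ, ?_, rfl⟩
  have h1 : ‖(γ : E ≃ᵢ E) a - a‖ ≤ R := by
    have : ((fa G a U h γ 0 : U) : E) = (γ : E ≃ᵢ E) a - a := by
      rw [fa_apply]; simp
    rw [← this]
    exact hR
  have h2 : ‖(γ : E ≃ᵢ E) 0 - (γ : E ≃ᵢ E) a‖ = ‖a‖ := by
    rw [iso_norm, zero_sub, norm_neg]
  change ‖(γ : E ≃ᵢ E) 0‖ ≤ R + 2 * ‖a‖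
  calc ‖(γ : E ≃ᵢ E) 0‖ = ‖((γ : E ≃ᵢ E) 0 - (γ : E ≃ᵢ E) a) + ((γ : E ≃ᵢ E) a - a) + a‖ := by
        congr 1; abel
    _ ≤ ‖(γ : E ≃ᵢ E) 0 - (γ : E ≃ᵢ E) a‖ + ‖(γ : E ≃ᵢ E) a - a‖ + ‖a‖ := norm_add₃_le
    _ ≤ R + 2 * ‖a‖ := by rw [h2]; linarith

theorem ker_fa {G : Subgroup (E ≃ᵢ E)} {a : E} {U : Submodule ℝ E} (h : IF G a U) (hG : PD G) :
    (((fa G a U h).ker : Subgroup G) : Set G).Finite := by
  have h1 := St_finite hG a
  have h2 : ((St G a : Subgroup (E ≃ᵢ E)) : Set (E ≃ᵢ E)).Finite := Set.toFinite _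
  refine Set.Finite.of_finite_image (f := fun g : G => (g : E ≃ᵢ E)) (h2.subset ?_)
    Subtype.val_injective.injOn
  rintro _ ⟨g, hg, rfl⟩
  refine ⟨g.2, ?_⟩
  have h3 : fa G a U h g = 1 := hg
  have h4 : ((fa G a U h g 0 : U) : E) = 0 := by rw [h3]; rfl
  rw [fa_apply] at h4
  simp only [Submodule.coe_zero, add_zero] at h4
  exact sub_eq_zero.1 h4

/-- the fixed directions inside the flat -/
theorem Dr_fa {G : Subgroup (E ≃ᵢ E)} {a : E} {U : Submodule ℝ E} (h : IF G a U) (F : Subgroup G) (u : U) :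
    u ∈ Dr (F.map (fa G a U h)) ↔ (u : E) ∈ Dr (F.map G.subtype) := by
  constructor
  · rintro hu _ ⟨g, hg, rfl⟩
    have h1 := hu _ ⟨g, hg, rfl⟩
    have h2 := congrArg Subtype.val h1
    rw [lin_fa] at h2
    exact h2
  · rintro hu _ ⟨g, hg, rfl⟩
    apply Subtype.ext
    rw [lin_fa]
    exact hu _ ⟨g, hg, rfl⟩

theorem finrank_Dr_fa {G : Subgroup (E ≃ᵢ E)} {a : E} {U : Submodule ℝ E} (h : IF G a U) (F : Subgroup G) :
    Module.finrank ℝ (Dr (F.map (fa G a U h))) =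
      Module.finrank ℝ (U ⊓ Dr (F.map G.subtype) : Submodule ℝ E) := by
  have h1 : (Dr (F.map (fa G a U h))).map U.subtype = U ⊓ Dr (F.map G.subtype) := by
    ext x
    constructor
    · rintro ⟨u, hu, rfl⟩
      exact ⟨u.2, (Dr_fa h F u).1 hu⟩
    · rintro ⟨hx, hx'⟩
      exact ⟨⟨x, hx⟩, (Dr_fa h F ⟨x, hx⟩).2 hx', rfl⟩
  rw [← h1]
  exact (Submodule.finrank_map_subtype_eq U _).symm

end Pool.MP_db1ca7_gt
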