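import Pool.Agent.Lib_MP_db1ca7_fl.Bie1
import Pool.Agent.Lib_MP_db1ca7_fl.Flat

/-!
# MP_db1ca7_gt: a discrete group with commuting rotational parts acts cocompactly on an invariant flat
-/

set_option autoImplicit false
set_option linter.unusedSectionVars false

namespace Pool.MP_db1ca7_gt

open scoped RealInnerProductSpace

variable {E : Type} [NormedAddCommGroup E] [InnerProductSpace ℝ E] [FiniteDimensional ℝ E]

theorem pow_lin_fin {g : E ≃ᵢ E} (T : Set E) (hfin : ∀ R : ℝ, {t | t ∈ T ∧ ‖t‖ ≤ R}.Finite)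
    (hg : ∀ t ∈ T, lin g t ∈ T) (s : Finset E) (hs : ∀ t ∈ s, t ∈ T) :
    ∃ m : ℕ, 1 ≤ m ∧ ∀ t ∈ s, lin (g ^ m) t = t := by
  classical
  have hpow : ∀ (k : ℕ), ∀ t ∈ T, lin (g ^ k) t ∈ T := by
    intro k
    induction k with
    | zero => intro t ht; rw [pow_zero, lin_one]; exact ht
    | succ k ih =>
      intro t ht
      rw [pow_succ', lin_mul]
      exact hg _ (ih t ht)
  induction s using Finset.induction_on with
  | empty => exact ⟨1, le_refl _, fun t ht => absurd ht (Finset.notMem_empty t)⟩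
  | insert b s hb ih =>
    obtain ⟨m, hm, hms⟩ := ih fun t ht => hs t (Finset.mem_insert_of_mem ht)
    have hbT := hs b (Finset.mem_insert_self b s)
    have hF : Finite {t | t ∈ T ∧ ‖t‖ ≤ ‖b‖} := hfin ‖b‖
    let f : ℕ → {t | t ∈ T ∧ ‖t‖ ≤ ‖b‖} := fun k => ⟨lin (g ^ (m * k)) b, hpow _ b hbT, by
      rw [LinearIsometryEquiv.norm_map]⟩
    obtain ⟨i, j, hij, hfij⟩ := Finite.exists_ne_map_eq_of_infinite f
    have key : ∀ i j : ℕ, i < j → lin (g ^ (m * i)) b = lin (g ^ (m * j)) b → lin (g ^ (m * (j - i))) b = b := by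
      intro i j hij h
      have h1 : g ^ (m * j) = g ^ (m * i) * g ^ (m * (j - i)) := by
        rw [← pow_add, ← Nat.mul_add]
        congr 2
        omega
      rw [h1, lin_mul] at h
      exact ((lin (g ^ (m * i))).injective h).symm
    have hfix : ∀ k : ℕ, ∀ t ∈ s, lin (g ^ (m * k)) t = t := by
      intro k
      induction k with
      | zero => intro t _; rw [mul_zero, pow_zero, lin_one]
      | succ k ihk =>
        intro t ht
        rw [Nat.mul_succ, pow_add, lin_mul, hms t ht, ihk t ht]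
    have hex : ∃ k : ℕ, 1 ≤ k ∧ lin (g ^ (m * k)) b = b := by
      have h0 : lin (g ^ (m * i)) b = lin (g ^ (m * j)) b := congrArg Subtype.val hfij
      rcases lt_or_gt_of_ne hij with h | h
      · exact ⟨j - i, by omega, key i j h h0⟩
      · exact ⟨i - j, by omega, key j i h h0.symm⟩
    obtain ⟨k, hk, hkb⟩ := hex
    refine ⟨m * k, Nat.mul_pos hm hk, fun t ht => ?_⟩
    rcases Finset.mem_insert.1 ht with rfl | ht
    · exact hkb
    · exact hfix k t ht

/-- a power of `g` fixes the span of a locally finite invariant set -/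
theorem pow_lin {g : E ≃ᵢ E} (T : Set E) (hfin : ∀ R : ℝ, {t | t ∈ T ∧ ‖t‖ ≤ R}.Finite)
    (hg : ∀ t ∈ T, lin g t ∈ T) (W : Submodule ℝ E) (hW : W ≤ Submodule.span ℝ T) :
    ∃ m : ℕ, 1 ≤ m ∧ ∀ w ∈ W, lin (g ^ m) w = w := by
  have hfg : (Submodule.span ℝ T).FG := IsNoetherian.noetherian _
  obtain ⟨s, hs1, hs2⟩ := (Submodule.fg_span_iff_fg_span_finset_subset _).1 hfg
  obtain ⟨m, hm, hms⟩ := pow_lin_fin T hfin hg s fun t ht => hs1 ht
  have key : ∀ w ∈ Submodule.span ℝ (s : Set E), lin (g ^ m) w = w := by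
    intro w hw
    induction hw using Submodule.span_induction with
    | mem x hx => exact hms x hx
    | zero => rw [map_zero]
    | add x y _ _ hx hy => rw [map_add, hx, hy]
    | smul a x _ hx => rw [map_smul, hx]
  refine ⟨m, hm, fun w hw => key w ?_⟩
  have h1 := hW hw
  rw [hs2] at h1
  exact h1

/-- orthogonal projection along `W` -/
theorem exists_orth (W : Submodule ℝ E) : ∃ p : E →ₗ[ℝ] E, (∀ x, p x ∈ Wᗮ) ∧ (∀ x, x - p x ∈ W) ∧
    (∀ w ∈ W, p w = 0) ∧ ∀ y ∈ Wᗮ, p y = y := by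
  have huniq : ∀ x y y' : E, y ∈ Wᗮ → y' ∈ Wᗮ → x - y ∈ W → x - y' ∈ W → y = y' := by
    intro x y y' hy hy' h h'
    have h1 : y - y' ∈ Wᗮ := Wᗮ.sub_mem hy hy'
    have h2 : y - y' ∈ W := by
      have := W.sub_mem h' h
      have e : x - y' - (x - y) = y - y' := by abel
      rwa [e] at this
    have h3 := Submodule.inner_left_of_mem_orthogonal (u := y - y') h2 h1
    rw [inner_self_eq_zero] at h3
    exact sub_eq_zero.1 h3
  refine ⟨(Wᗮ).starProjection.toLinearMap, ?_, ?_, ?_, ?_⟩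
  · intro x
    exact Submodule.starProjection_apply_mem _ _
  · intro x
    have h1 : x - (Wᗮ).starProjection x ∈ Wᗮᗮ := Submodule.sub_starProjection_mem_orthogonal x
    rwa [Submodule.orthogonal_orthogonal] at h1
  · intro w hw
    have h1 : w - (Wᗮ).starProjection w ∈ Wᗮᗮ := Submodule.sub_starProjection_mem_orthogonal w
    rw [Submodule.orthogonal_orthogonal] at h1
    exact huniq w _ 0 (Submodule.starProjection_apply_mem _ _) (Wᗮ).zero_mem h1 (by rwa [sub_zero])
  · intro y hy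
    have h1 : y - (Wᗮ).starProjection y ∈ Wᗮᗮ := Submodule.sub_starProjection_mem_orthogonal y
    rw [Submodule.orthogonal_orthogonal] at h1
    exact huniq y _ y (Submodule.starProjection_apply_mem _ _) hy h1 (by rw [sub_self]; exact W.zero_mem)

theorem orth_inv {G : Subgroup (E ≃ᵢ E)} {W : Submodule ℝ E} (hW : ∀ g ∈ G, ∀ w ∈ W, lin g w ∈ W) {g : E ≃ᵢ E}
    (hg : g ∈ G) {y : E} (hy : y ∈ Wᗮ) : lin g y ∈ Wᗮ := by
  rw [Submodule.mem_orthogonal] at hy ⊢
  intro w hw
  have h1 := hy _ (hW g⁻¹ (G.inv_mem hg) w hw)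
  rw [← LinearIsometryEquiv.inner_map_map (lin g), lin_lin_inv] at h1
  exact h1

theorem p_comm {G : Subgroup (E ≃ᵢ E)} {W : Submodule ℝ E} (hW : ∀ g ∈ G, ∀ w ∈ W, lin g w ∈ W) {p : E →ₗ[ℝ] E}
    (p1 : ∀ x, p x ∈ Wᗮ) (p2 : ∀ x, x - p x ∈ W) (p3 : ∀ w ∈ W, p w = 0) (p4 : ∀ y ∈ Wᗮ, p y = y)
    {g : E ≃ᵢ E} (hg : g ∈ G) (x : E) : p (lin g x) = lin g (p x) := by
  have h1 : lin g x = lin g (p x) + lin g (x - p x) := by rw [← map_add]; congr 1; abel
  conv_lhs => rw [h1]
  rw [map_add, p4 _ (orth_inv hW hg (p1 x)), p3 _ (hW g hg _ (p2 x)), add_zero]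

theorem TR_conj {G : Subgroup (E ≃ᵢ E)} {γ : E ≃ᵢ E} (hγ : γ ∈ G) {t : E} (ht : TR G t) : TR G (lin γ t) := by
  obtain ⟨g, hg, hgx⟩ := ht
  refine ⟨γ * g * γ⁻¹, G.mul_mem (G.mul_mem hγ hg) (G.inv_mem hγ), fun x => ?_⟩
  change γ (g (γ⁻¹ x)) = x + lin γ t
  rw [hgx, iso_add]
  have : γ (γ⁻¹ x) = x := IsometryEquiv.apply_symm_apply γ x
  rw [this]

theorem TR_fin {G : Subgroup (E ≃ᵢ E)} (hG : PD G) (R : ℝ) : {t | t ∈ {t | TR G t} ∧ ‖t‖ ≤ R}.Finite := by
  refine ((hG R).image fun g => g 0).subset ?_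
  rintro t ⟨⟨g, hg, hgx⟩, ht⟩
  have h0 : g 0 = t := by rw [hgx, zero_add]
  exact ⟨g, ⟨hg, by rw [h0]; exact ht⟩, h0⟩

/-- the minimal case -/
theorem span_of_min {G : Subgroup (E ≃ᵢ E)} (hG : PD G) (hcm : ∀ g ∈ G, ∀ h ∈ G, lin g * lin h = lin h * lin g)
    (hmin : ∀ (a : E) (W : Submodule ℝ E), IF G a W → W = ⊤) : Submodule.span ℝ {t | TR G t} = ⊤ := by
  set W := Submodule.span ℝ {t | TR G t} with hWdef
  have hTW : ∀ t, TR G t → t ∈ W := fun t ht => Submodule.subset_span ht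
  have hW : ∀ g ∈ G, ∀ w ∈ W, lin g w ∈ W := by
    intro g hg w hw
    induction hw using Submodule.span_induction with
    | mem x hx => exact hTW _ (TR_conj hg hx)
    | zero => rw [map_zero]; exact W.zero_mem
    | add x y _ _ hx hy => rw [map_add]; exact W.add_mem hx hy
    | smul a x _ hx => rw [map_smul]; exact W.smul_mem a hx
  obtain ⟨p, p1, p2, p3, p4⟩ := exists_orth W
  have pc : ∀ g ∈ G, ∀ x, p (lin g x) = lin g (p x) := fun g hg x => p_comm hW p1 p2 p3 p4 hg x
  have hcomm : ∀ g ∈ G, ∀ h ∈ G, ∀ v, lin g (lin h v) = lin h (lin g v) := fun g hg h hh v =>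
    congrArg (fun A : E ≃ₗᵢ[ℝ] E => A v) (hcm g hg h hh)
  -- Step 1
  have step1 : ∀ g ∈ G, ∀ v ∈ Wᗮ, lin g v = v := by
    intro g hg
    let K : Submodule ℝ E :=
      { carrier := {v | v ∈ Wᗮ ∧ lin g v = v}
        add_mem' := by
          rintro a b ⟨ha, ha'⟩ ⟨hb, hb'⟩
          exact ⟨Wᗮ.add_mem ha hb, by rw [map_add, ha', hb']⟩
        zero_mem' := ⟨Wᗮ.zero_mem, map_zero _⟩
        smul_mem' := by
          rintro c x ⟨hx, hx'⟩
          exact ⟨Wᗮ.smul_mem c hx, by rw [map_smul, hx']⟩ }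
    have hK : ∀ v, v ∈ K ↔ v ∈ Wᗮ ∧ lin g v = v := fun v => Iff.rfl
    have hKinv : ∀ h ∈ G, ∀ v ∈ K, lin h v ∈ K := by
      rintro h hh v ⟨hv, hv'⟩
      exact ⟨orth_inv hW hh hv, by rw [hcomm g hg h hh, hv']⟩
    -- the complement
    set M : Submodule ℝ E := Wᗮ ⊓ Kᗮ with hM
    have hMinv : ∀ v ∈ M, lin g v - v ∈ M := by
      rintro v ⟨hv, hv'⟩
      refine ⟨Wᗮ.sub_mem (orth_inv hW hg hv) hv, Kᗮ.sub_mem ?_ hv'⟩
      refine (Submodule.mem_orthogonal K _).2 ?_
      intro k hk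
      have h1 := (Submodule.mem_orthogonal K v).1 hv' k hk
      rw [← LinearIsometryEquiv.inner_map_map (lin g), hk.2] at h1
      exact h1
    let D : M →ₗ[ℝ] M := LinearMap.restrict ((lin g).toLinearEquiv.toLinearMap - LinearMap.id) hMinv
    have hDapply : ∀ v : M, ((D v : M) : E) = lin g v - v := fun v => rfl
    have hDinj : Function.Injective D := by
      rw [← LinearMap.ker_eq_bot, LinearMap.ker_eq_bot']
      intro v hv
      have h1 : lin g (v : E) - v = 0 := by
        rw [← hDapply, hv]; rfl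
      have h2 : (v : E) ∈ K := ⟨v.2.1, sub_eq_zero.1 h1⟩
      have h3 := Submodule.inner_right_of_mem_orthogonal h2 v.2.2
      rw [inner_self_eq_zero] at h3
      exact Subtype.ext h3
    have hDsurj : Function.Surjective D := LinearMap.injective_iff_surjective.1 hDinj
    obtain ⟨bK, hbK, b', hb', hbb⟩ := Submodule.exists_add_mem_mem_orthogonal (K := K) (p (g 0))
    have hb'M : b' ∈ M := by
      refine ⟨?_, hb'⟩
      have : b' = p (g 0) - bK := by rw [hbb]; abel
      rw [this]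
      exact Wᗮ.sub_mem (p1 _) hbK.1
    obtain ⟨y0, hy0⟩ := hDsurj (-⟨b', hb'M⟩)
    have hy0' : lin g (y0 : E) - y0 = -b' := by
      rw [← hDapply, hy0]; rfl
    have hy0W : (y0 : E) ∈ Wᗮ := y0.2.1
    have hA : lin g (y0 : E) + p (g 0) = y0 + bK := by
      have : lin g (y0 : E) = y0 - b' := by
        have := hy0'
        rw [sub_eq_iff_eq_add] at this
        rw [this]; abel
      rw [this, hbb]; abel
    have hpg : ∀ h ∈ G, ∀ x, p (h x) = lin h (p x) + p (h 0) := by
      intro h hh x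
      rw [iso_apply h x, map_add, pc h hh]
    -- the flat
    have hIF : IF G y0 (W ⊔ K) := by
      intro h hh u hu
      have h1 : h (y0 + u) - y0 = lin h u + (h y0 - y0) := by rw [iso_add]; abel
      rw [h1]
      apply Submodule.add_mem
      · obtain ⟨w, hw, k, hk, rfl⟩ := Submodule.mem_sup.1 hu
        rw [map_add]
        exact Submodule.add_mem _ (Submodule.mem_sup_left (hW h hh w hw))
          (Submodule.mem_sup_right (hKinv h hh k hk))
      · have h2 : h y0 - y0 = (h y0 - p (h y0)) + (p (h y0) - y0) := by abel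
        rw [h2]
        refine Submodule.add_mem _ (Submodule.mem_sup_left (p2 _)) (Submodule.mem_sup_right ?_)
        -- `z - y0 ∈ K`
        set z := p (h y0) with hz
        have hzW : z ∈ Wᗮ := p1 _
        set τ := g * h * g⁻¹ * h⁻¹ with hτ
        have hτG : τ ∈ G := G.mul_mem (G.mul_mem (G.mul_mem hg hh) (G.inv_mem hg)) (G.inv_mem hh)
        have hτl : lin τ = 1 := by
          rw [hτ, lin_mul', lin_mul', lin_mul', lin_inv', lin_inv', hcm g hg h hh]
          group
        have hτT : TR G (τ 0) := ⟨τ, hτG, fun x => by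
          rw [iso_apply τ x, hτl]; rfl⟩
        have hgh : g (h y0) = h (g y0) + τ 0 := by
          have e1 : g (h y0) = τ (h (g y0)) := by
            have : g * h = τ * (h * g) := by rw [hτ]; group
            exact congrArg (fun e : E ≃ᵢ E => e y0) this
          rw [e1, iso_apply τ, hτl]; rfl
        have hgy : p (g y0) = y0 + bK := by
          rw [hpg g hg, p4 _ hy0W, hA]
        have h3 : lin g z + p (g 0) = z + lin h bK := by
          have e1 : p (g (h y0)) = lin g z + p (g 0) := hpg g hg _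
          have e2 : p (g (h y0)) = p (h (g y0)) := by rw [hgh, map_add, p3 _ (hTW _ hτT), add_zero]
          have e3 : p (h (g y0)) = lin h (p (g y0)) + p (h 0) := hpg h hh _
          have e4 : z = lin h y0 + p (h 0) := by rw [hz, hpg h hh, p4 _ hy0W]
          rw [← e1, e2, e3, hgy, map_add, e4]; abel
        set k := lin h bK - bK with hk
        have hkK : k ∈ K := K.sub_mem (hKinv h hh bK hbK) hbK
        have h4 : lin g (z - y0) - (z - y0) = k := by
          rw [map_sub, hk]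
          have e1 : lin g z = z + lin h bK - p (g 0) := by rw [← h3]; abel
          have e2 : lin g (y0 : E) = y0 + bK - p (g 0) := by rw [← hA]; abel
          rw [e1, e2]; abel
        have h5 : ⟪lin g (z - y0) - (z - y0), k⟫ = 0 := by
          rw [inner_sub_left]
          conv_lhs => enter [1]; rw [← hkK.2]
          rw [LinearIsometryEquiv.inner_map_map, sub_self]
        have h6 : k = 0 := by
          rw [h4, inner_self_eq_zero] at h5
          exact h5
        rw [h6] at h4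
        exact ⟨Wᗮ.sub_mem hzW hy0W, sub_eq_zero.1 h4⟩
    have htop := hmin _ _ hIF
    intro v hv
    have h1 : v ∈ W ⊔ K := by rw [htop]; exact Submodule.mem_top
    obtain ⟨w, hw, k, hk, hwk⟩ := Submodule.mem_sup.1 h1
    have h2 : w ∈ Wᗮ := by
      have : w = v - k := by rw [← hwk]; abel
      rw [this]
      exact Wᗮ.sub_mem hv hk.1
    have h3 : w = 0 := by
      have := Submodule.inner_right_of_mem_orthogonal hw h2
      rwa [inner_self_eq_zero] at this
    rw [← hwk, h3, zero_add]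
    exact hk.2
  -- Step 2
  have step2 : ∀ g ∈ G, g 0 ∈ W := by
    intro g hg
    obtain ⟨m, hm, hmW⟩ := pow_lin {t | TR G t} (TR_fin hG) (fun t ht => TR_conj hg ht) W (le_refl _)
    have hgm : g ^ m ∈ G := G.pow_mem hg m
    have hlin : ∀ v, lin (g ^ m) v = v := by
      intro v
      have h1 : v = p v + (v - p v) := by abel
      conv_lhs => rw [h1]
      rw [map_add, step1 _ hgm _ (p1 v), hmW _ (p2 v)]
      abel
    have hTR : TR G ((g ^ m) 0) := ⟨g ^ m, hgm, fun x => by rw [iso_apply (g ^ m) x, hlin]⟩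
    have h1 : p ((g ^ m) 0) = 0 := p3 _ (hTW _ hTR)
    have h2 : ∀ k : ℕ, p ((g ^ k) 0) = (k : ℝ) • p (g 0) := by
      intro k
      induction k with
      | zero =>
        have : ((g ^ 0 : E ≃ᵢ E)) 0 = 0 := by rw [pow_zero]; rfl
        rw [this, map_zero]; simp
      | succ k ih =>
        have e1 : (g ^ (k + 1)) 0 = g ((g ^ k) 0) := by rw [pow_succ']; rfl
        rw [e1, iso_apply g, map_add, pc g hg, step1 g hg _ (p1 _), ih]
        push_cast
        rw [add_smul, one_smul]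
    rw [h2 m] at h1
    have hm0 : (m : ℝ) ≠ 0 := by
      have : m ≠ 0 := by omega
      exact_mod_cast this
    have h3 : p (g 0) = 0 := (smul_eq_zero.1 h1).resolve_left hm0
    have h4 := p2 (g 0)
    rwa [h3, sub_zero] at h4
  apply hmin 0
  intro g hg w hw
  have : g (0 + w) - 0 = lin g w + g 0 := by rw [zero_add, sub_zero, iso_apply g w]
  rw [this]
  exact W.add_mem (hW g hg w hw) (step2 g hg)

/-- a discrete group with commuting rotational parts: an invariant flat spanned by translations -/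
theorem flat_of_comm {G : Subgroup (E ≃ᵢ E)} (hG : PD G) (hcm : ∀ g ∈ G, ∀ h ∈ G, lin g * lin h = lin h * lin g) :
    ∃ (a : E) (U : Submodule ℝ E), IF G a U ∧
      U ≤ Submodule.span ℝ {t | t ∈ U ∧ ∃ g ∈ G, ∀ u ∈ U, g (a + u) = a + u + t} := by
  classical
  have hex : ∃ n : ℕ, ∃ (a : E) (U : Submodule ℝ E), IF G a U ∧ Module.finrank ℝ U = n :=
    ⟨_, 0, ⊤, fun _ _ _ _ => Submodule.mem_top, rfl⟩
  obtain ⟨a, U, hIF, hU⟩ := Nat.find_spec hex
  have hminU : ∀ (b : E) (V : Submodule ℝ E), IF G b V → Module.finrank ℝ U ≤ Module.finrank ℝ V := by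
    intro b V hV
    rw [hU]
    exact Nat.find_min' hex ⟨b, V, hV, rfl⟩
  refine ⟨a, U, hIF, ?_⟩
  have hspan := span_of_min (G := (⊤ : Subgroup G).map (fa G a U hIF)) (PD_fa hIF hG) (by
    rintro _ ⟨g, _, rfl⟩ _ ⟨h, _, rfl⟩
    ext u
    apply congrArg
    apply Subtype.ext
    change ((lin (fa G a U hIF g) (lin (fa G a U hIF h) u) : U) : E) =
      ((lin (fa G a U hIF h) (lin (fa G a U hIF g) u) : U) : E)
    rw [lin_fa, lin_fa, lin_fa, lin_fa]
    exact congrArg (fun A : E ≃ₗᵢ[ℝ] E => A (u : E)) (hcm g g.2 h h.2)) (by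
    intro b V hV
    have h1 : IF G (a + b) (V.map U.subtype) := by
      rintro g hg _ ⟨v, hv, rfl⟩
      have h2 := hV (fa G a U hIF ⟨g, hg⟩) ⟨⟨g, hg⟩, Subgroup.mem_top _, rfl⟩ v hv
      refine ⟨_, h2, ?_⟩
      change (((fa G a U hIF ⟨g, hg⟩ (b + v) : U) : E)) - (b : E) = g (a + b + v) - (a + b)
      rw [fa_apply, Submodule.coe_add, add_assoc]
      abel
    have h2 := hminU _ _ h1
    rw [Submodule.finrank_map_subtype_eq] at h2
    exact Submodule.eq_top_of_finrank_eq (le_antisymm (Submodule.finrank_le V) h2))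
  intro u hu
  have h1 : (⟨u, hu⟩ : U) ∈ Submodule.span ℝ {t | TR ((⊤ : Subgroup G).map (fa G a U hIF)) t} := by
    rw [hspan]; exact Submodule.mem_top
  have h2 : u ∈ (Submodule.span ℝ {t | TR ((⊤ : Subgroup G).map (fa G a U hIF)) t}).map U.subtype :=
    ⟨⟨u, hu⟩, h1, rfl⟩
  rw [← Submodule.span_image] at h2
  refine Submodule.span_mono ?_ h2
  rintro _ ⟨t, ⟨k, ⟨g, _, rfl⟩, hk⟩, rfl⟩
  refine ⟨t.2, g, g.2, fun v hv => ?_⟩
  have h3 := congrArg (fun x : U => (x : E)) (hk ⟨v, hv⟩)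
  rw [fa_apply, Submodule.coe_add] at h3
  change (g : E ≃ᵢ E) (a + v) = a + v + (t : E)
  rw [sub_eq_iff_eq_add] at h3
  rw [h3]
  change v + (t : E) + a = _
  abel

end Pool.MP_db1ca7_gt
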