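import Pool.Agent.Lib_MP_db1ca7_fl.Flat

/-!
# MP_db1ca7_gt: the two bounds on an invariant flat
-/

set_option autoImplicit false
set_option linter.unusedSectionVars false

namespace Pool.MP_db1ca7_gt

open scoped RealInnerProductSpace

theorem subgroupOf_map {X : Type} [Group X] {G F : Subgroup X} (hF : F ≤ G) :
    (F.subgroupOf G).map G.subtype = F := by
  rw [Subgroup.subgroupOf_map_subtype]
  exact inf_eq_left.2 hF

theorem MF.subgroupOf {X : Type} [Group X] {G F : Subgroup X} (hF : MF G F) :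
    MF (⊤ : Subgroup G) (F.subgroupOf G) := by
  refine ⟨le_top, ?_, ?_⟩
  · have h1 : ((F : Subgroup X) : Set X).Finite := by
      have := hF.fin
      exact Set.toFinite _
    have h2 : ((F.subgroupOf G : Subgroup G) : Set G).Finite := by
      refine Set.Finite.of_finite_image (f := fun g : G => (g : X)) (h1.subset ?_)
        Subtype.val_injective.injOn
      rintro _ ⟨g, hg, rfl⟩
      exact hg
    exact h2
  · intro K _ hK hle
    have h1 : K.map G.subtype = F := by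
      apply hF.max
      · rintro _ ⟨g, _, rfl⟩
        exact g.2
      · have h3 : ((K : Subgroup G) : Set G).Finite := Set.toFinite _
        have h4 : ((K.map G.subtype : Subgroup X) : Set X).Finite := by
          rw [Subgroup.coe_map]; exact h3.image _
        exact h4
      · rw [← subgroupOf_map hF.le]
        exact Subgroup.map_mono hle
    apply Subgroup.map_injective G.subtype_injective
    rw [h1, subgroupOf_map hF.le]

variable {E : Type} [NormedAddCommGroup E] [InnerProductSpace ℝ E] [FiniteDimensional ℝ E]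

/-- THE KRAFT INEQUALITY on an invariant flat -/
theorem kraft_flat {G : Subgroup (E ≃ᵢ E)} (hG : PD G) {a : E} {U : Submodule ℝ E} (h : IF G a U)
    (hC : ∃ D : ℝ, ∀ u ∈ U, ∃ g ∈ G, ‖g a - (a + u)‖ ≤ D) {m : ℕ} (F : Fin m → Subgroup (E ≃ᵢ E))
    (hF : ∀ i, MF G (F i)) (hnc : ∀ i j, i ≠ j → ∀ γ ∈ G, cj γ (F i) ≠ F j)
    (hcomp : ∀ i j, i ≠ j → ∀ γ ∈ G, ∀ g ∈ cj γ (F j), ∀ v ∈ U, v ∈ Dr (F i) → lin g v ∈ Dr (F i)) :
    ∑ i, 2 ^ Module.finrank ℝ (U ⊓ Dr (F i) : Submodule ℝ E) ≤ 2 ^ Module.finrank ℝ U := by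
  classical
  let _ : MeasurableSpace U := borel U
  have : BorelSpace U := ⟨rfl⟩
  have hCC : CC ((⊤ : Subgroup G).map (fa G a U h)) := by
    obtain ⟨D, hD⟩ := hC
    refine ⟨D, fun z => ?_⟩
    obtain ⟨g, hg, hgD⟩ := hD z z.2
    refine ⟨fa G a U h ⟨g, hg⟩, ⟨⟨g, hg⟩, Subgroup.mem_top _, rfl⟩, ?_⟩
    have h1 : (((fa G a U h ⟨g, hg⟩ 0 - z : U)) : E) = g a - (a + z) := by
      rw [Submodule.coe_sub, fa_apply]
      simp only [Submodule.coe_zero, add_zero]
      abel
    change ‖((fa G a U h ⟨g, hg⟩ 0 - z : U) : E)‖ ≤ D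
    rw [h1]
    exact hgD
  have hmem : ∀ i, (((F i).subgroupOf G).map G.subtype) = F i := fun i => subgroupOf_map (hF i).le
  have hk := kraft (PD_fa h hG) hCC (fun i => ((F i).subgroupOf G).map (fa G a U h))
    (fun i => (hF i).subgroupOf.map (ker_fa h hG)) (by
      intro i j hij
      apply not_conj (ker_fa h hG) (hF i).subgroupOf (hF j).subgroupOf
      intro γ hγ
      apply hnc i j hij γ γ.2
      have := congrArg (Subgroup.map G.subtype) hγ
      rw [map_cj, hmem, hmem] at this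
      exact this) (by
      intro i j hij γ' hγ' g' hg' v hv
      obtain ⟨γ, _, rfl⟩ := hγ'
      rw [← map_cj] at hg'
      obtain ⟨g, hg, rfl⟩ := hg'
      rw [Dr_fa h, hmem] at hv ⊢
      rw [lin_fa h]
      apply hcomp i j hij γ γ.2 g _ v v.2 hv
      have h1 : (g : E ≃ᵢ E) ∈ (cj γ ((F j).subgroupOf G)).map G.subtype := ⟨g, hg, rfl⟩
      rw [map_cj, hmem] at h1
      exact h1)
  calc ∑ i, 2 ^ Module.finrank ℝ (U ⊓ Dr (F i) : Submodule ℝ E)
      = ∑ i, 2 ^ Module.finrank ℝ (Dr (((F i).subgroupOf G).map (fa G a U h))) := by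
        apply Finset.sum_congr rfl
        intro i _
        rw [finrank_Dr_fa h, hmem]
    _ ≤ _ := hk

/-- the Kraft inequality with the fixed sets in the whole space -/
theorem kraft_flat_full {G : Subgroup (E ≃ᵢ E)} (hG : PD G) {a : E} {U : Submodule ℝ E} (h : IF G a U)
    (hC : ∃ D : ℝ, ∀ u ∈ U, ∃ g ∈ G, ‖g a - (a + u)‖ ≤ D) {m : ℕ} (F : Fin m → Subgroup (E ≃ᵢ E))
    (hF : ∀ i, MF G (F i)) (hnc : ∀ i j, i ≠ j → ∀ γ ∈ G, cj γ (F i) ≠ F j)
    (hcomp : ∀ i j, i ≠ j → ∀ γ ∈ G, ∀ g ∈ cj γ (F j), ∀ v ∈ U, v ∈ Dr (F i) → lin g v ∈ Dr (F i)) :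
    ∑ i, 2 ^ Module.finrank ℝ (Dr (F i)) ≤ 2 ^ Module.finrank ℝ E := by
  have h1 := kraft_flat hG h hC F hF hnc hcomp
  obtain ⟨c, hc⟩ := Nat.exists_eq_add_of_le (Submodule.finrank_le U)
  have h2 : ∀ i, Module.finrank ℝ (Dr (F i)) ≤ Module.finrank ℝ (U ⊓ Dr (F i) : Submodule ℝ E) + c := by
    intro i
    have h3 := Submodule.finrank_sup_add_finrank_inf_eq U (Dr (F i))
    have h4 : Module.finrank ℝ (U ⊔ Dr (F i) : Submodule ℝ E) ≤ Module.finrank ℝ E := Submodule.finrank_le _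
    omega
  calc ∑ i, 2 ^ Module.finrank ℝ (Dr (F i))
      ≤ ∑ i, 2 ^ Module.finrank ℝ (U ⊓ Dr (F i) : Submodule ℝ E) * 2 ^ c := by
        apply Finset.sum_le_sum
        intro i _
        rw [← pow_add]
        exact Nat.pow_le_pow_right (by norm_num) (h2 i)
    _ = (∑ i, 2 ^ Module.finrank ℝ (U ⊓ Dr (F i) : Submodule ℝ E)) * 2 ^ c := by rw [Finset.sum_mul]
    _ ≤ 2 ^ Module.finrank ℝ U * 2 ^ c := Nat.mul_le_mul_right _ h1
    _ = 2 ^ Module.finrank ℝ E := by rw [← pow_add, hc]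

/-- THE BOUND on an invariant flat with a good decomposition -/
theorem bound_flat {G : Subgroup (E ≃ᵢ E)} (hG : PD G) {a : E} {U : Submodule ℝ E} (h : IF G a U) {r : ℕ}
    (V : Fin r → Submodule ℝ E) (hind : iSupIndep V) (hsup : ⨆ j, V j = U)
    (hinv : ∀ g ∈ G, ∀ j, ∀ v ∈ V j, lin g v ∈ V j)
    (hspan : ∀ j, V j ≤ Submodule.span ℝ {t | t ∈ V j ∧ ∃ g ∈ G, ∀ u ∈ U, g (a + u) = a + u + t})
    (hJ : ∀ j, JJ G (V j)) : NB G (2 ^ Module.finrank ℝ U) := by
  classical
  have hVU : ∀ j, V j ≤ U := fun j => hsup ▸ le_iSup V j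
  apply NB_top
  apply NB_ker (ker_fa h hG)
  have hmapc : ∀ j, ((V j).comap U.subtype).map U.subtype = V j := by
    intro j
    rw [Submodule.map_comap_subtype, inf_eq_right.2 (hVU j)]
  refine bound ((⊤ : Subgroup G).map (fa G a U h)) (PD_fa h hG) (fun j => (V j).comap U.subtype) ?_ ?_ ?_ ?_
  · apply DirectSum.isInternal_submodule_of_iSupIndep_of_iSup_eq_top
    · rw [iSupIndep_def]
      intro i
      rw [Submodule.disjoint_def]
      intro x hx hx'
      have h1 := (Submodule.disjoint_def.1 (iSupIndep_def.1 hind i)) x hx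
      apply Subtype.ext
      apply h1
      have h2 : (x : E) ∈ (⨆ j, ⨆ (_ : j ≠ i), (V j).comap U.subtype).map U.subtype := ⟨x, hx', rfl⟩
      rw [Submodule.map_iSup] at h2
      simp_rw [Submodule.map_iSup, hmapc] at h2
      exact h2
    · apply Submodule.map_injective_of_injective U.subtype_injective
      rw [Submodule.map_iSup]
      simp_rw [hmapc]
      rw [hsup, Submodule.map_subtype_top]
  · rintro _ ⟨g, _, rfl⟩ j v hv
    change ((lin (fa G a U h g) v : U) : E) ∈ V j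
    rw [lin_fa h]
    exact hinv g g.2 j v hv
  · intro j v hv
    set S : Set E := {t | t ∈ V j ∧ ∃ g ∈ G, ∀ u ∈ U, g (a + u) = a + u + t} with hS
    set S' : Set U := {t : U | t ∈ (V j).comap U.subtype ∧ TR ((⊤ : Subgroup G).map (fa G a U h)) t} with hS'
    have h1 : S ⊆ U.subtype '' S' := by
      rintro t ⟨ht, g, hg, hgt⟩
      refine ⟨⟨t, hVU j ht⟩, ⟨ht, fa G a U h ⟨g, hg⟩, ⟨⟨g, hg⟩, Subgroup.mem_top _, rfl⟩, ?_⟩, rfl⟩
      intro x
      apply Subtype.ext
      rw [fa_apply]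
      change g (a + x) - a = x + t
      rw [hgt x x.2]; abel
    have h2 : (v : E) ∈ Submodule.span ℝ (U.subtype '' S') := Submodule.span_mono h1 (hspan j hv)
    rw [Submodule.span_image] at h2
    obtain ⟨w, hw, hwv⟩ := h2
    have : w = v := Subtype.ext hwv
    rw [← this]
    exact hw
  · intro j H hH g' hg'
    obtain ⟨g, _, rfl⟩ := hg'
    set H' : Subgroup G := H.comap (fa G a U h) with hH'
    have hHm : H'.map (fa G a U h) = H := by
      rw [hH', Subgroup.map_comap_eq_self]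
      rw [MonoidHom.range_eq_map]
      exact hH
    have hDr : ∀ v : U, v ∈ Dr H ↔ (v : E) ∈ Dr (H'.map G.subtype) := by
      intro v
      rw [← hHm, Dr_fa h]
    have hle : H'.map G.subtype ≤ G := by
      rintro _ ⟨x, _, rfl⟩
      exact x.2
    rcases hJ j _ hle g g.2 with h4 | h4
    · left
      intro v hv hvH
      rw [hDr] at hvH ⊢
      rw [lin_fa h]
      exact h4 v hv hvH
    · right
      intro x hx
      obtain ⟨u, hu, hu', w, hw, hw', hxx⟩ := h4 x hx
      refine ⟨⟨u, hVU j hu⟩, hu, (hDr _).2 hu', ⟨w, hVU j hw⟩, hw, (hDr _).2 hw', ?_⟩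
      apply Subtype.ext
      rw [Submodule.coe_add, lin_fa h]
      exact hxx

end Pool.MP_db1ca7_gt
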