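import Pool.Agent.Lib_MP_db1ca7_fl.Bie2
import Pool.Agent.Lib_MP_db1ca7_fl.Bie3
import Pool.Agent.Lib_MP_db1ca7_fl.Main

/-!
# MP_db1ca7_gt: a discrete group acts cocompactly on an invariant flat
-/

set_option autoImplicit false
set_option linter.unusedSectionVars false

namespace Pool.MP_db1ca7_gt

open scoped RealInnerProductSpace

variable {E : Type} [NormedAddCommGroup E] [InnerProductSpace ℝ E] [FiniteDimensional ℝ E]

/-- the translations of a flat -/
def TF (G : Subgroup (E ≃ᵢ E)) (a : E) (U : Submodule ℝ E) : Set E :=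
  {t | t ∈ U ∧ ∃ g ∈ G, ∀ u ∈ U, g (a + u) = a + u + t}

theorem TF_fin {G : Subgroup (E ≃ᵢ E)} (hG : PD G) (a : E) (U : Submodule ℝ E) (R : ℝ) :
    {t | t ∈ TF G a U ∧ ‖t‖ ≤ R}.Finite := by
  refine ((hG (R + 2 * ‖a‖)).image fun g => g a - a).subset ?_
  rintro t ⟨⟨_, g, hg, hgt⟩, ht⟩
  have h0 : g a = a + t := by
    have := hgt 0 U.zero_mem
    rwa [add_zero] at this
  refine ⟨g, ⟨hg, ?_⟩, by change g a - a = t; rw [h0]; abel⟩
  have h1 : g 0 = (g 0 - g a) + t + a := by rw [h0]; abel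
  have h2 : ‖g 0 - g a‖ = ‖a‖ := by rw [iso_norm, zero_sub, norm_neg]
  calc ‖g 0‖ = ‖(g 0 - g a) + t + a‖ := by rw [← h1]
    _ ≤ ‖g 0 - g a‖ + ‖t‖ + ‖a‖ := norm_add₃_le
    _ ≤ R + 2 * ‖a‖ := by rw [h2]; linarith

theorem TF_lin {G : Subgroup (E ≃ᵢ E)} {a : E} {U : Submodule ℝ E} (h : IF G a U) {g : E ≃ᵢ E} (hg : g ∈ G)
    {t : E} (ht : t ∈ TF G a U) : lin g t ∈ TF G a U := by
  obtain ⟨htU, k, hk, hkt⟩ := ht
  refine ⟨h.lin_mem hg htU, g * k * g⁻¹, G.mul_mem (G.mul_mem hg hk) (G.inv_mem hg), fun u hu => ?_⟩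
  change g (k (g⁻¹ (a + u))) = a + u + lin g t
  have h1 := h g⁻¹ (G.inv_mem hg) u hu
  have h2 : g⁻¹ (a + u) = a + (g⁻¹ (a + u) - a) := by abel
  have h3 : k (g⁻¹ (a + u)) = g⁻¹ (a + u) + t := by
    conv_lhs => rw [h2, hkt _ h1]
    abel
  rw [h3, iso_add]
  have h4 : g (g⁻¹ (a + u)) = a + u := IsometryEquiv.apply_symm_apply g _
  rw [h4]

theorem bdd_zero {b c : E} {R : ℝ} (h : ∀ k : ℕ, ‖b + (k : ℝ) • c‖ ≤ R) : c = 0 := by
  by_contra hc
  have hc' : 0 < ‖c‖ := norm_pos_iff.2 hc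
  obtain ⟨k, hk⟩ := exists_nat_gt ((R + ‖b‖) / ‖c‖)
  rw [div_lt_iff₀ hc'] at hk
  have h1 : (k : ℝ) * ‖c‖ ≤ R + ‖b‖ := by
    have h2 : (k : ℝ) • c = (b + (k : ℝ) • c) - b := by abel
    calc (k : ℝ) * ‖c‖ = ‖(k : ℝ) • c‖ := by rw [norm_smul, Real.norm_of_nonneg (Nat.cast_nonneg k)]
      _ = ‖(b + (k : ℝ) • c) - b‖ := by rw [← h2]
      _ ≤ ‖b + (k : ℝ) • c‖ + ‖b‖ := norm_sub_le _ _
      _ ≤ R + ‖b‖ := by linarith [h k]
  linarith

/-- the directions of the flat are preserved -/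
theorem lin_TF {G H : Subgroup (E ≃ᵢ E)} (hH : PD H) (hn : ∀ γ ∈ G, ∀ g ∈ H, γ * g * γ⁻¹ ∈ H) {a : E} {U : Submodule ℝ E}
    (h : IF H a U) (hU : U ≤ Submodule.span ℝ (TF H a U)) {γ : E ≃ᵢ E} (hγ : γ ∈ G) {t : E} (ht : t ∈ TF H a U) :
    lin γ t ∈ U := by
  obtain ⟨htU, g, hg, hgt⟩ := ht
  set g' := γ * g * γ⁻¹ with hg'
  have hg'H : g' ∈ H := hn γ hγ g hg
  obtain ⟨m, hm, hmU⟩ := pow_lin (g := g') (TF H a U) (TF_fin hH a U) (fun t ht => TF_lin h hg'H ht) U hU
  set f := g' ^ m with hf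
  have hfH : f ∈ H := H.pow_mem hg'H m
  set s := f a - a with hs
  have hsU : s ∈ U := by
    have := h f hfH 0 U.zero_mem
    rwa [add_zero] at this
  have h1 : ∀ k : ℕ, (f ^ k) a = a + (k : ℝ) • s := by
    intro k
    induction k with
    | zero => rw [pow_zero]; simp
    | succ k ih =>
      have e1 : (f ^ (k + 1)) a = f ((f ^ k) a) := by rw [pow_succ']; rfl
      rw [e1, ih, iso_add, hmU _ (U.smul_mem _ hsU)]
      push_cast
      rw [add_smul, one_smul, hs]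
      abel
  have h2 : ∀ j : ℕ, (g' ^ j) (γ a) = γ (a + (j : ℝ) • t) := by
    intro j
    induction j with
    | zero => rw [pow_zero]; simp
    | succ j ih =>
      have e1 : (g' ^ (j + 1)) (γ a) = g' ((g' ^ j) (γ a)) := by rw [pow_succ']; rfl
      rw [e1, ih]
      have e2 : g' (γ (a + (j : ℝ) • t)) = γ (g (a + (j : ℝ) • t)) := by
        change γ (g (γ⁻¹ (γ (a + (j : ℝ) • t)))) = _
        have : γ⁻¹ (γ (a + (j : ℝ) • t)) = a + (j : ℝ) • t := IsometryEquiv.symm_apply_apply γ _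
        rw [this]
      rw [e2, hgt _ (U.smul_mem _ htU)]
      congr 1
      push_cast
      rw [add_smul, one_smul, add_assoc]
  have h3 : s - (m : ℝ) • lin γ t = 0 := by
    refine bdd_zero (b := a - γ a) (R := ‖a - γ a‖) (fun k => ?_)
    have e1 : (f ^ k) (γ a) = γ a + ((m * k : ℕ) : ℝ) • lin γ t := by
      rw [hf, ← pow_mul, h2, iso_add, map_smul]
    have e2 : a - γ a + (k : ℝ) • (s - (m : ℝ) • lin γ t) = (f ^ k) a - (f ^ k) (γ a) := by
      rw [h1, e1]
      push_cast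
      rw [smul_sub, smul_smul, mul_comm (k : ℝ) (m : ℝ)]
      abel
    rw [e2, iso_norm]
  have hm0 : (m : ℝ) ≠ 0 := by
    have : m ≠ 0 := by omega
    exact_mod_cast this
  have h4 : lin γ t = (m : ℝ)⁻¹ • s := by
    rw [sub_eq_zero.1 h3, smul_smul, inv_mul_cancel₀ hm0, one_smul]
  rw [h4]
  exact U.smul_mem _ hsU

/-- a discrete group preserves a flat, the directions of which are spanned by translations -/
theorem bieberbach {G : Subgroup (E ≃ᵢ E)} (hG : PD G) :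
    ∃ (c : E) (U : Submodule ℝ E), IF G c U ∧ U ≤ Submodule.span ℝ (TF G c U) := by
  classical
  have hH : PD (G1 G) := PD.mono (G1_le G) hG
  obtain ⟨a, U, hIF, hU⟩ := flat_of_comm hH (G1_comm hG)
  have hU' : U ≤ Submodule.span ℝ (TF (G1 G) a U) := hU
  have hlin : ∀ γ ∈ G, ∀ u ∈ U, lin γ u ∈ U := by
    intro γ hγ u hu
    have h1 : U ≤ U.comap (lin γ).toLinearEquiv.toLinearMap := by
      refine hU'.trans ?_
      rw [Submodule.span_le]
      intro t ht
      exact lin_TF hH (fun γ hγ g hg => G1_conj hγ hg) hIF hU' hγ ht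
    exact h1 hu
  obtain ⟨p, p1, p2, p3, p4⟩ := exists_orth U
  have pc : ∀ g ∈ G, ∀ x, p (lin g x) = lin g (p x) := fun g hg x => p_comm hlin p1 p2 p3 p4 hg x
  have hpg : ∀ h ∈ G, ∀ x, p (h x) = lin h (p x) + p (h 0) := by
    intro h hh x
    rw [iso_apply h x, map_add, pc h hh]
  have hpp : ∀ x, p (p x) = p x := fun x => p4 _ (p1 x)
  have hpg' : ∀ h ∈ G, ∀ x, p (h (p x)) = p (h x) := by
    intro h hh x
    rw [hpg h hh, hpg h hh x, hpp]
  obtain ⟨T, hT, hTG, hTc⟩ := G1_cover G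
  set O : Finset E := hT.toFinset.image (fun t => p (t a)) with hO
  have hmemO : ∀ γ ∈ G, p (γ a) ∈ O := by
    intro γ hγ
    obtain ⟨t, ht, htγ⟩ := hTc γ hγ
    refine Finset.mem_image.2 ⟨t, hT.mem_toFinset.2 ht, ?_⟩
    have h1 : γ a = t ((t⁻¹ * γ) a) := by
      change γ a = t (t⁻¹ (γ a))
      exact (IsometryEquiv.apply_symm_apply t _).symm
    have h2 : p ((t⁻¹ * γ) a) = p a := by
      have h3 := hIF _ htγ 0 U.zero_mem
      rw [add_zero] at h3
      have h4 := p3 _ h3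
      rw [map_sub] at h4
      exact sub_eq_zero.1 h4
    rw [h1, ← hpg' t (hTG t ht) ((t⁻¹ * γ) a), h2, hpg' t (hTG t ht)]
  have hOp : ∀ y ∈ O, p y = y := by
    intro y hy
    obtain ⟨t, _, rfl⟩ := Finset.mem_image.1 hy
    exact hpp _
  have hOne : O.Nonempty := ⟨_, hmemO 1 G.one_mem⟩
  have hinv : ∀ γ ∈ G, ∀ y ∈ O, p (γ y) ∈ O := by
    intro γ hγ y hy
    obtain ⟨t, ht, rfl⟩ := Finset.mem_image.1 hy
    rw [hpg' γ hγ]
    exact hmemO (γ * t) (G.mul_mem hγ (hTG t (hT.mem_toFinset.1 ht)))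
  have hinj : ∀ γ ∈ G, ∀ y ∈ O, ∀ y' ∈ O, p (γ y) = p (γ y') → y = y' := by
    intro γ hγ y hy y' hy' he
    rw [hpg γ hγ y, hpg γ hγ y', hOp y hy, hOp y' hy'] at he
    exact (lin γ).injective (add_right_cancel he)
  have himg : ∀ γ ∈ G, O.image (fun y => p (γ y)) = O := by
    intro γ hγ
    apply Finset.eq_of_subset_of_card_le
    · intro z hz
      obtain ⟨y, hy, rfl⟩ := Finset.mem_image.1 hz
      exact hinv γ hγ y hy
    · have hio : Set.InjOn (fun y => p (γ y)) (O : Set E) := fun y hy y' hy' he => hinj γ hγ y hy y' hy' he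
      exact (Finset.card_image_of_injOn hio).ge
  have hN : (O.card : ℝ) ≠ 0 := by
    have := hOne.card_pos
    exact_mod_cast this.ne'
  set S := ∑ y ∈ O, y with hS
  have hSum : ∀ γ ∈ G, lin γ S + (O.card : ℝ) • p (γ 0) = S := by
    intro γ hγ
    have h1 : ∑ y ∈ O, p (γ y) = S := by
      have h2 : ∑ z ∈ O.image (fun y => p (γ y)), z = ∑ y ∈ O, p (γ y) :=
        Finset.sum_image fun y hy y' hy' he => hinj γ hγ y hy y' hy' he
      rw [← h2, himg γ hγ]
    conv_rhs => rw [← h1]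
    rw [hS, map_sum, Nat.cast_smul_eq_nsmul, ← Finset.sum_const, ← Finset.sum_add_distrib]
    refine Finset.sum_congr rfl fun y hy => ?_
    rw [hpg γ hγ y, hOp y hy]
  set c := (O.card : ℝ)⁻¹ • S with hc
  have hcfix : ∀ γ ∈ G, lin γ c + p (γ 0) = c := by
    intro γ hγ
    have h1 := congrArg (fun v : E => (O.card : ℝ)⁻¹ • v) (hSum γ hγ)
    simp only [smul_add, smul_smul] at h1
    rw [inv_mul_cancel₀ hN, one_smul, ← map_smul] at h1
    exact h1
  have hpc : p c = c := by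
    rw [hc, map_smul, hS, map_sum]
    congr 1
    exact Finset.sum_congr rfl fun y hy => hOp y hy
  have hcU : ∀ γ ∈ G, γ c - c ∈ U := by
    intro γ hγ
    have h1 := p2 (γ c)
    rwa [hpg γ hγ, hpc, hcfix γ hγ] at h1
  refine ⟨c, U, fun γ hγ u hu => ?_, hU'.trans (Submodule.span_mono ?_)⟩
  · have h1 : γ (c + u) - c = (γ c - c) + lin γ u := by rw [iso_add]; abel
    rw [h1]
    exact U.add_mem (hcU γ hγ) (hlin γ hγ u hu)
  · rintro t ⟨htU, g, hg, hgt⟩
    have hgG := G1_le G hg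
    have hga : g a = a + t := by
      have := hgt 0 U.zero_mem
      rwa [add_zero] at this
    have hgu : ∀ u ∈ U, lin g u = u := by
      intro u hu
      have h1 := hgt u hu
      rw [iso_add, hga] at h1
      have h2 : a + t + lin g u = a + t + u := by rw [h1]; abel
      exact add_left_cancel h2
    have hgc : g c = c + t := by
      have e1 : g c = g a + lin g (c - a) := by
        rw [← iso_add]; congr 1; abel
      have e2 : lin g (c - a) = lin g (c - p a) - (a - p a) := by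
        have e3 : c - a = (c - p a) - (a - p a) := by abel
        conv_lhs => rw [e3]
        rw [map_sub, hgu _ (p2 a)]
      set w := p a - c + lin g (c - p a) with hw
      have e4 : g c = c + t + w := by rw [e1, e2, hga, hw]; abel
      have hw1 : p w = w := by
        rw [hw, map_add, map_sub, pc g hgG, map_sub, hpp, hpc]
      have hw2 : p w = 0 := by
        apply p3
        have e5 : w = (g c - c) - t := by rw [e4]; abel
        rw [e5]
        exact U.sub_mem (hcU g hgG) htU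
      rw [e4, ← hw1, hw2, add_zero]
    refine ⟨htU, g, hgG, fun u hu => ?_⟩
    rw [iso_add, hgc, hgu u hu]
    abel

end Pool.MP_db1ca7_gt
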