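import Pool.Agent.Lib_MP_db1ca7_fl.Main

/-!
# MP_db1ca7_gt: total discontinuity and cocompactness in the form used by the proofs
-/

set_option autoImplicit false
set_option linter.unusedSectionVars false

namespace Pool.MP_db1ca7_gt

variable {E : Type} [NormedAddCommGroup E] [InnerProductSpace ℝ E]

/-- `G` acts totally discontinuously -/
def TotDisc (G : Subgroup (E ≃ᵢ E)) : Prop :=
  ∀ K : Set E, IsCompact K → {g : E ≃ᵢ E | g ∈ G ∧ (g '' K ∩ K).Nonempty}.Finite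

/-- `a + U` is a `G`-invariant flat on which `G` acts cocompactly -/
structure CoFlat (G : Subgroup (E ≃ᵢ E)) (a : E) (U : Submodule ℝ E) : Prop where
  inv : ∀ g ∈ G, ∀ u ∈ U, g (a + u) - a ∈ U
  co : ∃ K : Set E, IsCompact K ∧ ∀ u ∈ U, ∃ g ∈ G, g (a + u) ∈ K

/-- `a + U` is a `G`-invariant flat, `U` is the direct sum of the `V j`, which are invariant under the linear parts of `G`, and `V j` is spanned
by vectors `t` such that some element of `G` acts on `a + U` as the translation by `t` -/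
structure Split (G : Subgroup (E ≃ᵢ E)) (a : E) (U : Submodule ℝ E) {r : ℕ} (V : Fin r → Submodule ℝ E) : Prop where
  inv : ∀ g ∈ G, ∀ u ∈ U, g (a + u) - a ∈ U
  ind : iSupIndep V
  sup : ⨆ j, V j = U
  lin_mem : ∀ g ∈ G, ∀ j, ∀ v ∈ V j, lin g v ∈ V j
  span : ∀ j, V j ≤ Submodule.span ℝ {t | t ∈ V j ∧ ∃ g ∈ G, ∀ u ∈ U, g (a + u) = a + u + t}

/-- `V` is tame for `G`: its dimension is at most two, or the linear parts commute on `V`, or a subgroup of index at most two acts freely on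
the non-zero vectors of `V` (up to the kernel), or for all `H ≤ G` and `g ∈ G` the space of `H`-fixed vectors of `V` is `g`-invariant or spans `V`
together with its image under `g`. -/
def Tame (G : Subgroup (E ≃ᵢ E)) (V : Submodule ℝ E) : Prop :=
  Module.finrank ℝ V ≤ 2 ∨
  (∀ g ∈ G, ∀ h ∈ G, ∀ v ∈ V, lin g (lin h v) = lin h (lin g v)) ∨
  (∃ N : Subgroup (E ≃ᵢ E), (∀ g ∈ G, ∀ h ∈ G, g ∉ N → h ∉ N → g * h ∈ N) ∧
    ∀ g ∈ G, g ∈ N → ∀ v ∈ V, v ≠ 0 → lin g v = v → ∀ w ∈ V, lin g w = w) ∨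
  (∀ H : Subgroup (E ≃ᵢ E), H ≤ G → ∀ g ∈ G,
    (∀ v ∈ V, v ∈ Dr H → lin g v ∈ Dr H) ∨
    ∀ x ∈ V, ∃ u ∈ V, u ∈ Dr H ∧ ∃ w ∈ V, w ∈ Dr H ∧ x = u + lin g w)

variable [FiniteDimensional ℝ E]

theorem TotDisc.PD {G : Subgroup (E ≃ᵢ E)} (h : TotDisc G) : PD G := by
  intro R
  refine (h (Metric.closedBall 0 |R|) (isCompact_closedBall 0 |R|)).subset ?_
  rintro g ⟨hg, hR⟩
  refine ⟨hg, g 0, ⟨0, ?_, rfl⟩, ?_⟩
  · rw [Metric.mem_closedBall, dist_self]; exact abs_nonneg R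
  · rw [mem_closedBall_zero_iff]; exact hR.trans (le_abs_self R)

theorem cocompact_flat {G : Subgroup (E ≃ᵢ E)} {a : E} {U : Submodule ℝ E}
    (h : ∃ K : Set E, IsCompact K ∧ ∀ u ∈ U, ∃ g ∈ G, g (a + u) ∈ K) :
    ∃ D : ℝ, ∀ u ∈ U, ∃ g ∈ G, ‖g a - (a + u)‖ ≤ D := by
  obtain ⟨K, hK, hc⟩ := h
  obtain ⟨R, hR⟩ := hK.isBounded.subset_closedBall a
  refine ⟨R, fun u hu => ?_⟩
  obtain ⟨g, hg, hgK⟩ := hc u hu
  refine ⟨g⁻¹, G.inv_mem hg, ?_⟩
  have h1 : g⁻¹ (g (a + u)) = a + u := IsometryEquiv.symm_apply_apply g _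
  rw [← h1, iso_norm, ← dist_eq_norm, dist_comm]
  exact hR hgK

theorem Tame.JJ {G : Subgroup (E ≃ᵢ E)} {V : Submodule ℝ E} (h : Tame G V) (hV : ∀ g ∈ G, ∀ v ∈ V, lin g v ∈ V) :
    JJ G V := by
  rcases h with h | h | ⟨N, h, h'⟩ | h
  · exact JJ_two hV h
  · exact JJ_comm h
  · exact JJ_free hV N h h'
  · exact h

theorem Split.NB {G : Subgroup (E ≃ᵢ E)} (hG : TotDisc G) {a : E} {U : Submodule ℝ E} {r : ℕ}
    {V : Fin r → Submodule ℝ E} (h : Split G a U V) (hT : ∀ j, Tame G (V j)) : NB G (2 ^ Module.finrank ℝ U) :=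
  bound_flat hG.PD h.inv V h.ind h.sup h.lin_mem h.span fun j => (hT j).JJ fun g hg => h.lin_mem g hg j

end Pool.MP_db1ca7_gt
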