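import Pool.Agent.Lib_MP_db1ca7_fl.Bie4
import Pool.Agent.Lib_MP_db1ca7_fl.Conv

/-!
# MP_db1ca7_gt: the results for all discrete groups
-/

set_option autoImplicit false
set_option linter.unusedSectionVars false

namespace Pool.MP_db1ca7_gt

variable {E : Type} [NormedAddCommGroup E] [InnerProductSpace ℝ E] [FiniteDimensional ℝ E]

theorem coflat_of_span {G : Subgroup (E ≃ᵢ E)} {a : E} {U : Submodule ℝ E} (h : IF G a U)
    (hU : U ≤ Submodule.span ℝ (TF G a U)) : CoFlat G a U := by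
  refine ⟨h, ?_⟩
  set G' := (⊤ : Subgroup G).map (fa G a U h) with hG'
  have hspan : (⊤ : Submodule ℝ U) ≤ Submodule.span ℝ {t : U | t ∈ (⊤ : Submodule ℝ U) ∧ TR G' t} := by
    intro u _
    have h1 : (u : E) ∈ Submodule.span ℝ (Subtype.val '' {t : U | t ∈ (⊤ : Submodule ℝ U) ∧ TR G' t}) := by
      refine Submodule.span_mono ?_ (hU u.2)
      rintro t ⟨htU, g, hg, hgt⟩
      refine ⟨⟨t, htU⟩, ⟨Submodule.mem_top, fa G a U h ⟨g, hg⟩, ⟨⟨g, hg⟩, Subgroup.mem_top _, rfl⟩, fun x => ?_⟩, rfl⟩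
      apply Subtype.ext
      rw [fa_apply, Submodule.coe_add]
      change g (a + x) - a = x + t
      rw [hgt x x.2]
      abel
    have h2 : (Submodule.span ℝ (Subtype.val '' {t : U | t ∈ (⊤ : Submodule ℝ U) ∧ TR G' t}) : Submodule ℝ E) =
        (Submodule.span ℝ {t : U | t ∈ (⊤ : Submodule ℝ U) ∧ TR G' t}).map U.subtype := by
      rw [← Submodule.span_image]; rfl
    rw [h2] at h1
    obtain ⟨u', hu', he⟩ := h1
    have : u' = u := Subtype.ext he
    rw [← this]; exact hu'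
  obtain ⟨D, hD⟩ := cover G' ⊤ hspan
  refine ⟨Metric.closedBall a D, isCompact_closedBall a D, fun u hu => ?_⟩
  obtain ⟨t, _, ⟨k, ⟨g, _, rfl⟩, hk⟩, htD⟩ := hD (-⟨u, hu⟩) Submodule.mem_top
  refine ⟨g, g.2, ?_⟩
  have h1 := congrArg (fun x : U => (x : E)) (hk ⟨u, hu⟩)
  rw [fa_apply, Submodule.coe_add] at h1
  change (g : E ≃ᵢ E) (a + u) - a = u + (t : E) at h1
  rw [Metric.mem_closedBall, dist_eq_norm, h1]
  have h2 : u + (t : E) = ((t - -⟨u, hu⟩ : U) : E) := by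
    rw [Submodule.coe_sub, Submodule.coe_neg]
    change u + (t : E) = (t : E) - -u
    abel
  rw [h2]
  exact htD

theorem exists_coflat {G : Subgroup (E ≃ᵢ E)} (hG : PD G) :
    ∃ (a : E) (U : Submodule ℝ E), CoFlat G a U ∧ Split G a U (fun _ : Fin 1 => U) := by
  obtain ⟨a, U, h, hU⟩ := bieberbach hG
  refine ⟨a, U, coflat_of_span h hU, ?_⟩
  refine ⟨h, iSupIndep_subsingleton _, ?_, fun g hg _ v hv => h.lin_mem hg hv, fun _ => hU⟩
  rw [iSup_const]

theorem Tame.mono {G : Subgroup (E ≃ᵢ E)} (h : Tame G ⊤) {U : Submodule ℝ E} (hU : ∀ g ∈ G, ∀ v ∈ U, lin g v ∈ U) :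
    Tame G U := by
  rcases h with h | h | ⟨N, h, h'⟩ | h
  · left
    exact (Submodule.finrank_mono (le_top : U ≤ ⊤)).trans h
  · right; left
    exact fun g hg k hk v _ => h g hg k hk v Submodule.mem_top
  · right; right; left
    exact ⟨N, h, fun g hg hgN v _ hv0 hgv w _ => h' g hg hgN v Submodule.mem_top hv0 hgv w Submodule.mem_top⟩
  · right; right; right
    intro H hH g hg
    rcases h H hH g hg with h1 | h1
    · left
      exact fun v _ hvH => h1 v Submodule.mem_top hvH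
    · right
      obtain ⟨p, p1, p2, p3, p4⟩ := exists_orth U
      have pc : ∀ k ∈ G, ∀ x, p (lin k x) = lin k (p x) := fun k hk x => p_comm hU p1 p2 p3 p4 hk x
      intro x hx
      obtain ⟨u, _, huH, w, _, hwH, hxuw⟩ := h1 x Submodule.mem_top
      refine ⟨u - p u, p2 u, ?_, w - p w, p2 w, ?_, ?_⟩
      · intro k hk
        rw [map_sub, ← pc k (hH hk), huH k hk]
      · intro k hk
        rw [map_sub, ← pc k (hH hk), hwH k hk]
      · have h2 : p x = 0 := p3 x hx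
        have h3 : p u + lin g (p w) = 0 := by
          rw [← pc g hg, ← map_add, ← hxuw, h2]
        have h4 : u - p u + lin g (w - p w) = (u + lin g w) - (p u + lin g (p w)) := by
          rw [map_sub]; abel
        rw [h4, h3, sub_zero, hxuw]

/-- the Kraft inequality on a flat with cocompact action, and in the whole space -/
theorem kraft_coflat {G : Subgroup (E ≃ᵢ E)} (hG : TotDisc G) {a : E} {U : Submodule ℝ E} (hU : CoFlat G a U)
    {m : ℕ} (F : Fin m → Subgroup (E ≃ᵢ E)) (hF : ∀ i, MF G (F i)) (hnc : ∀ i j, i ≠ j → ∀ γ ∈ G, cj γ (F i) ≠ F j)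
    (hcomp : ∀ i j, i ≠ j → ∀ γ ∈ G, ∀ g ∈ cj γ (F j), ∀ v ∈ U, v ∈ Dr (F i) → lin g v ∈ Dr (F i)) :
    ∑ i, 2 ^ Module.finrank ℝ (U ⊓ Dr (F i) : Submodule ℝ E) ≤ 2 ^ Module.finrank ℝ U ∧
      ∑ i, 2 ^ Module.finrank ℝ (Dr (F i)) ≤ 2 ^ Module.finrank ℝ E :=
  ⟨kraft_flat hG.PD hU.inv (cocompact_flat hU.co) F hF hnc hcomp,
    kraft_flat_full hG.PD hU.inv (cocompact_flat hU.co) F hF hnc hcomp⟩

/-- tame groups -/
theorem bound_tame {G : Subgroup (E ≃ᵢ E)} (hG : TotDisc G) (hT : Tame G ⊤) :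
    (Classes G).encard ≤ 2 ^ Module.finrank ℝ E := by
  obtain ⟨a, U, _, hS⟩ := exists_coflat hG.PD
  have h1 := (hS.NB hG fun _ => hT.mono fun g hg v hv => hS.lin_mem g hg 0 v hv).encard_le
  have h2 : (Classes G).encard ≤ 2 ^ Module.finrank ℝ U := by exact_mod_cast h1
  refine h2.trans ?_
  exact_mod_cast Nat.pow_le_pow_right (by norm_num : 0 < 2) (Submodule.finrank_le U)

end Pool.MP_db1ca7_gt
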