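import Pool.Agent.Lib_MP_db1ca7_fl.Fib

/-!
# MP_db1ca7_gt: rational decompositions of a crystallographic group
-/

set_option autoImplicit false
set_option linter.unusedSectionVars false

namespace Pool.MP_db1ca7_gt

open scoped RealInnerProductSpace

variable {E : Type} [NormedAddCommGroup E] [InnerProductSpace ℝ E] [FiniteDimensional ℝ E]

theorem inv_of_J {G : Subgroup (E ≃ᵢ E)} (hG : PD G)
    (hJ : ∀ H : Subgroup (E ≃ᵢ E), H ≤ G → Finite H → ∀ g ∈ G,
      (∀ v ∈ Dr H, lin g v ∈ Dr H) ∨ ∀ x : E, ∃ u ∈ Dr H, ∃ w ∈ Dr H, x = u + lin g w) :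
    ∀ F, MF G F → ∀ g ∈ G, ∀ v ∈ Dr F, lin g v ∈ Dr F := by
  intro F hF g hg v hv
  rcases hJ F hF.le hF.fin g hg with h | h
  · exact h v hv
  · obtain ⟨a, ha⟩ := Fx_nonempty F hF.fin
    obtain ⟨u, hu, w, hw, hx⟩ := h (g a - a)
    have h1 : a + u ∈ Fx F := add_mem_Fx ha hu
    have h2 : a + u ∈ Fx (cj g F) := by
      have h3 : a + (-w) ∈ Fx F := add_mem_Fx ha ((Dr F).neg_mem hw)
      have h4 : g (a + (-w)) = a + u := by
        rw [iso_add, map_neg]
        have : g a = a + (u + lin g w) := by rw [← hx]; abel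
        rw [this]; abel
      rw [← h4]
      exact map_mem_Fx_cj h3
    have h5 : F = cj g F := MF.eq_of_mem hG hF (hF.cj hg) h1 h2
    rw [h5, mem_Dr_cj, lin_inv_lin]
    exact hv

theorem PD.mono {G G' : Subgroup (E ≃ᵢ E)} (h : G ≤ G') (hG : PD G') : PD G := fun R =>
  (hG R).subset fun _ hg => ⟨h hg.1, hg.2⟩

section act

variable (G : Subgroup (E ≃ᵢ E)) (U : Submodule ℝ E) (q : E →ₗ[ℝ] U) (h0 : ∀ u : U, q u = u)
  (h2 : ∀ g ∈ G, ∀ x, ((q (lin g x) : U) : E) = lin g (q x))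

include h0 h2 in
theorem q_key (g : E ≃ᵢ E) (hg : g ∈ G) (x : E) : q (g (q x : E)) = q (g x) := by
  have h3 : q (g x) - q (g (q x : E)) = 0 := by
    rw [← map_sub, ← lin_sub]
    apply Subtype.ext
    rw [h2 g hg, map_sub, h0, sub_self]
    simp
  exact (sub_eq_zero.1 h3).symm

/-- the action on an invariant subspace with an invariant complement -/
noncomputable def act : G →* (U ≃ᵢ U) where
  toFun g := IsometryEquiv.mk' (fun u => q ((g : E ≃ᵢ E) (u : E))) (fun u => q (((g⁻¹ : G) : E ≃ᵢ E) (u : E)))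
    (fun u => by
      change q ((g : E ≃ᵢ E) (q (((g⁻¹ : G) : E ≃ᵢ E) (u : E)) : E)) = u
      rw [q_key G U q h0 h2 _ g.2]
      have : (g : E ≃ᵢ E) (((g⁻¹ : G) : E ≃ᵢ E) (u : E)) = (u : E) :=
        IsometryEquiv.apply_symm_apply (g : E ≃ᵢ E) _
      rw [this, h0])
    (by
      apply Isometry.of_dist_eq
      intro u v
      rw [dist_eq_norm, dist_eq_norm, ← map_sub, ← lin_sub]
      change ‖((q (lin (g : E ≃ᵢ E) ((u : E) - v)) : U) : E)‖ = ‖((u - v : U) : E)‖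
      rw [h2 _ g.2, ← Submodule.coe_sub, h0, LinearIsometryEquiv.norm_map])
  map_one' := by
    ext u
    change ((q ((1 : E ≃ᵢ E) (u : E)) : U) : E) = u
    have : (1 : E ≃ᵢ E) (u : E) = u := rfl
    rw [this, h0]
  map_mul' := by
    intro g h
    apply IsometryEquiv.ext
    intro u
    change q ((g : E ≃ᵢ E) ((h : E ≃ᵢ E) (u : E))) = q ((g : E ≃ᵢ E) (q ((h : E ≃ᵢ E) (u : E)) : E))
    rw [q_key G U q h0 h2 _ g.2]

theorem act_apply (g : G) (u : U) : act G U q h0 h2 g u = q ((g : E ≃ᵢ E) (u : E)) := rfl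

theorem lin_act (g : G) (u : U) : ((lin (act G U q h0 h2 g) u : U) : E) = lin (g : E ≃ᵢ E) (u : E) := by
  rw [lin_apply, act_apply, act_apply, ← map_sub, ← lin_sub, h2 _ g.2]
  simp only [Submodule.coe_zero, sub_zero]
  rw [h0]

end act

theorem exists_proj {r : ℕ} (V : Fin r → Submodule ℝ E) (hV : DirectSum.IsInternal V) :
    ∃ q : ∀ j, E →ₗ[ℝ] V j, (∀ x, ∑ j, ((q j x : V j) : E) = x) ∧ (∀ j (v : V j), q j v = v) ∧
      ∀ j k, j ≠ k → ∀ v : V k, q j (v : E) = 0 := by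
  classical
  set e : (DirectSum (Fin r) fun j => V j) ≃ₗ[ℝ] E := LinearEquiv.ofBijective (DirectSum.coeLinearMap V) hV with he
  have hlof : ∀ k (v : V k), e.symm (v : E) = DirectSum.lof ℝ (Fin r) (fun j => V j) k v := by
    intro k v
    rw [LinearEquiv.symm_apply_eq, he]
    change _ = DirectSum.coeLinearMap V _
    rw [DirectSum.coeLinearMap_lof]
  refine ⟨fun j => (DirectSum.component ℝ (Fin r) (fun j => V j) j).comp (e.symm : E →ₗ[ℝ] _), ?_, ?_, ?_⟩
  · intro x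
    obtain ⟨y, rfl⟩ := e.surjective x
    simp only [LinearMap.comp_apply, LinearEquiv.coe_coe, LinearEquiv.symm_apply_apply]
    have : (∑ j, (V j).subtype.comp (DirectSum.component ℝ (Fin r) (fun j => V j) j)) = (e : _ →ₗ[ℝ] E) := by
      apply DirectSum.linearMap_ext
      intro k
      ext v
      simp only [LinearMap.comp_apply, LinearMap.sum_apply]
      rw [Finset.sum_eq_single k]
      · rw [DirectSum.component.lof_self]
        change (v : E) = DirectSum.coeLinearMap V _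
        rw [DirectSum.coeLinearMap_lof]
      · intro j _ hjk
        rw [DirectSum.component.of, dif_neg (Ne.symm hjk), map_zero]
      · intro h; exact absurd (Finset.mem_univ k) h
    have h2 := congrArg (fun f => f y) this
    simp only [LinearMap.sum_apply, LinearMap.comp_apply] at h2
    exact h2
  · intro j v
    simp only [LinearMap.comp_apply, LinearEquiv.coe_coe]
    rw [hlof, DirectSum.component.lof_self]
  · intro j k hjk v
    simp only [LinearMap.comp_apply, LinearEquiv.coe_coe]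
    rw [hlof, DirectSum.component.of, dif_neg (Ne.symm hjk)]

theorem q_comm {r : ℕ} (V : Fin r → Submodule ℝ E) (q : ∀ j, E →ₗ[ℝ] V j)
    (h1 : ∀ x, ∑ j, ((q j x : V j) : E) = x) (h2 : ∀ j (v : V j), q j v = v)
    (h3 : ∀ j k, j ≠ k → ∀ v : V k, q j (v : E) = 0) (g : E ≃ᵢ E) (hg : ∀ j, ∀ v ∈ V j, lin g v ∈ V j)
    (j : Fin r) (x : E) : ((q j (lin g x) : V j) : E) = lin g (q j x) := by
  conv_lhs => rw [← h1 x, map_sum, map_sum]
  rw [Finset.sum_eq_single j]
  · have := h2 j ⟨_, hg j _ (q j x).2⟩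
    exact congrArg Subtype.val this
  · intro k _ hkj
    exact h3 j k (Ne.symm hkj) ⟨_, hg k _ (q k x).2⟩
  · intro h; exact absurd (Finset.mem_univ j) h

/-- `t` is a translation of `G` -/
def TR (G : Subgroup (E ≃ᵢ E)) (t : E) : Prop := ∃ g ∈ G, ∀ x, g x = x + t

theorem TR.zero (G : Subgroup (E ≃ᵢ E)) : TR G 0 := ⟨1, G.one_mem, fun x => (add_zero x).symm⟩

theorem TR.add {G : Subgroup (E ≃ᵢ E)} {s t : E} (hs : TR G s) (ht : TR G t) : TR G (s + t) := by
  obtain ⟨g, hg, hgx⟩ := hs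
  obtain ⟨h, hh, hhx⟩ := ht
  refine ⟨h * g, G.mul_mem hh hg, fun x => ?_⟩
  change h (g x) = _
  rw [hgx, hhx, add_assoc]

theorem TR.neg {G : Subgroup (E ≃ᵢ E)} {t : E} (ht : TR G t) : TR G (-t) := by
  obtain ⟨g, hg, hgx⟩ := ht
  refine ⟨g⁻¹, G.inv_mem hg, fun x => ?_⟩
  have h1 : g (x + -t) = x := by rw [hgx]; abel
  have h2 : g⁻¹ (g (x + -t)) = x + -t := IsometryEquiv.symm_apply_apply g _
  rw [h1] at h2
  exact h2

theorem TR.zsmul {G : Subgroup (E ≃ᵢ E)} {t : E} (ht : TR G t) (n : ℤ) : TR G ((n : ℝ) • t) := by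
  have hnat : ∀ m : ℕ, TR G ((m : ℝ) • t) := by
    intro m
    induction m with
    | zero => simpa using TR.zero G
    | succ m ih =>
      have := ih.add ht
      have h2 : ((m + 1 : ℕ) : ℝ) • t = (m : ℝ) • t + t := by
        push_cast
        rw [add_smul, one_smul]
      rw [h2]; exact this
  rcases Int.eq_nat_or_neg n with ⟨m, rfl | rfl⟩
  · exact_mod_cast hnat m
  · have := (hnat m).neg
    have h2 : (((-(m : ℤ) : ℤ) : ℝ)) • t = -((m : ℝ) • t) := by
      push_cast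
      rw [neg_smul]
    rw [h2]; exact this

theorem TR.sum {G : Subgroup (E ≃ᵢ E)} {r : ℕ} (t : Fin r → E) (ht : ∀ j, TR G (t j)) (s : Finset (Fin r)) :
    TR G (∑ j ∈ s, t j) := by
  classical
  induction s using Finset.induction_on with
  | empty => simpa using TR.zero G
  | insert j s hj ih =>
    rw [Finset.sum_insert hj]
    exact (ht j).add ih

theorem cover_finset (G : Subgroup (E ≃ᵢ E)) (U : Submodule ℝ E) (s : Finset E)
    (hs : ∀ t ∈ s, t ∈ U ∧ TR G t) :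
    ∃ D : ℝ, ∀ z ∈ Submodule.span ℝ (s : Set E), ∃ t ∈ U, TR G t ∧ ‖t - z‖ ≤ D := by
  classical
  induction s using Finset.induction_on with
  | empty =>
    refine ⟨0, fun z hz => ⟨0, U.zero_mem, TR.zero G, ?_⟩⟩
    rw [Finset.coe_empty, Submodule.span_empty, Submodule.mem_bot] at hz
    rw [hz]; simp
  | insert b s hb ih =>
    obtain ⟨D, hD⟩ := ih fun t ht => hs t (Finset.mem_insert_of_mem ht)
    obtain ⟨hbU, hbT⟩ := hs b (Finset.mem_insert_self b s)
    refine ⟨D + ‖b‖, fun z hz => ?_⟩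
    rw [Finset.coe_insert, Submodule.mem_span_insert] at hz
    obtain ⟨c, w, hw, rfl⟩ := hz
    obtain ⟨t, htU, htT, htD⟩ := hD w hw
    refine ⟨t + ((⌊c⌋ : ℤ) : ℝ) • b, U.add_mem htU (U.smul_mem _ hbU), htT.add (hbT.zsmul _), ?_⟩
    have h1 : t + ((⌊c⌋ : ℤ) : ℝ) • b - (c • b + w) = (t - w) - (c - ⌊c⌋) • b := by
      rw [sub_smul]; abel
    rw [h1]
    calc ‖(t - w) - (c - ⌊c⌋) • b‖ ≤ ‖t - w‖ + ‖(c - ⌊c⌋) • b‖ := norm_sub_le _ _
      _ ≤ D + 1 * ‖b‖ := by
          rw [norm_smul, Real.norm_eq_abs]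
          have h3 : |c - ⌊c⌋| ≤ 1 := by
            rw [abs_of_nonneg (by linarith [Int.floor_le c])]
            linarith [Int.lt_floor_add_one c]
          gcongr
      _ = D + ‖b‖ := by ring

theorem cover (G : Subgroup (E ≃ᵢ E)) (U : Submodule ℝ E) (hU : U ≤ Submodule.span ℝ {t | t ∈ U ∧ TR G t}) :
    ∃ D : ℝ, ∀ z ∈ U, ∃ t ∈ U, TR G t ∧ ‖t - z‖ ≤ D := by
  have hfg : (Submodule.span ℝ {t | t ∈ U ∧ TR G t}).FG := IsNoetherian.noetherian _
  obtain ⟨s, hs1, hs2⟩ := (Submodule.fg_span_iff_fg_span_finset_subset _).1 hfg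
  obtain ⟨D, hD⟩ := cover_finset G U s fun t ht => hs1 ht
  exact ⟨D, fun z hz => hD z (hs2 ▸ hU hz)⟩

end Pool.MP_db1ca7_gt
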