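import Pool.Agent.Lib_MP_db1ca7_fl.Pack

/-!
# MP_db1ca7_gt: the fibration step
-/

set_option autoImplicit false
set_option linter.unusedSectionVars false

namespace Pool.MP_db1ca7_gt

open scoped RealInnerProductSpace

/-- at most `N` pairwise non-conjugate maximal finite subgroups -/
def NB {X : Type} [Group X] (Δ : Subgroup X) (N : ℕ) : Prop :=
  ∀ (m : ℕ) (F : Fin m → Subgroup X), (∀ i, MF Δ (F i)) →
    (∀ i j, i ≠ j → ∀ γ ∈ Δ, cj γ (F i) ≠ F j) → m ≤ N

theorem NB.finset {X : Type} [Group X] {Δ : Subgroup X} {N : ℕ} (h : NB Δ N) {m : ℕ}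
    (F : Fin m → Subgroup X) (s : Finset (Fin m)) (hF : ∀ i ∈ s, MF Δ (F i))
    (hnc : ∀ i ∈ s, ∀ j ∈ s, i ≠ j → ∀ γ ∈ Δ, cj γ (F i) ≠ F j) : s.card ≤ N := by
  refine h s.card (fun k => F (s.equivFin.symm k)) (fun k => hF _ (s.equivFin.symm k).2) ?_
  intro i j hij
  refine hnc _ (s.equivFin.symm i).2 _ (s.equivFin.symm j).2 ?_
  intro hcon
  exact hij (s.equivFin.symm.injective (Subtype.ext hcon))

variable {E : Type} [NormedAddCommGroup E] [InnerProductSpace ℝ E] [FiniteDimensional ℝ E]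

/-- the orders of the finite subgroups are bounded -/
theorem exists_max {G : Subgroup (E ≃ᵢ E)} (hG : PD G) (hC : CC G) (H : Subgroup (E ≃ᵢ E)) (hH : H ≤ G)
    (hfin : Finite H) : ∃ F, MF G F ∧ H ≤ F := by
  classical
  obtain ⟨D, hD⟩ := hC
  have hB : ∀ K : Subgroup (E ≃ᵢ E), K ≤ G → Finite K → Nat.card K ≤ (hG (2 * D)).toFinset.card := by
    intro K hK hKf
    obtain ⟨x, hx⟩ := Fx_nonempty K hKf
    obtain ⟨g, hg, hgx⟩ := hD x
    have h1 : Nat.card K = Nat.card (cj g⁻¹ K) := by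
      apply Nat.card_congr
      exact (K.equivMapOfInjective _ (MulEquiv.injective (MulAut.conj g⁻¹))).toEquiv
    rw [h1]
    have hfin' := cj_finite g⁻¹ K hKf
    have h2 : ((cj g⁻¹ K : Subgroup (E ≃ᵢ E)) : Set (E ≃ᵢ E)) ⊆ ((hG (2 * D)).toFinset : Set (E ≃ᵢ E)) := by
      intro h hh
      rw [Set.Finite.coe_toFinset]
      have hy : g⁻¹ x ∈ Fx (cj g⁻¹ K) := map_mem_Fx_cj hx
      have hhG : h ∈ G := by
        have : h ∈ cj g⁻¹ K := hh
        rw [mem_cj] at this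
        have h3 := hK this
        have h4 : h = g⁻¹ * (g⁻¹⁻¹ * h * g⁻¹) * g := by group
        rw [h4]
        exact G.mul_mem (G.mul_mem (G.inv_mem hg) h3) hg
      refine ⟨hhG, ?_⟩
      have e1 : ‖g⁻¹ x‖ ≤ D := by
        have : ‖g⁻¹ x‖ = ‖x - g 0‖ := by
          have h5 : g⁻¹ (g 0) = 0 := IsometryEquiv.symm_apply_apply g 0
          rw [← iso_norm g⁻¹ x (g 0), h5, sub_zero]
        rw [this, norm_sub_rev]; exact hgx
      have e2 : ‖h 0 - h (g⁻¹ x)‖ = ‖g⁻¹ x‖ := by rw [iso_norm, zero_sub, norm_neg]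
      rw [hy h hh] at e2
      calc ‖h 0‖ = ‖(h 0 - g⁻¹ x) + g⁻¹ x‖ := by rw [sub_add_cancel]
        _ ≤ ‖h 0 - g⁻¹ x‖ + ‖g⁻¹ x‖ := norm_add_le _ _
        _ ≤ 2 * D := by rw [e2]; linarith
    have h3 : Nat.card (cj g⁻¹ K) = ((cj g⁻¹ K : Subgroup (E ≃ᵢ E)) : Set (E ≃ᵢ E)).ncard := rfl
    rw [h3]
    calc ((cj g⁻¹ K : Subgroup (E ≃ᵢ E)) : Set (E ≃ᵢ E)).ncard
        ≤ ((hG (2 * D)).toFinset : Set (E ≃ᵢ E)).ncard := Set.ncard_le_ncard h2 (Finset.finite_toSet _)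
      _ = (hG (2 * D)).toFinset.card := Set.ncard_coe_finset _
  -- choose a subgroup of maximal order
  set P : ℕ → Prop := fun n => ∃ K : Subgroup (E ≃ᵢ E), K ≤ G ∧ Finite K ∧ H ≤ K ∧ Nat.card K = n with hP
  set b := (hG (2 * D)).toFinset.card with hb
  have hPH : P (Nat.card H) := ⟨H, hH, hfin, le_refl _, rfl⟩
  have hspec : P (Nat.findGreatest P b) :=
    Nat.findGreatest_spec (P := P) (hB H hH hfin) hPH
  obtain ⟨F, hFG, hFf, hHF, hFc⟩ := hspec
  refine ⟨F, ⟨hFG, hFf, ?_⟩, hHF⟩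
  intro F' hF' hF'f hle
  have h1 : Nat.card F' ≤ Nat.findGreatest P b :=
    Nat.le_findGreatest (hB F' hF' hF'f) ⟨F', hF', hF'f, hHF.trans hle, rfl⟩
  rw [← hFc] at h1
  have h2 : ((F' : Subgroup (E ≃ᵢ E)) : Set (E ≃ᵢ E)).ncard ≤ ((F : Subgroup (E ≃ᵢ E)) : Set (E ≃ᵢ E)).ncard := h1
  have h3 : ((F : Subgroup (E ≃ᵢ E)) : Set (E ≃ᵢ E)) = (F' : Set (E ≃ᵢ E)) :=
    Set.eq_of_subset_of_ncard_le hle h2 (Set.toFinite _)
  exact (SetLike.coe_injective h3).symm

theorem map_cj {X Y : Type} [Group X] [Group Y] (ρ : X →* Y) (γ : X) (F : Subgroup X) :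
    (cj γ F).map ρ = cj (ρ γ) (F.map ρ) := by
  ext g
  constructor
  · rintro ⟨f, hf, rfl⟩
    have hf' : γ⁻¹ * f * γ ∈ F := mem_cj.1 hf
    rw [mem_cj]
    exact ⟨_, hf', by rw [map_mul, map_mul, map_inv]⟩
  · intro hg
    rw [mem_cj] at hg
    obtain ⟨f, hf, hfg⟩ := hg
    refine ⟨γ * f * γ⁻¹, conj_mem_cj hf, ?_⟩
    rw [map_mul, map_mul, hfg, map_inv]
    group

/-- the fibration step -/
theorem step {X : Type} [Group X] (ρ : X →* (E ≃ᵢ E)) (Δ : Subgroup X) (hG : PD (Δ.map ρ)) (hC : CC (Δ.map ρ))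
    (hinv : ∀ F, MF (Δ.map ρ) F → ∀ g ∈ Δ.map ρ, ∀ v ∈ Dr F, lin g v ∈ Dr F) (N : ℕ)
    (hst : ∀ x : E, ∀ Δ' : Subgroup X, (∀ γ, γ ∈ Δ' ↔ γ ∈ Δ ∧ ρ γ x = x) → NB Δ' N) :
    NB Δ (N * 2 ^ Module.finrank ℝ E) := by
  classical
  let _ : MeasurableSpace E := borel E
  have : BorelSpace E := ⟨rfl⟩
  intro m F hF hnc
  have hmax : ∀ i, ∃ Fb, MF (Δ.map ρ) Fb ∧ (F i).map ρ ≤ Fb := by
    intro i
    apply exists_max hG hC
    · exact Subgroup.map_mono (hF i).le
    · have h1 := (hF i).fin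
      have h2 : ((F i : Subgroup X) : Set X).Finite := Set.toFinite _
      have h3 : (((F i).map ρ : Subgroup (E ≃ᵢ E)) : Set (E ≃ᵢ E)).Finite := by
        rw [Subgroup.coe_map]; exact h2.image _
      exact h3
  choose Fb hFb hle using hmax
  -- conjugacy of the `Fb i`
  let sd : Setoid (Fin m) :=
    { r := fun i j => ∃ g ∈ Δ.map ρ, cj g (Fb i) = Fb j
      iseqv :=
        { refl := fun i => ⟨1, Subgroup.one_mem _, cj_one _⟩
          symm := by
            rintro i j ⟨g, hg, h⟩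
            refine ⟨g⁻¹, Subgroup.inv_mem _ hg, ?_⟩
            rw [← h, cj_inv_cj]
          trans := by
            rintro i j k ⟨g, hg, h⟩ ⟨g', hg', h'⟩
            refine ⟨g' * g, Subgroup.mul_mem _ hg' hg, ?_⟩
            rw [cj_mul, h, h'] } }
  let rep : Fin m → Fin m := fun i => (Quotient.mk sd i).out
  have hrep : ∀ i, ∃ g ∈ Δ.map ρ, cj g (Fb (rep i)) = Fb i := fun i => Quotient.mk_out (s := sd) i
  have hrep2 : ∀ i j, (∃ g ∈ Δ.map ρ, cj g (Fb (rep i)) = Fb (rep j)) → rep i = rep j := by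
    intro i j hij
    have h1 : Quotient.mk sd (rep i) = Quotient.mk sd (rep j) := Quotient.sound hij
    have h2 : Quotient.mk sd (rep i) = Quotient.mk sd i := Quotient.out_eq _
    have h3 : Quotient.mk sd (rep j) = Quotient.mk sd j := Quotient.out_eq _
    change (Quotient.mk sd i).out = (Quotient.mk sd j).out
    rw [← h2, h1, h3]
  -- number of classes downstairs
  have hcl : (Finset.univ.image rep).card ≤ 2 ^ Module.finrank ℝ E := by
    set s := Finset.univ.image rep with hs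
    have hk := kraft hG hC (fun k : Fin s.card => Fb (s.equivFin.symm k)) (fun k => hFb _) (by
      intro i j hij g hg hcon
      apply hij
      obtain ⟨i', _, hi'⟩ := Finset.mem_image.1 (s.equivFin.symm i).2
      obtain ⟨j', _, hj'⟩ := Finset.mem_image.1 (s.equivFin.symm j).2
      have h1 : rep i' = rep j' := hrep2 i' j' ⟨g, hg, by rw [hi', hj']; exact hcon⟩
      rw [hi', hj'] at h1
      exact s.equivFin.symm.injective (Subtype.ext h1)) (by
      intro i j _ γ hγ g hg v hv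
      exact hinv _ (hFb _) g (((hFb _).cj hγ).le hg) v hv)
    calc s.card = ∑ _k : Fin s.card, 1 := by simp
      _ ≤ ∑ k : Fin s.card, 2 ^ Module.finrank ℝ (Dr (Fb (s.equivFin.symm k))) :=
          Finset.sum_le_sum fun k _ => Nat.one_le_two_pow
      _ ≤ _ := hk
  -- the fibres
  have hfib : ∀ r ∈ Finset.univ.image rep, (Finset.univ.filter fun i => rep i = r).card ≤ N := by
    intro r _
    obtain ⟨x, hx⟩ := Fx_nonempty (Fb r) (hFb r).fin
    let Δ' : Subgroup X :=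
      { carrier := {γ | γ ∈ Δ ∧ ρ γ x = x}
        mul_mem' := by
          rintro a b ⟨ha, ha'⟩ ⟨hb, hb'⟩
          refine ⟨Δ.mul_mem ha hb, ?_⟩
          rw [map_mul]
          change ρ a (ρ b x) = x
          rw [hb', ha']
        one_mem' := ⟨Δ.one_mem, by rw [map_one]; rfl⟩
        inv_mem' := by
          rintro a ⟨ha, ha'⟩
          refine ⟨Δ.inv_mem ha, ?_⟩
          rw [map_inv]
          have : (ρ a)⁻¹ (ρ a x) = x := IsometryEquiv.symm_apply_apply (ρ a) x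
          rw [ha'] at this
          exact this }
    have hΔ' : ∀ γ, γ ∈ Δ' ↔ γ ∈ Δ ∧ ρ γ x = x := fun γ => Iff.rfl
    have hNB := hst x Δ' hΔ'
    -- conjugate the `F i`
    have hcon : ∀ i, rep i = r → ∃ γ ∈ Δ, (cj γ (F i)).map ρ ≤ Fb r := by
      intro i hi
      obtain ⟨g, hg, hgi⟩ := hrep i
      obtain ⟨γ, hγ, hγg⟩ := hg
      refine ⟨γ⁻¹, Δ.inv_mem hγ, ?_⟩
      rw [map_cj, map_inv, hγg]
      have h1 := cj_mono (γ := g⁻¹) (hle i)
      rw [← hgi, cj_inv_cj, hi] at h1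
      exact h1
    choose! c hc hc' using hcon
    refine hNB.finset (fun i => cj (c i) (F i)) _ ?_ ?_
    · intro i hi
      have hir : rep i = r := (Finset.mem_filter.1 hi).2
      have hm := (hF i).cj (hc i hir)
      refine ⟨?_, hm.fin, fun F' hF' hF'f hle' => hm.max F' (fun a ha => (hF' ha).1) hF'f hle'⟩
      intro a ha
      exact ⟨hm.le ha, hx _ (hc' i hir ⟨a, ha, rfl⟩)⟩
    · intro i hi j hj hij γ hγ hcon
      have hir : rep i = r := (Finset.mem_filter.1 hi).2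
      have hjr : rep j = r := (Finset.mem_filter.1 hj).2
      apply hnc i j hij ((c j)⁻¹ * γ * c i)
        (Δ.mul_mem (Δ.mul_mem (Δ.inv_mem (hc j hjr)) hγ.1) (hc i hir))
      rw [cj_mul, cj_mul]
      have : cj γ (cj (c i) (F i)) = cj (c j) (F j) := hcon
      rw [this, cj_inv_cj]
  calc m = (Finset.univ : Finset (Fin m)).card := by simp
    _ ≤ N * (Finset.univ.image rep).card := Finset.card_le_mul_card_image _ N hfib
    _ ≤ N * 2 ^ Module.finrank ℝ E := Nat.mul_le_mul_left _ hcl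

end Pool.MP_db1ca7_gt
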