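import Pool.Agent.Lib_MP_db1ca7_fl.Dec

/-!
# MP_db1ca7_gt: the bound for decomposed crystallographic groups
-/

set_option autoImplicit false
set_option linter.unusedSectionVars false

namespace Pool.MP_db1ca7_gt

open scoped RealInnerProductSpace

variable {E : Type} [NormedAddCommGroup E] [InnerProductSpace ℝ E] [FiniteDimensional ℝ E]

section dec

variable (G : Subgroup (E ≃ᵢ E)) {r : ℕ} (V : Fin r → Submodule ℝ E) (q : ∀ j, E →ₗ[ℝ] V j)
  (h1 : ∀ x, ∑ j, ((q j x : V j) : E) = x) (h2 : ∀ j (v : V j), q j v = v)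
  (h3 : ∀ j k, j ≠ k → ∀ v : V k, q j (v : E) = 0) (hinv : ∀ g ∈ G, ∀ j, ∀ v ∈ V j, lin g v ∈ V j)
  (hspan : ∀ j, V j ≤ Submodule.span ℝ {t | t ∈ V j ∧ TR G t})

/-- the action on the factor `V j` -/
noncomputable def ra (j : Fin r) : G →* (V j ≃ᵢ V j) :=
  act G (V j) (q j) (h2 j) fun g hg x => q_comm V q h1 h2 h3 g (hinv g hg) j x

theorem ra_apply (j : Fin r) (g : G) (u : V j) :
    ra G V q h1 h2 h3 hinv j g u = q j ((g : E ≃ᵢ E) (u : E)) := rfl

theorem lin_ra (j : Fin r) (g : G) (u : V j) :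
    ((lin (ra G V q h1 h2 h3 hinv j g) u : V j) : E) = lin (g : E ≃ᵢ E) (u : E) :=
  lin_act G (V j) (q j) _ _ g u

include hspan in
theorem PD_ra (hG : PD G) (j : Fin r) : PD ((⊤ : Subgroup G).map (ra G V q h1 h2 h3 hinv j)) := by
  classical
  choose D hD using fun k => cover G (V k) (hspan k)
  intro R
  have hfin : {g : G | ‖(g : E ≃ᵢ E) 0‖ ≤ |R| + ∑ k, |D k|}.Finite := by
    have := hG (|R| + ∑ k, |D k|)
    refine Set.Finite.of_finite_image (f := fun g : G => (g : E ≃ᵢ E)) (this.subset ?_)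
      Subtype.val_injective.injOn
    rintro _ ⟨g, hg, rfl⟩
    exact ⟨g.2, hg⟩
  refine (hfin.image (ra G V q h1 h2 h3 hinv j)).subset ?_
  rintro h ⟨⟨γ, -, rfl⟩, hR⟩
  choose t htV htT htD using fun k => hD k (-((q k ((γ : E ≃ᵢ E) 0) : V k) : E))
    ((V k).neg_mem (q k ((γ : E ≃ᵢ E) 0)).2)
  set T' : E := ∑ k ∈ Finset.univ.erase j, t k with hT'
  have hTR : TR G T' := TR.sum t htT _
  obtain ⟨τ, hτ, hτx⟩ := hTR
  refine ⟨⟨τ, hτ⟩ * γ, ?_, ?_⟩
  · change ‖τ ((γ : E ≃ᵢ E) 0)‖ ≤ _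
    rw [hτx]
    have e1 : (γ : E ≃ᵢ E) 0 + T' = ((q j ((γ : E ≃ᵢ E) 0) : V j) : E) +
        ∑ k ∈ Finset.univ.erase j, (t k - -((q k ((γ : E ≃ᵢ E) 0) : V k) : E)) := by
      conv_lhs => rw [← h1 ((γ : E ≃ᵢ E) 0)]
      rw [← Finset.add_sum_erase _ _ (Finset.mem_univ j), hT', Finset.sum_sub_distrib, Finset.sum_neg_distrib]
      abel
    rw [e1]
    have e2 : ‖((q j ((γ : E ≃ᵢ E) 0) : V j) : E)‖ ≤ |R| := by
      have : ra G V q h1 h2 h3 hinv j γ 0 = q j ((γ : E ≃ᵢ E) 0) := by
        rw [ra_apply]; rfl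
      rw [this] at hR
      exact hR.trans (le_abs_self R)
    have e3 : ‖∑ k ∈ Finset.univ.erase j, (t k - -((q k ((γ : E ≃ᵢ E) 0) : V k) : E))‖ ≤ ∑ k, |D k| := by
      calc ‖∑ k ∈ Finset.univ.erase j, (t k - -((q k ((γ : E ≃ᵢ E) 0) : V k) : E))‖
          ≤ ∑ k ∈ Finset.univ.erase j, ‖t k - -((q k ((γ : E ≃ᵢ E) 0) : V k) : E)‖ := norm_sum_le _ _
        _ ≤ ∑ k ∈ Finset.univ.erase j, |D k| :=
            Finset.sum_le_sum fun k _ => (htD k).trans (le_abs_self _)
        _ ≤ ∑ k, |D k| :=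
            Finset.sum_le_sum_of_subset_of_nonneg (Finset.erase_subset _ _) fun k _ _ => abs_nonneg _
    exact (norm_add_le _ _).trans (add_le_add e2 e3)
  · apply IsometryEquiv.ext
    intro u
    rw [ra_apply, ra_apply]
    change q j (τ ((γ : E ≃ᵢ E) (u : E))) = _
    rw [hτx, map_add]
    have : q j T' = 0 := by
      rw [hT', map_sum]
      apply Finset.sum_eq_zero
      intro k hk
      exact h3 j k (Finset.ne_of_mem_erase hk).symm ⟨t k, htV k⟩
    rw [this, add_zero]

include hspan in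
theorem ind (hG : PD G)
    (hJ : ∀ j, ∀ H : Subgroup (E ≃ᵢ E), H ≤ G → ∀ g ∈ G,
      (∀ v ∈ V j, v ∈ Dr H → lin g v ∈ Dr H) ∨
      ∀ x ∈ V j, ∃ u ∈ V j, u ∈ Dr H ∧ ∃ w ∈ V j, w ∈ Dr H ∧ x = u + lin g w) (J : Finset (Fin r)) :
    ∀ Δ : Subgroup G, (∀ j ∈ J, ∀ t ∈ V j, ∀ g : G, (∀ x, (g : E ≃ᵢ E) x = x + t) → g ∈ Δ) →
      (∀ j ∉ J, ∃ x : V j, ∀ γ ∈ Δ, ra G V q h1 h2 h3 hinv j γ x = x) →
      NB Δ (∏ j ∈ J, 2 ^ Module.finrank ℝ (V j)) := by
  classical
  induction J using Finset.induction_on with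
  | empty =>
    intro Δ _ hfix
    rw [Finset.prod_empty]
    choose x hx using fun j => hfix j (Finset.notMem_empty j)
    set y : E := ∑ j, ((x j : V j) : E) with hy
    have hqy : ∀ j, q j y = x j := by
      intro j
      rw [hy, map_sum, Finset.sum_eq_single j]
      · exact h2 j _
      · intro k _ hkj
        exact h3 j k (Ne.symm hkj) _
      · intro h; exact absurd (Finset.mem_univ j) h
    have hyfix : ∀ γ ∈ Δ, (γ : E ≃ᵢ E) y = y := by
      intro γ hγ
      rw [← h1 ((γ : E ≃ᵢ E) y)]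
      conv_rhs => rw [hy]
      apply Finset.sum_congr rfl
      intro j _
      have h4 := hx j γ hγ
      rw [ra_apply, ← hqy j, q_key G (V j) (q j) (h2 j)
        (fun g hg x => q_comm V q h1 h2 h3 g (hinv g hg) j x) _ γ.2] at h4
      rw [h4, hqy]
    have hfin : Finite Δ := by
      have h5 : ((Δ : Subgroup G) : Set G).Finite := by
        have h6 := St_finite hG y
        have h7 : ((St G y : Subgroup (E ≃ᵢ E)) : Set (E ≃ᵢ E)).Finite := Set.toFinite _
        refine Set.Finite.of_finite_image (f := fun g : G => (g : E ≃ᵢ E)) (h7.subset ?_)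
          Subtype.val_injective.injOn
        rintro _ ⟨g, hg, rfl⟩
        exact ⟨g.2, hyfix g hg⟩
      exact h5
    intro m F hF hnc
    by_contra hcon
    rw [not_le] at hcon
    have hΔ : ∀ i, F i = Δ := fun i => ((hF i).max Δ (le_refl _) hfin (hF i).le).symm
    have h01 : (⟨0, by omega⟩ : Fin m) ≠ ⟨1, hcon⟩ := by
      intro h
      exact absurd (congrArg Fin.val h) (by norm_num)
    apply hnc _ _ h01 1 Δ.one_mem
    rw [cj_one, hΔ, hΔ]
  | insert j J hj ih =>
    intro Δ htr hfix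
    rw [Finset.prod_insert hj, mul_comm]
    have hle : Δ.map (ra G V q h1 h2 h3 hinv j) ≤ (⊤ : Subgroup G).map (ra G V q h1 h2 h3 hinv j) :=
      Subgroup.map_mono le_top
    have hPD : PD (Δ.map (ra G V q h1 h2 h3 hinv j)) := PD.mono hle (PD_ra G V q h1 h2 h3 hinv hspan hG j)
    have hCC : CC (Δ.map (ra G V q h1 h2 h3 hinv j)) := by
      obtain ⟨D, hD⟩ := cover G (V j) (hspan j)
      refine ⟨D, fun z => ?_⟩
      obtain ⟨t, htV, ⟨g, hg, hgx⟩, htD⟩ := hD z z.2
      refine ⟨_, ⟨⟨g, hg⟩, htr j (Finset.mem_insert_self j J) t htV ⟨g, hg⟩ hgx, rfl⟩, ?_⟩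
      have : ra G V q h1 h2 h3 hinv j ⟨g, hg⟩ 0 = ⟨t, htV⟩ := by
        rw [ra_apply]
        change q j (g 0) = _
        rw [hgx, zero_add]
        exact h2 j ⟨t, htV⟩
      rw [this]
      exact htD
    apply step (ra G V q h1 h2 h3 hinv j) Δ hPD hCC
    · apply inv_of_J hPD
      intro H hH _ h hh
      obtain ⟨γ, hγ, rfl⟩ := hh
      set H' : Subgroup (E ≃ᵢ E) := (H.comap (ra G V q h1 h2 h3 hinv j)).map G.subtype with hH'
      have hDr : ∀ v : V j, v ∈ Dr H ↔ (v : E) ∈ Dr H' := by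
        intro v
        constructor
        · intro hv g hg
          obtain ⟨g', hg', rfl⟩ := hg
          have h4 := hv _ hg'
          have h5 := congrArg Subtype.val h4
          rw [lin_ra] at h5
          exact h5
        · intro hv h hh
          obtain ⟨g', _, rfl⟩ := hH hh
          apply Subtype.ext
          rw [lin_ra]
          exact hv _ ⟨g', hh, rfl⟩
      have hH'G : H' ≤ G := by
        rintro _ ⟨g', _, rfl⟩
        exact g'.2
      rcases hJ j H' hH'G γ γ.2 with h4 | h4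
      · left
        intro v hv
        rw [hDr] at hv ⊢
        rw [lin_ra]
        exact h4 v v.2 hv
      · right
        intro x
        obtain ⟨u, hu, hu', w, hw, hw', hx⟩ := h4 x x.2
        refine ⟨⟨u, hu⟩, (hDr _).2 hu', ⟨w, hw⟩, (hDr _).2 hw', ?_⟩
        apply Subtype.ext
        rw [Submodule.coe_add, lin_ra]
        exact hx
    · intro x Δ' hΔ'
      apply ih Δ'
      · intro k hk t ht g hg
        rw [hΔ']
        refine ⟨htr k (Finset.mem_insert_of_mem hk) t ht g hg, ?_⟩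
        rw [ra_apply, hg, map_add, h2]
        have hkj : j ≠ k := by
          intro h; rw [h] at hj; exact hj hk
        have := h3 j k hkj ⟨t, ht⟩
        change q j t = 0 at this
        rw [this, add_zero]
      · intro k hk
        by_cases hkj : k = j
        · subst hkj
          exact ⟨x, fun γ hγ => ((hΔ' γ).1 hγ).2⟩
        · obtain ⟨y, hy⟩ := hfix k (by
            rw [Finset.mem_insert]
            rintro (h | h)
            · exact hkj h
            · exact hk h)
          exact ⟨y, fun γ hγ => hy γ ((hΔ' γ).1 hγ).1⟩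

end dec

theorem NB_top {X : Type} [Group X] (G : Subgroup X) (N : ℕ) (h : NB (⊤ : Subgroup G) N) : NB G N := by
  intro m F hF hnc
  have hmap : ∀ i, ((F i).subgroupOf G).map G.subtype = F i := by
    intro i
    rw [Subgroup.subgroupOf_map_subtype]
    exact inf_eq_left.2 (hF i).le
  refine h m (fun i => (F i).subgroupOf G) ?_ ?_
  · intro i
    refine ⟨le_top, ?_, ?_⟩
    · have h1 : ((F i : Subgroup X) : Set X).Finite := by
        have := (hF i).fin
        exact Set.toFinite _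
      have h2 : (((F i).subgroupOf G : Subgroup G) : Set G).Finite := by
        refine Set.Finite.of_finite_image (f := fun g : G => (g : X)) (h1.subset ?_)
          Subtype.val_injective.injOn
        rintro _ ⟨g, hg, rfl⟩
        exact hg
      exact h2
    · intro K _ hK hle
      have h1 : K.map G.subtype = F i := by
        apply (hF i).max
        · rintro _ ⟨g, _, rfl⟩
          exact g.2
        · have h3 : ((K : Subgroup G) : Set G).Finite := Set.toFinite _
          have h4 : ((K.map G.subtype : Subgroup X) : Set X).Finite := by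
            rw [Subgroup.coe_map]; exact h3.image _
          exact h4
        · rw [← hmap i]
          exact Subgroup.map_mono hle
      apply Subgroup.map_injective G.subtype_injective
      rw [h1, hmap]
  · intro i j hij γ _ hcon
    apply hnc i j hij γ γ.2
    have := congrArg (Subgroup.map G.subtype) hcon
    rw [map_cj, hmap, hmap] at this
    exact this

/-- the bound `2 ^ n` for crystallographic groups with a good rational decomposition -/
theorem bound (G : Subgroup (E ≃ᵢ E)) (hG : PD G) {r : ℕ} (V : Fin r → Submodule ℝ E)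
    (hV : DirectSum.IsInternal V) (hinv : ∀ g ∈ G, ∀ j, ∀ v ∈ V j, lin g v ∈ V j)
    (hspan : ∀ j, V j ≤ Submodule.span ℝ {t | t ∈ V j ∧ TR G t})
    (hJ : ∀ j, ∀ H : Subgroup (E ≃ᵢ E), H ≤ G → ∀ g ∈ G,
      (∀ v ∈ V j, v ∈ Dr H → lin g v ∈ Dr H) ∨
      ∀ x ∈ V j, ∃ u ∈ V j, u ∈ Dr H ∧ ∃ w ∈ V j, w ∈ Dr H ∧ x = u + lin g w) :
    NB G (2 ^ Module.finrank ℝ E) := by
  obtain ⟨q, h1, h2, h3⟩ := exists_proj V hV
  have hdim : ∑ j, Module.finrank ℝ (V j) = Module.finrank ℝ E := by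
    have e : (DirectSum (Fin r) fun j => V j) ≃ₗ[ℝ] E :=
      LinearEquiv.ofBijective (DirectSum.coeLinearMap V) hV
    rw [← e.finrank_eq, Module.finrank_directSum]
  apply NB_top
  have := ind G V q h1 h2 h3 hinv hspan hG hJ Finset.univ ⊤ (fun _ _ _ _ _ _ => Subgroup.mem_top _)
    (fun j hj => absurd (Finset.mem_univ j) hj)
  rw [Finset.prod_pow_eq_pow_sum, hdim] at this
  exact this

end Pool.MP_db1ca7_gt
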