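import Pool.Agent.Lib_MP_db1ca7_fl.Sep

/-!
# MP_db1ca7_gt: the volume argument
-/

set_option autoImplicit false
set_option linter.unusedSectionVars false

namespace Pool.MP_db1ca7_gt

open scoped RealInnerProductSpace
open MeasureTheory

variable {E : Type} [NormedAddCommGroup E] [InnerProductSpace ℝ E] [FiniteDimensional ℝ E]

theorem PD.countable {G : Subgroup (E ≃ᵢ E)} (hG : PD G) : (G : Set (E ≃ᵢ E)).Countable := by
  have h : (G : Set (E ≃ᵢ E)) ⊆ ⋃ n : ℕ, {g : E ≃ᵢ E | g ∈ G ∧ ‖g 0‖ ≤ n} := by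
    intro g hg
    obtain ⟨n, hn⟩ := exists_nat_ge ‖g 0‖
    exact Set.mem_iUnion.2 ⟨n, hg, hn⟩
  exact (Set.countable_iUnion fun n : ℕ => (hG (n : ℝ)).countable).mono h

theorem exists_nearest {G F : Subgroup (E ≃ᵢ E)} (hG : PD G) (h : MF G F) (z : E) :
    ∃ γ ∈ G, ∀ δ ∈ G, nd (cj γ F) z ≤ nd (cj δ F) z := by
  classical
  set c := nd F z with hc
  have hne := Fx_nonempty F h.fin
  set S : Set (Subgroup (E ≃ᵢ E)) := {H | (∃ γ ∈ G, H = cj γ F) ∧ nd H z ≤ c} with hS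
  have hfin : S.Finite := by
    have h1 := hG (2 * ‖z‖ + 2 * c)
    have h2 := h1.powerset
    refine Set.Finite.of_finite_image (f := fun H : Subgroup (E ≃ᵢ E) => (H : Set (E ≃ᵢ E))) (h2.subset ?_)
      (fun a _ b _ hab => SetLike.coe_injective hab)
    rintro _ ⟨H, ⟨⟨γ, hγ, rfl⟩, hH⟩, rfl⟩
    intro g hg
    have hgG : g ∈ G := (h.cj hγ).le hg
    refine ⟨hgG, ?_⟩
    have hp := pr_mem (Fx_cj_nonempty (γ := γ) hne) z
    have e1 : ‖g 0 - g z‖ = ‖z‖ := by rw [iso_norm, zero_sub, norm_neg]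
    have e2 : ‖g z - pr (cj γ F) z‖ = nd (cj γ F) z := by
      conv_lhs => rw [← hp g hg]
      rw [iso_norm]; rfl
    have e3 : g 0 = (g 0 - g z) + (g z - pr (cj γ F) z) - (z - pr (cj γ F) z) + z := by abel
    calc ‖g 0‖ = ‖(g 0 - g z) + (g z - pr (cj γ F) z) - (z - pr (cj γ F) z) + z‖ := by rw [← e3]
      _ ≤ ‖(g 0 - g z) + (g z - pr (cj γ F) z) - (z - pr (cj γ F) z)‖ + ‖z‖ := norm_add_le _ _
      _ ≤ ‖(g 0 - g z) + (g z - pr (cj γ F) z)‖ + ‖z - pr (cj γ F) z‖ + ‖z‖ := by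
          gcongr; exact norm_sub_le _ _
      _ ≤ ‖g 0 - g z‖ + ‖g z - pr (cj γ F) z‖ + ‖z - pr (cj γ F) z‖ + ‖z‖ := by
          gcongr; exact norm_add_le _ _
      _ ≤ 2 * ‖z‖ + 2 * c := by
          rw [e1, e2]
          have : ‖z - pr (cj γ F) z‖ = nd (cj γ F) z := rfl
          rw [this]; linarith
  have hSne : S.Nonempty := ⟨F, ⟨⟨1, G.one_mem, (cj_one F).symm⟩, le_refl _⟩⟩
  obtain ⟨H, hH, hmin⟩ := Set.exists_min_image S (fun H => nd H z) hfin hSne
  obtain ⟨⟨γ, hγ, rfl⟩, hle⟩ := hH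
  refine ⟨γ, hγ, fun δ hδ => ?_⟩
  by_cases hcase : nd (cj δ F) z ≤ c
  · exact hmin _ ⟨⟨δ, hδ, rfl⟩, hcase⟩
  · exact hle.trans (not_le.1 hcase).le

theorem finrank_Dr_cj (γ : E ≃ᵢ E) (F : Subgroup (E ≃ᵢ E)) :
    Module.finrank ℝ (Dr (cj γ F)) = Module.finrank ℝ (Dr F) := by
  have h : Dr (cj γ F) = (Dr F).map ((lin γ).toLinearEquiv : E →ₗ[ℝ] E) := by
    ext v
    rw [mem_Dr_cj, Submodule.mem_map]
    constructor
    · intro hv
      exact ⟨_, hv, lin_lin_inv γ v⟩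
    · rintro ⟨w, hw, rfl⟩
      change lin γ⁻¹ (lin γ w) ∈ Dr F
      rw [lin_inv_lin]; exact hw
  rw [h]
  exact LinearEquiv.finrank_map_eq _ _

variable [MeasurableSpace E] [BorelSpace E]

/-- the contracted neighbourhood of the flats of one class, in a large ball -/
theorem class_vol {G F : Subgroup (E ≃ᵢ E)} (hG : PD G) (hC : CC G) (h : MF G F) (s : ℝ) (hs : 0 < s)
    (hs1 : s < 1) :
    ∃ D : ℝ, 0 ≤ D ∧ ∀ R : ℝ, ∃ U : Set E, MeasurableSet U ∧
      volume U = ENNReal.ofReal (s ^ (Module.finrank ℝ E - Module.finrank ℝ (Dr F))) *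
        volume (Metric.ball (0 : E) R) ∧
      U ⊆ Metric.ball 0 (R + D) ∧
      ∀ y ∈ U, ∃ γ ∈ G, ∃ z, y = T s (cj γ F) z ∧ ∀ δ ∈ G, nd (cj γ F) z ≤ nd (cj δ F) z := by
  have hne := Fx_nonempty F h.fin
  obtain ⟨a, ha⟩ := hne
  obtain ⟨D, hD⟩ := hC
  have hDa : 0 ≤ D + ‖a‖ := by
    obtain ⟨g, _, hg⟩ := hD 0
    have := norm_nonneg (g 0 - 0)
    have := norm_nonneg a
    linarith
  refine ⟨D + ‖a‖, hDa, fun R => ?_⟩
  obtain ⟨f, hf⟩ := (hG.countable).exists_eq_range ⟨1, G.one_mem⟩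
  have hfG : ∀ k, f k ∈ G := fun k => by
    have : f k ∈ (G : Set (E ≃ᵢ E)) := by rw [hf]; exact Set.mem_range_self k
    exact this
  have hfs : ∀ g ∈ G, ∃ k, f k = g := fun g hg => by
    have : g ∈ (G : Set (E ≃ᵢ E)) := hg
    rw [hf] at this
    exact this
  set H : ℕ → Subgroup (E ≃ᵢ E) := fun k => cj (f k) F with hH
  have hHne : ∀ k, (Fx (H k)).Nonempty := fun k => Fx_cj_nonempty ⟨a, ha⟩
  set M : ℕ → Set E := fun k => {z | ∀ l, nd (H k) z ≤ nd (H l) z} with hM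
  have hMm : ∀ k, MeasurableSet (M k) := by
    intro k
    have : M k = ⋂ l, {z | nd (H k) z ≤ nd (H l) z} := by
      ext z; simp [hM]
    rw [this]
    exact MeasurableSet.iInter fun l =>
      (isClosed_le (continuous_nd _) (continuous_nd _)).measurableSet
  have hMu : ⋃ k, M k = Set.univ := by
    rw [Set.eq_univ_iff_forall]
    intro z
    obtain ⟨γ, hγ, hmin⟩ := exists_nearest hG h z
    obtain ⟨k, rfl⟩ := hfs γ hγ
    exact Set.mem_iUnion.2 ⟨k, fun l => hmin _ (hfG l)⟩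
  set Q : ℕ → Set E := disjointed M with hQ
  have hQm : ∀ k, MeasurableSet (Q k) := fun k => MeasurableSet.disjointed hMm k
  have hQd : Pairwise (Function.onFun Disjoint Q) := disjoint_disjointed M
  have hQu : ⋃ k, Q k = Set.univ := by rw [hQ, iUnion_disjointed, hMu]
  have hQM : ∀ k, Q k ⊆ M k := fun k => disjointed_subset M k
  refine ⟨⋃ k, T s (H k) '' (Metric.ball 0 R ∩ Q k), ?_, ?_, ?_, ?_⟩
  · exact MeasurableSet.iUnion fun k =>
      measurableSet_T (hHne k) s hs _ (Metric.isOpen_ball.measurableSet.inter (hQm k))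
  · have hdis : Pairwise (Function.onFun Disjoint fun k => T s (H k) '' (Metric.ball 0 R ∩ Q k)) := by
      intro k l hkl
      change Disjoint (T s (H k) '' (Metric.ball 0 R ∩ Q k)) (T s (H l) '' (Metric.ball 0 R ∩ Q l))
      rw [Set.disjoint_left]
      rintro y ⟨z, ⟨_, hz⟩, rfl⟩ ⟨z', ⟨_, hz'⟩, hzz'⟩
      by_cases hHkl : H k = H l
      · rw [← hHkl] at hzz'
        have := T_injective (hHne k) s hs hzz'
        rw [this] at hz'
        exact Set.disjoint_left.1 (hQd hkl) hz hz'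
      · exact T_ne_same hG (h.cj (hfG k)) (h.cj (hfG l)) hHkl s hs hs1 z z' (hQM k hz l) (hQM l hz' k)
          hzz'.symm
    rw [measure_iUnion hdis fun k =>
      measurableSet_T (hHne k) s hs _ (Metric.isOpen_ball.measurableSet.inter (hQm k))]
    have h1 : ∀ k, volume (T s (H k) '' (Metric.ball 0 R ∩ Q k)) =
        ENNReal.ofReal (s ^ (Module.finrank ℝ E - Module.finrank ℝ (Dr F))) *
          volume (Metric.ball 0 R ∩ Q k) := by
      intro k
      rw [vol_T (hHne k) s hs.le, finrank_Dr_cj]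
    rw [tsum_congr h1, ENNReal.tsum_mul_left]
    congr 1
    rw [← measure_iUnion, ← Set.inter_iUnion, hQu, Set.inter_univ]
    · intro k l hkl
      exact (hQd hkl).mono Set.inter_subset_right Set.inter_subset_right
    · exact fun k => Metric.isOpen_ball.measurableSet.inter (hQm k)
  · intro y hy
    obtain ⟨k, z, ⟨hz, hzQ⟩, rfl⟩ := Set.mem_iUnion.1 hy
    rw [mem_ball_zero_iff] at hz ⊢
    obtain ⟨g, hg, hgz⟩ := hD z
    obtain ⟨l, hl⟩ := hfs g hg
    have h1 : nd (H k) z ≤ D + ‖a‖ := by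
      have h2 := hQM k hzQ l
      have h3 : nd (H l) z ≤ ‖z - g a‖ := by
        have : H l = cj g F := by rw [hH, ← hl]
        rw [this]
        exact nd_le (map_mem_Fx_cj ha) z
      have h4 : ‖z - g a‖ ≤ D + ‖a‖ := by
        have : z - g a = -(g 0 - z) + (g 0 - g a) := by abel
        rw [this]
        calc ‖-(g 0 - z) + (g 0 - g a)‖ ≤ ‖-(g 0 - z)‖ + ‖g 0 - g a‖ := norm_add_le _ _
          _ = ‖g 0 - z‖ + ‖a‖ := by rw [norm_neg, iso_norm, zero_sub, norm_neg]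
          _ ≤ D + ‖a‖ := by linarith
      linarith
    have h5 : T s (H k) z = z + (s - 1) • (z - pr (H k) z) := by
      rw [T, sub_smul, one_smul]; abel
    rw [h5]
    calc ‖z + (s - 1) • (z - pr (H k) z)‖ ≤ ‖z‖ + ‖(s - 1) • (z - pr (H k) z)‖ := norm_add_le _ _
      _ = ‖z‖ + (1 - s) * nd (H k) z := by
          rw [norm_smul, Real.norm_eq_abs, abs_of_neg (by linarith), nd]; ring
      _ < R + (D + ‖a‖) := by
          have := nd_nonneg (H k) z
          nlinarith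
  · intro y hy
    obtain ⟨k, z, ⟨hz, hzQ⟩, rfl⟩ := Set.mem_iUnion.1 hy
    refine ⟨f k, hfG k, z, rfl, fun δ hδ => ?_⟩
    obtain ⟨l, rfl⟩ := hfs δ hδ
    exact hQM k hzQ l

/-- the inequality with contraction ratio `s < 1/2` -/
theorem sum_s {G : Subgroup (E ≃ᵢ E)} (hG : PD G) (hC : CC G) {m : ℕ} (F : Fin m → Subgroup (E ≃ᵢ E))
    (hF : ∀ i, MF G (F i)) (hnc : ∀ i j, i ≠ j → ∀ γ ∈ G, cj γ (F i) ≠ F j)
    (hcomp : ∀ i j, i ≠ j → ∀ γ ∈ G, ∀ g ∈ cj γ (F j), ∀ v ∈ Dr (F i), lin g v ∈ Dr (F i))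
    (s : ℝ) (hs : 0 < s) (hs1 : s < 1 / 2) :
    ∑ i, s ^ (Module.finrank ℝ E - Module.finrank ℝ (Dr (F i))) ≤ 1 := by
  have hcv := fun i => class_vol hG hC (hF i) s hs (by linarith)
  choose D hD0 hD using hcv
  set D1 : ℝ := ∑ i, D i with hD1
  have hDle : ∀ i, D i ≤ D1 := fun i =>
    Finset.single_le_sum (f := D) (fun j _ => hD0 j) (Finset.mem_univ i)
  have hD10 : 0 ≤ D1 := Finset.sum_nonneg fun i _ => hD0 i
  -- compatibility for conjugates
  have hcj : ∀ i j, i ≠ j → ∀ γ ∈ G, ∀ δ ∈ G, ∀ g ∈ cj δ (F j), ∀ v ∈ Dr (cj γ (F i)), lin g v ∈ Dr (cj γ (F i)) := by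
    intro i j hij γ hγ δ hδ g hg v hv
    rw [mem_Dr_cj] at hv ⊢
    have h1 : γ⁻¹ * g * γ ∈ cj (γ⁻¹ * δ) (F j) := by
      rw [mem_cj] at hg ⊢
      have : (γ⁻¹ * δ)⁻¹ * (γ⁻¹ * g * γ) * (γ⁻¹ * δ) = δ⁻¹ * g * δ := by group
      rw [this]; exact hg
    have h2 := hcomp i j hij _ (G.mul_mem (G.inv_mem hγ) hδ) _ h1 _ hv
    have h3 : lin (γ⁻¹ * g * γ) (lin γ⁻¹ v) = lin γ⁻¹ (lin g v) := by
      rw [lin_mul, lin_mul, lin_lin_inv]
    rw [h3] at h2
    exact h2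
  have hR : ∀ R : ℝ, 0 < R → ∑ i, s ^ (Module.finrank ℝ E - Module.finrank ℝ (Dr (F i))) ≤
      ((R + D1) / R) ^ Module.finrank ℝ E := by
    intro R hR0
    choose U hUm hUv hUs hUp using fun i => hD i R
    have hdis : Pairwise (Function.onFun Disjoint U) := by
      intro i j hij
      change Disjoint (U i) (U j)
      rw [Set.disjoint_left]
      intro y hyi hyj
      obtain ⟨γ, hγ, z, hz, hzm⟩ := hUp i y hyi
      obtain ⟨δ, hδ, z', hz', hzm'⟩ := hUp j y hyj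
      have hne : cj γ (F i) ≠ cj δ (F j) := by
        intro he
        apply hnc i j hij (δ⁻¹ * γ) (G.mul_mem (G.inv_mem hδ) hγ)
        rw [cj_mul, he, cj_inv_cj]
      refine T_ne_cross hG ((hF i).cj hγ) ((hF j).cj hδ) hne (hcj i j hij γ hγ δ hδ)
        (hcj j i hij.symm δ hδ γ hγ) s hs hs1 z z' ?_ ?_ (hz.symm.trans hz')
      · intro g hg
        rw [← cj_mul]
        exact hzm _ (G.mul_mem (((hF j).cj hδ).le hg) hγ)
      · intro g hg
        rw [← cj_mul]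
        exact hzm' _ (G.mul_mem (((hF i).cj hγ).le hg) hδ)
    have h1 : volume (⋃ i, U i) ≤ volume (Metric.ball (0 : E) (R + D1)) := by
      apply measure_mono
      intro y hy
      obtain ⟨i, hi⟩ := Set.mem_iUnion.1 hy
      exact Metric.ball_subset_ball (by have := hDle i; linarith) (hUs i hi)
    rw [measure_iUnion hdis hUm, tsum_fintype] at h1
    have hv0 : volume (Metric.ball (0 : E) 1) ≠ 0 := (Metric.measure_ball_pos _ _ one_pos).ne'
    have hv1 : volume (Metric.ball (0 : E) 1) ≠ ⊤ := measure_ball_lt_top.ne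
    have h2 : ∀ i, volume (U i) = ENNReal.ofReal (s ^ (Module.finrank ℝ E - Module.finrank ℝ (Dr (F i))) *
        R ^ Module.finrank ℝ E) * volume (Metric.ball (0 : E) 1) := by
      intro i
      rw [hUv i, Measure.addHaar_ball_of_pos _ _ hR0, ← mul_assoc, ← ENNReal.ofReal_mul (by positivity)]
    have hv3 : volume (Metric.ball (0 : E) (R + D1)) =
        ENNReal.ofReal ((R + D1) ^ Module.finrank ℝ E) * volume (Metric.ball (0 : E) 1) :=
      Measure.addHaar_ball_of_pos _ _ (by linarith)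
    rw [Finset.sum_congr rfl fun i _ => h2 i, ← Finset.sum_mul, hv3,
      ENNReal.mul_le_mul_iff_left hv0 hv1, ← ENNReal.ofReal_sum_of_nonneg (fun i _ => by positivity),
      ENNReal.ofReal_le_ofReal_iff (by positivity), ← Finset.sum_mul] at h1
    rw [div_pow, le_div_iff₀ (by positivity)]
    exact h1
  have hlim : Filter.Tendsto (fun R : ℝ => ((R + D1) / R) ^ Module.finrank ℝ E) Filter.atTop (nhds 1) := by
    have h1 : Filter.Tendsto (fun R : ℝ => 1 + D1 / R) Filter.atTop (nhds (1 + 0)) :=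
      tendsto_const_nhds.add (Filter.Tendsto.div_atTop tendsto_const_nhds Filter.tendsto_id)
    have h2 := (h1.pow (Module.finrank ℝ E))
    rw [add_zero, one_pow] at h2
    refine h2.congr' ?_
    filter_upwards [Filter.eventually_gt_atTop 0] with R hR0
    rw [add_div, div_self hR0.ne']
  exact ge_of_tendsto hlim ((Filter.eventually_gt_atTop 0).mono hR)

/-- KRAFT INEQUALITY -/
theorem kraft {G : Subgroup (E ≃ᵢ E)} (hG : PD G) (hC : CC G) {m : ℕ} (F : Fin m → Subgroup (E ≃ᵢ E))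
    (hF : ∀ i, MF G (F i)) (hnc : ∀ i j, i ≠ j → ∀ γ ∈ G, cj γ (F i) ≠ F j)
    (hcomp : ∀ i j, i ≠ j → ∀ γ ∈ G, ∀ g ∈ cj γ (F j), ∀ v ∈ Dr (F i), lin g v ∈ Dr (F i)) :
    ∑ i, 2 ^ Module.finrank ℝ (Dr (F i)) ≤ 2 ^ Module.finrank ℝ E := by
  have h1 : ∑ i, (1 / 2 : ℝ) ^ (Module.finrank ℝ E - Module.finrank ℝ (Dr (F i))) ≤ 1 := by
    have hcont : Continuous fun s : ℝ => ∑ i, s ^ (Module.finrank ℝ E - Module.finrank ℝ (Dr (F i))) := by
      fun_prop
    have hlim : Filter.Tendsto (fun s : ℝ => ∑ i, s ^ (Module.finrank ℝ E - Module.finrank ℝ (Dr (F i))))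
        (nhdsWithin (1 / 2) (Set.Iio (1 / 2))) (nhds _) := (hcont.tendsto (1 / 2)).mono_left nhdsWithin_le_nhds
    refine le_of_tendsto hlim ?_
    have h2 : ∀ᶠ s : ℝ in nhdsWithin (1 / 2) (Set.Iio (1 / 2)), 0 < s ∧ s < 1 / 2 := by
      have ha : ∀ᶠ s : ℝ in nhdsWithin (1 / 2) (Set.Iio (1 / 2)), 0 < s :=
        nhdsWithin_le_nhds (lt_mem_nhds (by norm_num))
      exact ha.and self_mem_nhdsWithin
    exact h2.mono fun s hs => sum_s hG hC F hF hnc hcomp s hs.1 hs.2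
  have h3 : ∀ i, (2 : ℝ) ^ Module.finrank ℝ (Dr (F i)) =
      2 ^ Module.finrank ℝ E * (1 / 2 : ℝ) ^ (Module.finrank ℝ E - Module.finrank ℝ (Dr (F i))) := by
    intro i
    have hle : Module.finrank ℝ (Dr (F i)) ≤ Module.finrank ℝ E := Submodule.finrank_le _
    obtain ⟨c, hc⟩ := Nat.exists_eq_add_of_le hle
    rw [hc, Nat.add_sub_cancel_left, pow_add, one_div, inv_pow, mul_assoc, mul_inv_cancel₀ (by positivity),
      mul_one]
  have h4 : ∑ i, (2 : ℝ) ^ Module.finrank ℝ (Dr (F i)) ≤ 2 ^ Module.finrank ℝ E := by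
    rw [Finset.sum_congr rfl fun i _ => h3 i, ← Finset.mul_sum]
    calc (2 : ℝ) ^ Module.finrank ℝ E * ∑ i, (1 / 2 : ℝ) ^ (Module.finrank ℝ E - Module.finrank ℝ (Dr (F i)))
        ≤ 2 ^ Module.finrank ℝ E * 1 := by gcongr
      _ = 2 ^ Module.finrank ℝ E := mul_one _
  exact_mod_cast h4

end Pool.MP_db1ca7_gt
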