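import Pool.Agent.Lib_MP_db1ca7_fl.Basic

/-!
# MP_db1ca7_gt: the projection to a fixed flat and the contraction towards it
-/

set_option autoImplicit false
set_option linter.unusedSectionVars false

namespace Pool.MP_db1ca7_gt

open scoped RealInnerProductSpace
open MeasureTheory

variable {E : Type} [NormedAddCommGroup E] [InnerProductSpace ℝ E] [FiniteDimensional ℝ E]

open scoped Classical in
/-- the nearest point of the fixed flat -/
noncomputable def pr (F : Subgroup (E ≃ᵢ E)) (z : E) : E :=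
  if h : (Fx F).Nonempty then h.some + (Dr F).starProjection (z - h.some) else z

theorem pr_eq {F : Subgroup (E ≃ᵢ E)} {a : E} (ha : a ∈ Fx F) (z : E) :
    pr F z = a + (Dr F).starProjection (z - a) := by
  have h : (Fx F).Nonempty := ⟨a, ha⟩
  rw [pr, dif_pos h]
  have h1 : (Dr F).starProjection (a - h.some) = a - h.some :=
    Submodule.starProjection_eq_self_iff.2 (sub_mem_Dr ha h.some_mem)
  have h2 : z - h.some = (z - a) + (a - h.some) := by abel
  rw [h2, map_add, h1]; abel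

theorem pr_mem {F : Subgroup (E ≃ᵢ E)} (hF : (Fx F).Nonempty) (z : E) : pr F z ∈ Fx F := by
  obtain ⟨a, ha⟩ := hF
  rw [pr_eq ha]
  exact add_mem_Fx ha (Submodule.starProjection_apply_mem _ _)

theorem pr_of_mem {F : Subgroup (E ≃ᵢ E)} {a : E} (ha : a ∈ Fx F) : pr F a = a := by
  rw [pr_eq ha, sub_self, map_zero, add_zero]

theorem pr_orth {F : Subgroup (E ≃ᵢ E)} (hF : (Fx F).Nonempty) (z v : E) (hv : v ∈ Dr F) :
    ⟪z - pr F z, v⟫ = 0 := by
  obtain ⟨a, ha⟩ := hF
  rw [pr_eq ha]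
  have : z - (a + (Dr F).starProjection (z - a)) = (z - a) - (Dr F).starProjection (z - a) := by abel
  rw [this]
  exact Submodule.starProjection_inner_eq_zero _ _ hv

/-- the distance to the fixed flat -/
noncomputable def nd (F : Subgroup (E ≃ᵢ E)) (z : E) : ℝ := ‖z - pr F z‖

theorem nd_nonneg (F : Subgroup (E ≃ᵢ E)) (z : E) : 0 ≤ nd F z := norm_nonneg _

theorem nd_eq {F : Subgroup (E ≃ᵢ E)} {a : E} (ha : a ∈ Fx F) (z : E) :
    nd F z = ‖(z - a) - (Dr F).starProjection (z - a)‖ := by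
  rw [nd, pr_eq ha]
  congr 1
  abel

theorem nd_pyth {F : Subgroup (E ≃ᵢ E)} {a : E} (ha : a ∈ Fx F) (z : E) :
    ‖z - a‖ ^ 2 = nd F z ^ 2 + ‖pr F z - a‖ ^ 2 := by
  have h1 : z - a = (z - pr F z) + (pr F z - a) := by abel
  have h2 := pr_orth ⟨a, ha⟩ z _ (sub_mem_Dr (pr_mem ⟨a, ha⟩ z) ha)
  rw [h1, norm_add_sq_real, h2, nd]; ring

theorem nd_le {F : Subgroup (E ≃ᵢ E)} {a : E} (ha : a ∈ Fx F) (z : E) : nd F z ≤ ‖z - a‖ := by
  have h := nd_pyth ha z
  have h1 : nd F z ^ 2 ≤ ‖z - a‖ ^ 2 := by nlinarith [sq_nonneg ‖pr F z - a‖]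
  exact (pow_le_pow_iff_left₀ (nd_nonneg F z) (norm_nonneg _) two_ne_zero).1 h1

theorem Fx_cj_nonempty {γ : E ≃ᵢ E} {F : Subgroup (E ≃ᵢ E)} (hF : (Fx F).Nonempty) :
    (Fx (cj γ F)).Nonempty := by
  obtain ⟨a, ha⟩ := hF
  exact ⟨γ a, map_mem_Fx_cj ha⟩

theorem nd_cj_le {γ : E ≃ᵢ E} {F : Subgroup (E ≃ᵢ E)} (hF : (Fx F).Nonempty) (z : E) :
    nd (cj γ F) (γ z) ≤ nd F z := by
  have h := nd_le (map_mem_Fx_cj (γ := γ) (pr_mem hF z)) (γ z)
  rwa [iso_norm] at h

theorem continuous_pr (F : Subgroup (E ≃ᵢ E)) : Continuous (pr F) := by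
  by_cases hF : (Fx F).Nonempty
  · obtain ⟨a, ha⟩ := hF
    have : pr F = fun z => a + (Dr F).starProjection (z - a) := funext fun z => pr_eq ha z
    rw [this]
    fun_prop
  · have : pr F = id := by
      funext z
      rw [pr, dif_neg hF]; rfl
    rw [this]
    exact continuous_id

theorem continuous_nd (F : Subgroup (E ≃ᵢ E)) : Continuous (nd F) :=
  (continuous_id.sub (continuous_pr F)).norm

/-- the contraction with ratio `s` towards the fixed flat -/
noncomputable def T (s : ℝ) (F : Subgroup (E ≃ᵢ E)) (z : E) : E := pr F z + s • (z - pr F z)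

theorem continuous_T (s : ℝ) (F : Subgroup (E ≃ᵢ E)) : Continuous (T s F) :=
  (continuous_pr F).add ((continuous_id.sub (continuous_pr F)).const_smul s)

theorem pr_T {F : Subgroup (E ≃ᵢ E)} (hF : (Fx F).Nonempty) (s : ℝ) (z : E) : pr F (T s F z) = pr F z := by
  have hp := pr_mem hF z
  rw [pr_eq hp (T s F z), T, add_sub_cancel_left, map_smul]
  have h1 : (Dr F).starProjection (z - pr F z) = 0 := by
    apply Submodule.eq_starProjection_of_mem_of_inner_eq_zero (Submodule.zero_mem _)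
    intro w hw
    rw [sub_zero]
    exact pr_orth hF z w hw
  rw [h1, smul_zero, add_zero]

theorem T_T {F : Subgroup (E ≃ᵢ E)} (hF : (Fx F).Nonempty) (s t : ℝ) (z : E) :
    T t F (T s F z) = T (t * s) F z := by
  rw [T, pr_T hF, T, T, add_sub_cancel_left, smul_smul]

theorem T_one {F : Subgroup (E ≃ᵢ E)} (z : E) : T 1 F z = z := by
  rw [T, one_smul]; abel

theorem nd_T {F : Subgroup (E ≃ᵢ E)} (hF : (Fx F).Nonempty) (s : ℝ) (hs : 0 ≤ s) (z : E) :
    nd F (T s F z) = s * nd F z := by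
  rw [nd, pr_T hF, T, add_sub_cancel_left, norm_smul, Real.norm_of_nonneg hs, nd]

theorem image_T {F : Subgroup (E ≃ᵢ E)} (hF : (Fx F).Nonempty) (s : ℝ) (hs : 0 < s) (S : Set E) :
    T s F '' S = T s⁻¹ F ⁻¹' S := by
  ext y
  constructor
  · rintro ⟨z, hz, rfl⟩
    rw [Set.mem_preimage, T_T hF, inv_mul_cancel₀ hs.ne', T_one]
    exact hz
  · intro hy
    refine ⟨_, hy, ?_⟩
    rw [T_T hF, mul_inv_cancel₀ hs.ne', T_one]

theorem T_injective {F : Subgroup (E ≃ᵢ E)} (hF : (Fx F).Nonempty) (s : ℝ) (hs : 0 < s) :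
    Function.Injective (T s F) := by
  intro x y h
  have := congrArg (T s⁻¹ F) h
  rwa [T_T hF, T_T hF, inv_mul_cancel₀ hs.ne', T_one, T_one] at this

/-- the linear part of the contraction -/
noncomputable def Lam (s : ℝ) (V : Submodule ℝ E) : E →ₗ[ℝ] E :=
  (V.starProjection : E →ₗ[ℝ] E) + s • (LinearMap.id - (V.starProjection : E →ₗ[ℝ] E))

theorem Lam_apply (s : ℝ) (V : Submodule ℝ E) (v : E) :
    Lam s V v = V.starProjection v + s • (v - V.starProjection v) := rfl

theorem Lam_det (s : ℝ) (V : Submodule ℝ E) :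
    (Lam s V).det = s ^ (Module.finrank ℝ E - Module.finrank ℝ V) := by
  have he : V ≤ V.comap (Lam s V) := by
    intro v hv
    rw [Submodule.mem_comap, Lam_apply, Submodule.starProjection_eq_self_iff.2 hv, sub_self, smul_zero, add_zero]
    exact hv
  rw [LinearMap.det_eq_det_mul_det V (Lam s V) he]
  have h1 : (Lam s V).restrict he = LinearMap.id := by
    ext v
    change Lam s V (v : E) = (v : E)
    rw [Lam_apply, Submodule.starProjection_eq_self_iff.2 v.2, sub_self, smul_zero, add_zero]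
  have h2 : V.mapQ V (Lam s V) he = s • LinearMap.id := by
    ext v
    change V.mkQ (Lam s V v) = s • V.mkQ v
    rw [Lam_apply, map_add, map_smul, map_sub]
    have h3 : V.mkQ (V.starProjection v) = 0 := by
      rw [Submodule.mkQ_apply, Submodule.Quotient.mk_eq_zero]
      exact Submodule.starProjection_apply_mem _ _
    rw [h3, sub_zero, zero_add]
  rw [h1, h2, LinearMap.det_id, one_mul, LinearMap.det_smul, LinearMap.det_id, mul_one,
    Submodule.finrank_quotient]

theorem T_eq {F : Subgroup (E ≃ᵢ E)} {a : E} (ha : a ∈ Fx F) (s : ℝ) (z : E) :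
    T s F z = (a - Lam s (Dr F) a) + Lam s (Dr F) z := by
  have h : Lam s (Dr F) z - Lam s (Dr F) a = Lam s (Dr F) (z - a) := (map_sub _ _ _).symm
  have h2 : (a - Lam s (Dr F) a) + Lam s (Dr F) z = a + Lam s (Dr F) (z - a) := by
    rw [← h]; abel
  rw [h2, Lam_apply, T, pr_eq ha]
  have h3 : z - (a + (Dr F).starProjection (z - a)) = (z - a) - (Dr F).starProjection (z - a) := by abel
  rw [h3]; abel

variable [MeasurableSpace E] [BorelSpace E]

theorem vol_T {F : Subgroup (E ≃ᵢ E)} (hF : (Fx F).Nonempty) (s : ℝ) (hs : 0 ≤ s) (S : Set E) :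
    volume (T s F '' S) =
      ENNReal.ofReal (s ^ (Module.finrank ℝ E - Module.finrank ℝ (Dr F))) * volume S := by
  obtain ⟨a, ha⟩ := hF
  have h1 : T s F '' S = (fun x => (a - Lam s (Dr F) a) + x) '' (Lam s (Dr F) '' S) := by
    rw [Set.image_image]
    exact Set.image_congr fun z _ => T_eq ha s z
  rw [h1, Set.image_add_left, measure_preimage_add, Measure.addHaar_image_linearMap, Lam_det,
    abs_of_nonneg (by positivity)]

theorem measurableSet_T {F : Subgroup (E ≃ᵢ E)} (hF : (Fx F).Nonempty) (s : ℝ) (hs : 0 < s) (S : Set E)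
    (hS : MeasurableSet S) : MeasurableSet (T s F '' S) := by
  rw [image_T hF s hs]
  exact (continuous_T s⁻¹ F).measurable hS

end Pool.MP_db1ca7_gt
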