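import Pool.Agent.Lib_MP_db1ca7_fl.Proj

/-!
# MP_db1ca7_gt: the contractions towards different flats have disjoint images
-/

set_option autoImplicit false
set_option linter.unusedSectionVars false

namespace Pool.MP_db1ca7_gt

open scoped RealInnerProductSpace

variable {E : Type} [NormedAddCommGroup E] [InnerProductSpace ℝ E] [FiniteDimensional ℝ E]

theorem strict_lt {G F F' : Subgroup (E ≃ᵢ E)} (hG : PD G) (h : MF G F) (h' : MF G F') (hne : F ≠ F')
    (s : ℝ) (hs : 0 < s) (hs1 : s < 1) (z : E) (hz : nd F z ≤ nd F' z) :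
    nd F (T s F z) < nd F' (T s F z) := by
  have hF := Fx_nonempty F h.fin
  have hF' := Fx_nonempty F' h'.fin
  by_contra hcon
  rw [not_lt] at hcon
  rw [nd_T hF s hs.le] at hcon
  set a := pr F z with ha
  set r := z - a with hr
  set y := T s F z with hy
  set w := y - pr F' y with hw
  have hyr : y = a + s • r := rfl
  have h1 : ‖w‖ ≤ s * ‖r‖ := hcon
  have h2 : ‖r‖ ≤ ‖z - pr F' y‖ := hz.trans (nd_le (pr_mem hF' y) z)
  have h3 : z - pr F' y = (1 - s) • r + w := by
    rw [hw, hyr, sub_smul, one_smul, hr]; abel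
  rw [h3] at h2
  have h4 : ‖r‖ ^ 2 ≤ ‖(1 - s) • r + w‖ ^ 2 := by gcongr
  have h5 : ‖(1 - s) • r + w‖ ^ 2 = (1 - s) ^ 2 * ‖r‖ ^ 2 + 2 * (1 - s) * ⟪r, w⟫ + ‖w‖ ^ 2 := by
    rw [norm_add_sq_real, norm_smul, inner_smul_left, mul_pow, Real.norm_eq_abs, sq_abs]
    simp only [conj_trivial]
    ring
  have h6 : ‖w - s • r‖ ^ 2 = ‖w‖ ^ 2 - 2 * s * ⟪r, w⟫ + s ^ 2 * ‖r‖ ^ 2 := by
    rw [norm_sub_sq_real, norm_smul, inner_smul_right, mul_pow, Real.norm_eq_abs, sq_abs, real_inner_comm]
    ring
  have h7 : ‖w‖ ^ 2 ≤ s ^ 2 * ‖r‖ ^ 2 := by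
    have := pow_le_pow_left₀ (norm_nonneg w) h1 2
    rwa [mul_pow] at this
  have h8 : (1 - s) * ‖w - s • r‖ ^ 2 ≤ 0 := by
    rw [h6]
    rw [h5] at h4
    nlinarith [h4, h7, hs, hs1, mul_le_mul_of_nonneg_left h4 hs.le]
  have h9 : ‖w - s • r‖ ^ 2 ≤ 0 := by
    by_contra hc
    rw [not_le] at hc
    have : 0 < (1 - s) * ‖w - s • r‖ ^ 2 := mul_pos (by linarith) hc
    linarith
  have h10 : w - s • r = 0 := by
    have : ‖w - s • r‖ = 0 := by
      have h0 := sq_nonneg ‖w - s • r‖
      exact pow_eq_zero_iff two_ne_zero |>.1 (le_antisymm h9 h0)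
    exact norm_eq_zero.1 this
  have h11 : pr F' y = a := by
    have : w = s • r := sub_eq_zero.1 h10
    rw [hw, hyr] at this
    have h12 : pr F' (a + s • r) = a := by
      have h13 : a + s • r - pr F' (a + s • r) = s • r := this
      have h14 := congrArg (fun x => a + s • r - x) h13
      simp only [sub_sub_cancel, add_sub_cancel_right] at h14
      exact h14
    rw [hyr]; exact h12
  exact hne (MF.eq_of_mem hG h h' (pr_mem hF z) (by rw [← ha, ← h11]; exact pr_mem hF' y))

/-- contractions towards two flats of one class -/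
theorem T_ne_same {G F F' : Subgroup (E ≃ᵢ E)} (hG : PD G) (h : MF G F) (h' : MF G F') (hne : F ≠ F')
    (s : ℝ) (hs : 0 < s) (hs1 : s < 1) (z z' : E) (hz : nd F z ≤ nd F' z) (hz' : nd F' z' ≤ nd F z') :
    T s F z ≠ T s F' z' := by
  intro heq
  have h1 := strict_lt hG h h' hne s hs hs1 z hz
  have h2 := strict_lt hG h' h hne.symm s hs hs1 z' hz'
  rw [← heq] at h2
  exact lt_asymm h1 h2

theorem proj_lin (V : Submodule ℝ E) (g : E ≃ᵢ E) (h1 : ∀ v ∈ V, lin g v ∈ V) (h2 : ∀ v ∈ V, lin g⁻¹ v ∈ V)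
    (x : E) : V.starProjection (lin g x) = lin g (V.starProjection x) := by
  apply Submodule.eq_starProjection_of_mem_of_inner_eq_zero (h1 _ (Submodule.starProjection_apply_mem _ _))
  intro w hw
  rw [← map_sub, ← lin_lin_inv g w, LinearIsometryEquiv.inner_map_map]
  exact Submodule.starProjection_inner_eq_zero _ _ (h2 w hw)

theorem proj_avg (F : Subgroup (E ≃ᵢ E)) [Fintype F] (x : E) :
    (Dr F).starProjection x = (Fintype.card F : ℝ)⁻¹ • ∑ g : F, lin (g : E ≃ᵢ E) x := by
  classical
  have hN : (Fintype.card F : ℝ) ≠ 0 := by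
    have : 0 < Fintype.card F := Fintype.card_pos
    exact_mod_cast this.ne'
  apply Submodule.eq_starProjection_of_mem_of_inner_eq_zero
  · intro h hh
    rw [(lin h).map_smul, map_sum]
    congr 1
    refine Fintype.sum_equiv (Equiv.mulLeft (⟨h, hh⟩ : F)) _ _ fun g => ?_
    rw [← lin_mul]; rfl
  · intro w hw
    rw [inner_sub_left, inner_smul_left, sum_inner]
    have h1 : ∀ g : F, ⟪lin (g : E ≃ᵢ E) x, w⟫ = ⟪x, w⟫ := by
      intro g
      conv_lhs => rw [← hw g.1 g.2]
      exact LinearIsometryEquiv.inner_map_map _ _ _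
    rw [Finset.sum_congr rfl fun g _ => h1 g, Finset.sum_const, Finset.card_univ, nsmul_eq_mul, ← mul_assoc]
    simp only [conj_trivial]
    rw [inv_mul_cancel₀ hN, one_mul, sub_self]

theorem proj_comm {F F' : Subgroup (E ≃ᵢ E)} (hF' : Finite F') (hc : ∀ g ∈ F', ∀ v ∈ Dr F, lin g v ∈ Dr F)
    (x : E) : (Dr F).starProjection ((Dr F').starProjection x) = (Dr F').starProjection ((Dr F).starProjection x) := by
  have := Fintype.ofFinite F'
  rw [proj_avg F', proj_avg F', map_smul, map_sum]
  congr 1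
  apply Finset.sum_congr rfl
  intro g _
  exact proj_lin _ _ (hc g.1 g.2) (hc _ (F'.inv_mem g.2)) x

/-- a point nearest to the flat of `F` among its images under `F'` lies in a half space -/
theorem half_space {F F' : Subgroup (E ≃ᵢ E)} (hF' : Finite F') (hc : ∀ g ∈ F', ∀ v ∈ Dr F, lin g v ∈ Dr F)
    {a b : E} (ha : a ∈ Fx F) (hb : b ∈ Fx F') (z : E) (hz : ∀ g ∈ F', nd F z ≤ nd (cj g F) z) :
    0 ≤ ⟪z - b, ((a - b) - (Dr F).starProjection (a - b)) -
      (Dr F').starProjection ((a - b) - (Dr F).starProjection (a - b))⟫ := by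
  have hfin := Fintype.ofFinite F'
  have hN : (0 : ℝ) < Fintype.card F' := by
    have : 0 < Fintype.card F' := Fintype.card_pos
    exact_mod_cast this
  set V := Dr F with hV
  set V' := Dr F' with hV'
  set d := a - b with hd
  set n := d - V.starProjection d with hn
  set ζ := z - b with hζ
  set m := ζ - V.starProjection ζ with hm
  have hg : ∀ g ∈ F', ⟪m, lin g n⟫ ≤ ⟪m, n⟫ := by
    intro g hgF
    have hDr : Dr (cj g F) = Dr F := by
      ext v
      rw [mem_Dr_cj]
      constructor
      · intro hv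
        have := hc g hgF _ hv
        rwa [lin_lin_inv] at this
      · intro hv
        exact hc _ (F'.inv_mem hgF) v hv
    have h1 := hz g hgF
    rw [nd_eq ha, nd_eq (map_mem_Fx_cj (γ := g) ha), hDr] at h1
    have h2 : z - a = ζ - d := by rw [hζ, hd]; abel
    have h3 : z - g a = ζ - lin g d := by
      have : lin g d = g a - b := by
        rw [hd, lin_sub, hb g hgF]
      rw [this, hζ]; abel
    rw [h2, h3, ← hV] at h1
    have h4 : ζ - d - V.starProjection (ζ - d) = m - n := by
      rw [hm, hn, map_sub V.starProjection ζ d]; abel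
    have h5 : ζ - lin g d - V.starProjection (ζ - lin g d) = m - lin g n := by
      rw [hm, hn, map_sub V.starProjection ζ (lin g d), proj_lin _ _ (hc g hgF) (hc _ (F'.inv_mem hgF)),
        map_sub (lin g) d]
      abel
    rw [h4, h5] at h1
    have h6 : ‖m - n‖ ^ 2 ≤ ‖m - lin g n‖ ^ 2 := by gcongr
    have h7 : ‖m - n‖ ^ 2 = ‖m‖ ^ 2 - 2 * ⟪m, n⟫ + ‖n‖ ^ 2 := norm_sub_sq_real m n
    have h8 : ‖m - lin g n‖ ^ 2 = ‖m‖ ^ 2 - 2 * ⟪m, lin g n⟫ + ‖lin g n‖ ^ 2 := norm_sub_sq_real m (lin g n)
    rw [h7, h8, LinearIsometryEquiv.norm_map] at h6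
    linarith
  have hav : ⟪m, V'.starProjection n⟫ ≤ ⟪m, n⟫ := by
    rw [proj_avg F', inner_smul_right, inner_sum]
    have h1 : ∑ g : F', ⟪m, lin (g : E ≃ᵢ E) n⟫ ≤ ∑ _g : F', ⟪m, n⟫ :=
      Finset.sum_le_sum fun g _ => hg g.1 g.2
    rw [Finset.sum_const, Finset.card_univ, nsmul_eq_mul] at h1
    calc (Fintype.card F' : ℝ)⁻¹ * ∑ g : F', ⟪m, lin (g : E ≃ᵢ E) n⟫
        ≤ (Fintype.card F' : ℝ)⁻¹ * ((Fintype.card F' : ℝ) * ⟪m, n⟫) := by gcongr
      _ = ⟪m, n⟫ := by rw [← mul_assoc, inv_mul_cancel₀ hN.ne', one_mul]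
  have hVn : V.starProjection n = 0 := by
    rw [hn, map_sub]
    have : V.starProjection (V.starProjection d) = V.starProjection d :=
      Submodule.starProjection_eq_self_iff.2 (Submodule.starProjection_apply_mem _ _)
    rw [this, sub_self]
  have he : V.starProjection (n - V'.starProjection n) = 0 := by
    rw [map_sub, hV, hV', proj_comm hF' hc, ← hV, ← hV', hVn, map_zero, sub_zero]
  have h1 : ⟪V.starProjection ζ, n - V'.starProjection n⟫ = 0 := by
    have := Submodule.starProjection_inner_eq_zero (K := V) (n - V'.starProjection n) (V.starProjection ζ)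
      (Submodule.starProjection_apply_mem _ _)
    rw [he, sub_zero] at this
    rw [real_inner_comm]; exact this
  have h2 : ⟪ζ, n - V'.starProjection n⟫ = ⟪m, n - V'.starProjection n⟫ := by
    have h3 : ⟪m, n - V'.starProjection n⟫ = ⟪ζ, n - V'.starProjection n⟫ -
        ⟪V.starProjection ζ, n - V'.starProjection n⟫ := inner_sub_left _ _ _
    rw [h3, h1, sub_zero]
  rw [h2, inner_sub_right]
  linarith

/-- contractions towards flats of different compatible classes -/
theorem T_ne_cross {G F F' : Subgroup (E ≃ᵢ E)} (hG : PD G) (h : MF G F) (h' : MF G F') (hne : F ≠ F')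
    (hc : ∀ g ∈ F', ∀ v ∈ Dr F, lin g v ∈ Dr F) (hc' : ∀ g ∈ F, ∀ v ∈ Dr F', lin g v ∈ Dr F')
    (s : ℝ) (hs : 0 < s) (hs1 : s < 1 / 2) (z z' : E) (hz : ∀ g ∈ F', nd F z ≤ nd (cj g F) z)
    (hz' : ∀ g ∈ F, nd F' z' ≤ nd (cj g F') z') : T s F z ≠ T s F' z' := by
  intro heq
  have hF := Fx_nonempty F h.fin
  have hF' := Fx_nonempty F' h'.fin
  set a := pr F z with ha
  set b := pr F' z' with hb
  have hA : a ∈ Fx F := pr_mem hF z
  have hB : b ∈ Fx F' := pr_mem hF' z'
  have h1 := half_space h'.fin hc hA hB z hz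
  have h2 := half_space h.fin hc' hB hA z' hz'
  set d := a - b with hd
  set n := d - (Dr F).starProjection d with hn
  set e := n - (Dr F').starProjection n with he
  have h3 : ((b - a) - (Dr F').starProjection (b - a)) -
      (Dr F).starProjection ((b - a) - (Dr F').starProjection (b - a)) = -e := by
    have hba : b - a = -d := by rw [hd]; abel
    rw [hba, he, hn]
    simp only [map_sub, map_neg]
    rw [proj_comm h'.fin hc]
    abel
  rw [h3, inner_neg_right] at h2
  have hPe : (Dr F).starProjection e = 0 := by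
    have hVn : (Dr F).starProjection n = 0 := by
      rw [hn, map_sub]
      have : (Dr F).starProjection ((Dr F).starProjection d) = (Dr F).starProjection d :=
        Submodule.starProjection_eq_self_iff.2 (Submodule.starProjection_apply_mem _ _)
      rw [this, sub_self]
    rw [he, map_sub, proj_comm h'.fin hc, hVn, map_zero, sub_zero]
  have hPe' : (Dr F').starProjection e = 0 := by
    rw [he, map_sub]
    have : (Dr F').starProjection ((Dr F').starProjection n) = (Dr F').starProjection n :=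
      Submodule.starProjection_eq_self_iff.2 (Submodule.starProjection_apply_mem _ _)
    rw [this, sub_self]
  have hde : ⟪d, e⟫ = ‖e‖ ^ 2 := by
    have h4 : d = e + (Dr F).starProjection d + (Dr F').starProjection n := by
      rw [he, hn]; abel
    have h5 : ⟪(Dr F).starProjection d, e⟫ = 0 := by
      have := Submodule.starProjection_inner_eq_zero (K := Dr F) e ((Dr F).starProjection d)
        (Submodule.starProjection_apply_mem _ _)
      rw [hPe, sub_zero] at this
      rw [real_inner_comm]; exact this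
    have h6 : ⟪(Dr F').starProjection n, e⟫ = 0 := by
      have := Submodule.starProjection_inner_eq_zero (K := Dr F') e ((Dr F').starProjection n)
        (Submodule.starProjection_apply_mem _ _)
      rw [hPe', sub_zero] at this
      rw [real_inner_comm]; exact this
    conv_lhs => rw [h4]
    rw [inner_add_left, inner_add_left, h5, h6, real_inner_self_eq_norm_sq]; ring
  have hy1 : T s F z - b = d + s • (z - a) := by
    rw [T, ← ha, hd]; abel
  have hy2 : T s F z - b = s • (z' - b) := by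
    rw [heq, T, ← hb]; abel
  have e1 : ⟪T s F z - b, e⟫ = ‖e‖ ^ 2 + s * (⟪z - b, e⟫ - ‖e‖ ^ 2) := by
    rw [hy1, inner_add_left, inner_smul_left, hde]
    have : z - a = (z - b) - d := by rw [hd]; abel
    rw [this, inner_sub_left, hde]
    simp only [conj_trivial]
  have e2 : ⟪T s F z - b, e⟫ = s * (⟪z' - a, e⟫ + ‖e‖ ^ 2) := by
    rw [hy2, inner_smul_left]
    have : z' - b = (z' - a) + d := by rw [hd]; abel
    rw [this, inner_add_left, hde]
    simp only [conj_trivial]
  have hez : ‖e‖ ^ 2 ≤ 0 := by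
    by_contra hcon
    rw [not_le] at hcon
    nlinarith [mul_nonneg hs.le h1, mul_nonneg hs.le h2, mul_pos (show (0:ℝ) < 1 - 2 * s by linarith) hcon]
  have he0 : e = 0 := by
    have : ‖e‖ = 0 := pow_eq_zero_iff two_ne_zero |>.1 (le_antisymm hez (sq_nonneg _))
    exact norm_eq_zero.1 this
  have hn0 : n = (Dr F').starProjection n := sub_eq_zero.1 he0
  have hx : b + n ∈ Fx F' := by
    rw [hn0]
    exact add_mem_Fx hB (Submodule.starProjection_apply_mem _ _)
  have hx' : b + n ∈ Fx F := by
    have : b + n = a + (-(Dr F).starProjection d) := by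
      rw [hn, hd]; abel
    rw [this]
    exact add_mem_Fx hA ((Dr F).neg_mem (Submodule.starProjection_apply_mem _ _))
  exact hne (MF.eq_of_mem hG h h' hx' hx)

end Pool.MP_db1ca7_gt
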