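import Pool.Agent.Lib_MP_db1ca7_fl.Ind

/-!
# MP_db1ca7_gt: sufficient conditions for the condition (J)
-/

set_option autoImplicit false
set_option linter.unusedSectionVars false

namespace Pool.MP_db1ca7_gt

open scoped RealInnerProductSpace

variable {E : Type} [NormedAddCommGroup E] [InnerProductSpace ℝ E] [FiniteDimensional ℝ E]

/-- condition (J) for the subspace `V` -/
def JJ (G : Subgroup (E ≃ᵢ E)) (V : Submodule ℝ E) : Prop :=
  ∀ H : Subgroup (E ≃ᵢ E), H ≤ G → ∀ g ∈ G,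
    (∀ v ∈ V, v ∈ Dr H → lin g v ∈ Dr H) ∨
    ∀ x ∈ V, ∃ u ∈ V, u ∈ Dr H ∧ ∃ w ∈ V, w ∈ Dr H ∧ x = u + lin g w

/-- commuting linear parts -/
theorem JJ_comm {G : Subgroup (E ≃ᵢ E)} {V : Submodule ℝ E}
    (h : ∀ g ∈ G, ∀ k ∈ G, ∀ v ∈ V, lin g (lin k v) = lin k (lin g v)) : JJ G V := by
  intro H hH g hg
  left
  intro v hv hvH k hk
  rw [← h g hg k (hH hk) v hv, hvH k hk]

/-- dimension at most two -/
theorem JJ_two {G : Subgroup (E ≃ᵢ E)} {V : Submodule ℝ E} (hV : ∀ g ∈ G, ∀ v ∈ V, lin g v ∈ V)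
    (h2 : Module.finrank ℝ V ≤ 2) : JJ G V := by
  intro H _ g hg
  by_cases hc : ∀ v ∈ V, v ∈ Dr H → lin g v ∈ Dr H
  · exact Or.inl hc
  · right
    push Not at hc
    obtain ⟨v, hv, hvH, hn⟩ := hc
    set A : Submodule ℝ E := V ⊓ Dr H with hA
    set B : Submodule ℝ E := A ⊔ A.map (lin g).toLinearEquiv.toLinearMap with hB
    have hvA : v ∈ A := ⟨hv, hvH⟩
    have hv0 : v ≠ 0 := by
      rintro rfl
      apply hn
      rw [map_zero]
      exact (Dr H).zero_mem
    have hA1 : 1 ≤ Module.finrank ℝ A := by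
      rw [Nat.one_le_iff_ne_zero]
      intro h0
      rw [Submodule.finrank_eq_zero] at h0
      rw [h0, Submodule.mem_bot] at hvA
      exact hv0 hvA
    have hAB : A < B := by
      refine lt_of_le_of_ne le_sup_left ?_
      intro he
      apply hn
      have : lin g v ∈ B := Submodule.mem_sup_right (Submodule.mem_map_of_mem (f := (lin g).toLinearEquiv.toLinearMap) hvA)
      rw [← he] at this
      exact this.2
    have hB2 : 2 ≤ Module.finrank ℝ B := by
      have := Submodule.finrank_lt_finrank_of_lt hAB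
      omega
    have hBV : B ≤ V := by
      apply sup_le inf_le_left
      rintro _ ⟨w, hw, rfl⟩
      exact hV g hg w hw.1
    have hBV' : B = V := Submodule.eq_of_le_of_finrank_le hBV (h2.trans hB2)
    intro x hx
    rw [← hBV', hB, Submodule.mem_sup] at hx
    obtain ⟨u, hu, y, hy, rfl⟩ := hx
    obtain ⟨w, hw, rfl⟩ := hy
    exact ⟨u, hu.1, hu.2, w, hw.1, hw.2, rfl⟩

/-- `g` acts on `V` as a nontrivial map with a nonzero fixed vector -/
def Mir (V : Submodule ℝ E) (g : E ≃ᵢ E) : Prop :=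
  (∃ v ∈ V, lin g v ≠ v) ∧ ∃ v ∈ V, v ≠ 0 ∧ lin g v = v

/-- every mirror is an involution and no product of two mirrors is a mirror -/
theorem JJ_mir {G : Subgroup (E ≃ᵢ E)} {V : Submodule ℝ E} (hV : ∀ g ∈ G, ∀ v ∈ V, lin g v ∈ V)
    (h1 : ∀ g ∈ G, Mir V g → ∀ v ∈ V, lin g (lin g v) = v)
    (h2 : ∀ g ∈ G, ∀ k ∈ G, Mir V g → Mir V k → ¬ Mir V (g * k)) : JJ G V := by
  intro H hH g hg
  by_cases h0 : ∀ v ∈ V, v ∈ Dr H → v = 0
  · left
    intro v hv hvH
    rw [h0 v hv hvH, map_zero]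
    exact (Dr H).zero_mem
  push Not at h0
  obtain ⟨e, heV, heH, he0⟩ := h0
  by_cases ht : ∀ h ∈ H, ∀ v ∈ V, lin h v = v
  · left
    intro v hv _ h hh
    exact ht h hh _ (hV g hg v hv)
  push Not at ht
  obtain ⟨σ, hσH, hσ⟩ := ht
  have hσG := hH hσH
  have hσM : Mir V σ := ⟨hσ, e, heV, he0, heH σ hσH⟩
  have hσσ := h1 σ hσG hσM
  -- every other element of `H` acts as `1` or `σ`
  have hDr : ∀ v ∈ V, lin σ v = v → v ∈ Dr H := by
    intro v hv hvσ h hh
    by_cases hM : Mir V h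
    · have hn := h2 σ hσG h (hH hh) hσM hM
      have h3 : ∀ w ∈ V, lin (σ * h) w = w := by
        by_contra hcon
        push Not at hcon
        exact hn ⟨hcon, e, heV, he0, heH _ (H.mul_mem hσH hh)⟩
      have h4 := h3 v hv
      rw [lin_mul] at h4
      have h5 := congrArg (lin σ) h4
      rw [hσσ _ (hV h (hH hh) v hv), hvσ] at h5
      exact h5
    · by_contra hcon
      exact hM ⟨⟨v, hv, hcon⟩, e, heV, he0, heH h hh⟩
  -- the conjugate mirror
  set τ : E ≃ᵢ E := g * σ * g⁻¹ with hτ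
  have hτG : τ ∈ G := G.mul_mem (G.mul_mem hg hσG) (G.inv_mem hg)
  have hτl : ∀ v, lin τ v = lin g (lin σ (lin g⁻¹ v)) := by
    intro v; rw [hτ, lin_mul, lin_mul]
  have hτM : Mir V τ := by
    refine ⟨?_, lin g e, hV g hg e heV, ?_, ?_⟩
    · obtain ⟨v, hv, hne⟩ := hσ
      refine ⟨lin g v, hV g hg v hv, ?_⟩
      rw [hτl, lin_inv_lin]
      intro h
      exact hne ((lin g).injective h)
    · intro h
      apply he0
      have := congrArg (lin g⁻¹) h
      rwa [lin_inv_lin, map_zero] at this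
    · rw [hτl, lin_inv_lin, heH σ hσH]
  have hττ := h1 τ hτG hτM
  have hn := h2 σ hσG τ hτG hσM hτM
  by_cases htriv : ∀ v ∈ V, lin (σ * τ) v = v
  · left
    intro v hv hvH
    apply hDr _ (hV g hg v hv)
    have h3 := htriv (lin g v) (hV g hg v hv)
    rw [lin_mul, hτl, lin_inv_lin, hvH σ hσH] at h3
    exact h3
  · right
    push Not at htriv
    have hfree : ∀ v ∈ V, lin (σ * τ) v = v → v = 0 := by
      intro v hv hvf
      by_contra hv0
      exact hn ⟨htriv, v, hv, hv0, hvf⟩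
    set A : Submodule ℝ E := V ⊓ Dr H with hA
    set B : Submodule ℝ E := A ⊔ A.map (lin g).toLinearEquiv.toLinearMap with hB
    have hBV : B ≤ V := by
      apply sup_le inf_le_left
      rintro _ ⟨w, hw, rfl⟩
      exact hV g hg w hw.1
    have hBV' : V ≤ B := by
      intro x hx
      obtain ⟨b, hb, c, hc, hbc⟩ := Submodule.exists_add_mem_mem_orthogonal (K := B) x
      have hcV : c ∈ V := by
        have : c = x - b := by rw [hbc]; abel
        rw [this]
        exact V.sub_mem hx (hBV hb)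
      have hc1 : lin σ c = -c := by
        have hw : c + lin σ c ∈ A := by
          refine ⟨V.add_mem hcV (hV σ hσG c hcV), hDr _ (V.add_mem hcV (hV σ hσG c hcV)) ?_⟩
          rw [map_add, hσσ c hcV]; abel
        have h3 : ⟪c + lin σ c, c⟫ = 0 :=
          (Submodule.mem_orthogonal B c).1 hc _ (Submodule.mem_sup_left hw)
        have h4 : ‖c + lin σ c‖ ^ 2 = 2 * ⟪c + lin σ c, c⟫ := by
          rw [@norm_add_sq_real, LinearIsometryEquiv.norm_map, inner_add_left, real_inner_self_eq_norm_sq,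
            real_inner_comm c (lin σ c)]
          ring
        rw [h3, mul_zero, sq_eq_zero_iff, norm_eq_zero] at h4
        exact (eq_neg_of_add_eq_zero_right h4)
      have hc2 : lin τ c = -c := by
        have hw : c + lin τ c ∈ A.map (lin g).toLinearEquiv.toLinearMap := by
          refine ⟨lin g⁻¹ (c + lin τ c), ?_, ?_⟩
          · have hV' : lin g⁻¹ (c + lin τ c) ∈ V :=
              hV _ (G.inv_mem hg) _ (V.add_mem hcV (hV τ hτG c hcV))
            refine ⟨hV', hDr _ hV' ?_⟩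
            rw [map_add, map_add]
            have h5 : lin σ (lin g⁻¹ c) = lin g⁻¹ (lin τ c) := by
              rw [hτl, lin_inv_lin]
            have h6 : lin σ (lin g⁻¹ (lin τ c)) = lin g⁻¹ c := by
              rw [← h5, hσσ _ (hV _ (G.inv_mem hg) _ hcV)]
            rw [h5, h6]; abel
          · exact lin_lin_inv g _
        have h3 : ⟪c + lin τ c, c⟫ = 0 :=
          (Submodule.mem_orthogonal B c).1 hc _ (Submodule.mem_sup_right hw)
        have h4 : ‖c + lin τ c‖ ^ 2 = 2 * ⟪c + lin τ c, c⟫ := by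
          rw [@norm_add_sq_real, LinearIsometryEquiv.norm_map, inner_add_left, real_inner_self_eq_norm_sq,
            real_inner_comm c (lin τ c)]
          ring
        rw [h3, mul_zero, sq_eq_zero_iff, norm_eq_zero] at h4
        exact (eq_neg_of_add_eq_zero_right h4)
      have hc0 : c = 0 := by
        apply hfree c hcV
        rw [lin_mul, hc2, map_neg, hc1, neg_neg]
      rw [hbc, hc0, add_zero]
      exact hb
    intro x hx
    have hx' := hBV' hx
    rw [hB, Submodule.mem_sup] at hx'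
    obtain ⟨u, hu, y, hy, rfl⟩ := hx'
    obtain ⟨w, hw, rfl⟩ := hy
    exact ⟨u, hu.1, hu.2, w, hw.1, hw.2, rfl⟩

/-- a subgroup of index at most two acting freely on `V \ {0}` -/
theorem JJ_free {G : Subgroup (E ≃ᵢ E)} {V : Submodule ℝ E} (hV : ∀ g ∈ G, ∀ v ∈ V, lin g v ∈ V)
    (N : Subgroup (E ≃ᵢ E)) (hN : ∀ g ∈ G, ∀ k ∈ G, g ∉ N → k ∉ N → g * k ∈ N)
    (hfree : ∀ g ∈ G, g ∈ N → ∀ v ∈ V, v ≠ 0 → lin g v = v → ∀ w ∈ V, lin g w = w) : JJ G V := by
  have hM : ∀ g ∈ G, Mir V g → g ∉ N := by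
    rintro g hg ⟨⟨w, hw, hne⟩, v, hv, hv0, hvf⟩ hgN
    exact hne (hfree g hg hgN v hv hv0 hvf w hw)
  apply JJ_mir hV
  · intro g hg hgM v hv
    have h1 := hN g hg g hg (hM g hg hgM) (hM g hg hgM)
    obtain ⟨_, e, heV, he0, he⟩ := hgM
    have h2 := hfree (g * g) (G.mul_mem hg hg) h1 e heV he0 (by rw [lin_mul, he, he]) v hv
    rwa [lin_mul] at h2
  · intro g hg k hk hgM hkM hgk
    exact hM _ (G.mul_mem hg hk) hgk (hN g hg k hk (hM g hg hgM) (hM k hk hkM))

end Pool.MP_db1ca7_gt
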